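import Pool.Agent.N520.Inv

/-!
# The path attached to a linear generating function
-/

set_option autoImplicit false

open Set Filter Topology Metric Function
open scoped ContDiff

namespace Pool.Agent.N520

section Fam

variable {E : Type*} [NormedAddCommGroup E] [NormedSpace ℝ E] [FiniteDimensional ℝ E]

/-- the inverses of a smooth family of diffeomorphisms form a smooth family -/
theorem exists_smooth_family_inverse (A : ℝ × E → E) (hA : ContDiff ℝ ∞ A)
    (hb : ∀ t, Bijective (fun p => A (t, p)))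
    (hD : ∀ t p, Injective (fderiv ℝ (fun p => A (t, p)) p)) :
    ∃ S : ℝ × E → E, ContDiff ℝ ∞ S ∧ (∀ t p, S (t, A (t, p)) = p) ∧
      ∀ t x, A (t, S (t, x)) = x := by
  let T : ℝ × E → ℝ × E := fun z => (z.1, A z)
  have hT : ContDiff ℝ ∞ T := contDiff_fst.prodMk hA
  have hTb : Bijective T := by
    constructor
    · rintro ⟨t, p⟩ ⟨t', p'⟩ h
      simp only [T, Prod.mk.injEq] at h
      obtain ⟨rfl, h2⟩ := h
      rw [(hb t).injective h2]
    · rintro ⟨t, x⟩
      obtain ⟨p, hp⟩ := (hb t).surjective x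
      exact ⟨(t, p), by simp only [T]; rw [← hp]⟩
  have hTD : ∀ z, Injective (fderiv ℝ T z) := by
    rintro ⟨t, p⟩
    rw [injective_iff_map_eq_zero]
    rintro ⟨s, v⟩ hsv
    have hAd : HasFDerivAt A (fderiv ℝ A (t, p)) (t, p) :=
      (hA.differentiable (by simp)).differentiableAt.hasFDerivAt
    have h1 : HasFDerivAt T ((ContinuousLinearMap.fst ℝ ℝ E).prod (fderiv ℝ A (t, p))) (t, p) :=
      hasFDerivAt_fst.prodMk hAd
    rw [h1.fderiv] at hsv
    simp only [ContinuousLinearMap.prod_apply, ContinuousLinearMap.coe_fst', Prod.mk_eq_zero] at hsv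
    obtain ⟨hs, hv⟩ := hsv
    subst hs
    have h2 : HasFDerivAt (fun p => A (t, p))
        ((fderiv ℝ A (t, p)).comp (ContinuousLinearMap.inr ℝ ℝ E)) p :=
      hAd.comp p (hasFDerivAt_prodMk_right t p)
    have h3 := hD t p
    rw [h2.fderiv] at h3
    have h4 : v = 0 := by
      apply h3
      simp only [ContinuousLinearMap.comp_apply, ContinuousLinearMap.inr_apply, map_zero]
      exact hv
    rw [h4]; rfl
  obtain ⟨S, hS, hS1, hS2⟩ := exists_smooth_inverse T hT hTb hTD
  refine ⟨fun z => (S z).2, contDiff_snd.comp hS, fun t p => ?_, fun t x => ?_⟩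
  · have := hS1 (t, p)
    simp only [T] at this
    simp only [this]
  · have h := hS2 (t, x)
    simp only [T, Prod.mk.injEq] at h
    have h5 : S (t, x) = (t, (S (t, x)).2) := by
      rw [Prod.ext_iff]; exact ⟨h.1, rfl⟩
    rw [← h5]
    exact h.2

/-- A symplectic map `h` (with respect to the bilinear form `B`), equal to the identity off `K`,
such that `1 + s Q (D h - 1)` is injective for `s ∈ [0, 1]`, is joined to the identity by a smooth
path of symplectic diffeomorphisms equal to the identity off `K`.  Here `Q` is any linear map with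
`B (Q v) w + B v (Q w) = B v w`. -/
theorem linear_generating_path (B : E →L[ℝ] E →L[ℝ] ℝ)
    (hB0 : ∀ v, (∀ w, B v w = 0) → v = 0)
    (Q : E →L[ℝ] E) (hQ : ∀ v w, B (Q v) w + B v (Q w) = B v w)
    (h : E → E) (hh : ContDiff ℝ ∞ h)
    (hB : ∀ x v w, B (fderiv ℝ h x v) (fderiv ℝ h x w) = B v w)
    (K : Set E) (hK : IsCompact K) (hhK : ∀ x ∉ K, h x = x)
    (hreg : ∀ x, ∀ s ∈ Icc (0 : ℝ) 1, Injective (fun v => v + s • Q (fderiv ℝ h x v - v))) :
    ∃ Φ Ψ : ℝ × E → E, ContDiff ℝ ∞ Φ ∧ ContDiff ℝ ∞ Ψ ∧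
      (∀ t x, Ψ (t, Φ (t, x)) = x) ∧ (∀ t x, Φ (t, Ψ (t, x)) = x) ∧
      (∀ t x v w, B (fderiv ℝ (fun y => Φ (t, y)) x v) (fderiv ℝ (fun y => Φ (t, y)) x w) =
        B v w) ∧
      (∀ t, ∀ x ∉ K, Φ (t, x) = x) ∧ (∀ x, Φ (0, x) = x) ∧ ∀ x, Φ (1, x) = h x := by
  have hhd : ∀ x, HasFDerivAt h (fderiv ℝ h x) x := fun x =>
    (hh.differentiable (by simp)).differentiableAt.hasFDerivAt
  -- the map `m`
  let m : E → E := fun z => z + Q (h z - z)
  have hm : ContDiff ℝ ∞ m := contDiff_id.add (Q.contDiff.comp (hh.sub contDiff_id))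
  have hmd : ∀ z, HasFDerivAt m (ContinuousLinearMap.id ℝ E +
      Q.comp (fderiv ℝ h z - ContinuousLinearMap.id ℝ E)) z := fun z =>
    (hasFDerivAt_id z).add (Q.hasFDerivAt.comp z ((hhd z).sub (hasFDerivAt_id z)))
  have hmK : ∀ z ∉ K, m z = z := fun z hz => by simp [m, hhK z hz]
  have hminj : ∀ z, Injective (fderiv ℝ m z) := by
    intro z
    rw [(hmd z).fderiv]
    have := hreg z 1 (by simp)
    intro a b hab
    apply this
    simpa using hab
  have hmb : Bijective m := bijective_of_injective_fderiv m hm K hK hmK hminj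
  obtain ⟨n, hn, hnm, hmn⟩ := exists_smooth_inverse m hm hmb hminj
  have hnK : ∀ z ∉ K, n z = z := fun z hz => by
    have := hnm z
    rwa [hmK z hz] at this
  -- the vector field `f`
  let f : E → E := fun p => h (n p) - n p
  have hf : ContDiff ℝ ∞ f := (hh.comp hn).sub hn
  have hfd : ∀ p, HasFDerivAt f (fderiv ℝ f p) p := fun p =>
    (hf.differentiable (by simp)).differentiableAt.hasFDerivAt
  have hfK : ∀ z ∉ K, f z = 0 := fun z hz => by
    simp only [f]; rw [hnK z hz, hhK z hz, sub_self]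
  have hfm : ∀ z, f (m z) = h z - z := fun z => by simp only [f]; rw [hnm z]
  have hfmd : ∀ z v, fderiv ℝ f (m z) (v + Q (fderiv ℝ h z v - v)) = fderiv ℝ h z v - v := by
    intro z v
    have h1 : HasFDerivAt (fun z => f (m z)) ((fderiv ℝ f (m z)).comp
      (ContinuousLinearMap.id ℝ E + Q.comp (fderiv ℝ h z - ContinuousLinearMap.id ℝ E))) z :=
      (hfd (m z)).comp z (hmd z)
    have h2 : HasFDerivAt (fun z => f (m z)) (fderiv ℝ h z - ContinuousLinearMap.id ℝ E) z := by
      have : (fun z => f (m z)) = fun z => h z - z := funext hfm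
      rw [this]
      exact (hhd z).sub (hasFDerivAt_id z)
    have h3 := h1.unique h2
    have h4 := congrArg (fun L : E →L[ℝ] E => L v) h3
    simpa using h4
  -- smooth reparametrisation
  let τ : ℝ → ℝ := Real.smoothTransition
  have hτ : ContDiff ℝ ∞ τ := Real.smoothTransition.contDiff
  have hτ0 : ∀ t, 0 ≤ τ t := Real.smoothTransition.nonneg
  have hτ1 : ∀ t, τ t ≤ 1 := Real.smoothTransition.le_one
  -- the family `A`
  let A : ℝ × E → E := fun z => z.2 - τ z.1 • Q (f z.2)
  have hA : ContDiff ℝ ∞ A := contDiff_snd.sub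
    ((hτ.comp contDiff_fst).smul (Q.contDiff.comp (hf.comp contDiff_snd)))
  have hAd : ∀ t p, HasFDerivAt (fun p => A (t, p)) (ContinuousLinearMap.id ℝ E -
      τ t • Q.comp (fderiv ℝ f p)) p := fun t p =>
    (hasFDerivAt_id p).sub ((Q.hasFDerivAt.comp p (hfd p)).const_smul (τ t))
  have hAinj : ∀ t p, Injective (fderiv ℝ (fun p => A (t, p)) p) := by
    intro t p
    rw [(hAd t p).fderiv, injective_iff_map_eq_zero]
    intro u hu
    obtain ⟨z, rfl⟩ := hmb.surjective p
    -- write `u` as the image of `v` by the derivative of `m`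
    obtain ⟨v, rfl⟩ : ∃ v, v + Q (fderiv ℝ h z v - v) = u := by
      have h5 : Injective ((ContinuousLinearMap.id ℝ E +
          Q.comp (fderiv ℝ h z - ContinuousLinearMap.id ℝ E) : E →L[ℝ] E) : E →ₗ[ℝ] E) := by
        have := hminj z
        rw [(hmd z).fderiv] at this
        exact this
      obtain ⟨v, hv⟩ := (LinearMap.injective_iff_surjective.1 h5) u
      exact ⟨v, by simpa using hv⟩
    have h6 : v + (1 - τ t) • Q (fderiv ℝ h z v - v) = 0 := by
      have h7 := hu
      simp only [sub_apply, ContinuousLinearMap.coe_id', id_eq,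
        smul_apply, ContinuousLinearMap.comp_apply] at h7
      rw [hfmd z v] at h7
      rw [sub_smul, one_smul, ← h7]
      abel
    have h8 := hreg z (1 - τ t) ⟨by linarith [hτ1 t], by linarith [hτ0 t]⟩
    have h9 : v = 0 := h8 (by simpa using h6)
    rw [h9]; simp
  have hAK : ∀ t, ∀ x ∉ K, A (t, x) = x := fun t x hx => by simp [A, hfK x hx]
  have hAb : ∀ t, Bijective (fun p => A (t, p)) := fun t =>
    bijective_of_injective_fderiv _ (hA.comp (contDiff_prodMk_right t)) K hK (hAK t) (hAinj t)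
  obtain ⟨S, hS, hSA, hAS⟩ := exists_smooth_family_inverse A hA hAb hAinj
  have hSK : ∀ t, ∀ x ∉ K, S (t, x) = x := fun t x hx => by
    have := hSA t x
    rwa [hAK t x hx] at this
  -- the path
  let Φ : ℝ × E → E := fun z => z.2 + τ z.1 • f (S z)
  have hΦ : ContDiff ℝ ∞ Φ := contDiff_snd.add ((hτ.comp contDiff_fst).smul (hf.comp hS))
  have hΦd : ∀ t x, HasFDerivAt (fun y => Φ (t, y)) (fderiv ℝ (fun y => Φ (t, y)) x) x :=
    fun t x => ((hΦ.comp (contDiff_prodMk_right t)).differentiable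
      (by simp)).differentiableAt.hasFDerivAt
  have hΦA : ∀ t p, Φ (t, A (t, p)) = A (t, p) + τ t • f p := fun t p => by
    simp only [Φ]; rw [hSA t p]
  have hΦAd : ∀ t p u, fderiv ℝ (fun y => Φ (t, y)) (A (t, p)) (u - τ t • Q (fderiv ℝ f p u)) =
      u - τ t • Q (fderiv ℝ f p u) + τ t • fderiv ℝ f p u := by
    intro t p u
    have h1 : HasFDerivAt (fun p => Φ (t, A (t, p)))
      ((fderiv ℝ (fun y => Φ (t, y)) (A (t, p))).comp (ContinuousLinearMap.id ℝ E -
      τ t • Q.comp (fderiv ℝ f p))) p :=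
        HasFDerivAt.comp (g := fun y => Φ (t, y)) (f := fun p => A (t, p)) p
          (hΦd t (A (t, p))) (hAd t p)
    have h2 : HasFDerivAt (fun p => Φ (t, A (t, p))) ((ContinuousLinearMap.id ℝ E -
      τ t • Q.comp (fderiv ℝ f p)) + τ t • fderiv ℝ f p) p := by
      have : (fun p => Φ (t, A (t, p))) = fun p => A (t, p) + τ t • f p := funext (hΦA t)
      rw [this]
      exact (hAd t p).add ((hfd p).const_smul (τ t))
    have h3 := h1.unique h2
    have h4 := congrArg (fun L : E →L[ℝ] E => L u) h3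
    simpa using h4
  have hΦ1 : ∀ x, Φ (1, x) = h x := by
    intro x
    have h1 : A (1, m x) = x := by
      simp only [A, hfm, m]
      have : τ 1 = 1 := Real.smoothTransition.one
      rw [this]; simp
    have h2 := hΦA 1 (m x)
    rw [h1, hfm] at h2
    have : τ 1 = 1 := Real.smoothTransition.one
    rw [h2, this]; simp
  -- infinitesimal condition
  have hinf : ∀ p v w, B (fderiv ℝ f p v) w + B v (fderiv ℝ f p w) = 0 := by
    intro p v w
    have h1 := hΦAd 1 p v
    have h2 := hΦAd 1 p w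
    have h3 : (fun y => Φ (1, y)) = h := funext hΦ1
    have h4 : τ 1 = 1 := Real.smoothTransition.one
    rw [h3, h4] at h1 h2
    have h5 := hB (A (1, p)) (v - (1 : ℝ) • Q (fderiv ℝ f p v)) (w - (1 : ℝ) • Q (fderiv ℝ f p w))
    rw [h1, h2] at h5
    have h6 := hQ (fderiv ℝ f p v) (fderiv ℝ f p w)
    simp only [one_smul, map_add, map_sub, add_apply,
      sub_apply] at h5
    linarith
  have hsymp : ∀ t x v w, B (fderiv ℝ (fun y => Φ (t, y)) x v)
      (fderiv ℝ (fun y => Φ (t, y)) x w) = B v w := by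
    intro t x v w
    obtain ⟨p, rfl⟩ := (hAb t).surjective x
    have hsurj : ∀ v, ∃ u, u - τ t • Q (fderiv ℝ f p u) = v := by
      intro v
      have h5 : Injective ((ContinuousLinearMap.id ℝ E - τ t • Q.comp (fderiv ℝ f p) :
          E →L[ℝ] E) : E →ₗ[ℝ] E) := by
        have := hAinj t p
        rw [(hAd t p).fderiv] at this
        exact this
      obtain ⟨u, hu⟩ := (LinearMap.injective_iff_surjective.1 h5) v
      exact ⟨u, by simpa using hu⟩
    obtain ⟨v', rfl⟩ := hsurj v
    obtain ⟨w', rfl⟩ := hsurj w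
    have e1 := hΦAd t p v'
    have e2 := hΦAd t p w'
    simp only at e1 e2 ⊢
    rw [e1, e2]
    have h6 := hQ (fderiv ℝ f p v') (fderiv ℝ f p w')
    have h7 := hinf p v' w'
    simp only [map_add, map_sub, map_smul, add_apply,
      sub_apply, smul_apply, smul_eq_mul]
    linear_combination τ t * h7 - τ t ^ 2 * h6
  have hΦinj : ∀ t x, Injective (fderiv ℝ (fun y => Φ (t, y)) x) := by
    intro t x
    rw [injective_iff_map_eq_zero]
    intro v hv
    apply hB0
    intro w
    rw [← hsymp t x v w, hv]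
    simp
  have hΦK : ∀ t, ∀ x ∉ K, Φ (t, x) = x := fun t x hx => by
    simp only [Φ]; rw [hSK t x hx, hfK x hx]; simp
  have hΦb : ∀ t, Bijective (fun p => Φ (t, p)) := fun t =>
    bijective_of_injective_fderiv _ (hΦ.comp (contDiff_prodMk_right t)) K hK (hΦK t) (hΦinj t)
  obtain ⟨Ψ, hΨ, h1, h2⟩ := exists_smooth_family_inverse Φ hΦ hΦb hΦinj
  refine ⟨Φ, Ψ, hΦ, hΨ, h1, h2, hsymp, hΦK, fun x => ?_, hΦ1⟩
  simp only [Φ]
  have : τ 0 = 0 := Real.smoothTransition.zero
  rw [this]; simp

end Fam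

end Pool.Agent.N520
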