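import Mathlib

/-!
# Linear algebra of compatible complex structures
-/

set_option autoImplicit false
set_option maxSynthPendingDepth 3

open Set Function Topology Filter Metric
open scoped ContDiff

namespace Pool.Agent.N520.Had

section alg

variable {E : Type} [NormedAddCommGroup E] [NormedSpace ℝ E]

/-- `J` is a complex structure compatible with the two-form `B` -/
structure Compat (B : E →L[ℝ] E →L[ℝ] ℝ) (J : E →L[ℝ] E) : Prop where
  alt : ∀ v, B v v = 0
  sq : ∀ v, J (J v) = -v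
  inv : ∀ u v, B (J u) (J v) = B u v
  pos : ∀ v, v ≠ 0 → 0 < B v (J v)

variable {B : E →L[ℝ] E →L[ℝ] ℝ} {J : E →L[ℝ] E}

theorem Compat.skew (h : Compat B J) (u v : E) : B u v = -B v u := by
  have := h.alt (u + v)
  simp only [map_add, _root_.add_apply, h.alt, zero_add, add_zero] at this
  linarith

theorem Compat.symm (h : Compat B J) (u v : E) : B u (J v) = B v (J u) := by
  have h1 := h.inv u (J v)
  rw [h.sq, map_neg] at h1
  rw [← h1, h.skew]
  simp

theorem Compat.nonneg (h : Compat B J) (v : E) : 0 ≤ B v (J v) := by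
  by_cases hv : v = 0
  · simp [hv]
  · exact (h.pos v hv).le

theorem Compat.norm_J (h : Compat B J) (v : E) : B (J v) (J (J v)) = B v (J v) := h.inv _ _

theorem Compat.cs (h : Compat B J) (u v : E) :
    (B u (J v)) ^ 2 ≤ B u (J u) * B v (J v) := by
  by_cases hv : v = 0
  · simp [hv]
  · have hp := h.pos v hv
    have h1 := h.nonneg (B v (J v) • u - B u (J v) • v)
    simp only [map_sub, map_smul, _root_.sub_apply, _root_.smul_apply, smul_eq_mul] at h1
    rw [h.symm v u] at h1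
    have h2 : 0 ≤ B v (J v) * (B u (J u) * B v (J v) - (B u (J v)) ^ 2) := by nlinarith
    nlinarith [nonneg_of_mul_nonneg_right h2 hp]

theorem Compat.cs' (h : Compat B J) (u v : E) :
    (B u v) ^ 2 ≤ B u (J u) * B v (J v) := by
  have h1 := h.cs u (J v)
  rw [h.sq, map_neg, map_neg] at h1
  rw [h.skew v (J v)]
  nlinarith

/-- the basic estimate for the solution of `ι_X A = α` when `A` tames `J` -/
theorem Compat.bound (h : Compat B J) {A : E →L[ℝ] E →L[ℝ] ℝ} {α : E →L[ℝ] ℝ} {X : E} {C : ℝ}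
    (hC : 0 ≤ C) (hA : ∀ v, B v (J v) ≤ A v (J v)) (hα : ∀ v, (α v) ^ 2 ≤ C * B v (J v)) (hX : A X = α) :
    B X (J X) ≤ C := by
  by_cases hX0 : X = 0
  · simpa [hX0] using hC
  · have h1 := hA X
    have h2 := hα (J X)
    rw [h.norm_J] at h2
    have h3 : A X (J X) = α (J X) := by rw [hX]
    have h4 := h.pos X hX0
    rw [h3] at h1
    have h5 : (B X (J X)) ^ 2 ≤ C * B X (J X) := by nlinarith
    nlinarith

end alg

section inverse

variable {E P : Type} [NormedAddCommGroup E] [NormedSpace ℝ E] [FiniteDimensional ℝ E]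
  [NormedAddCommGroup P] [NormedSpace ℝ P]

theorem exists_equiv_of_nondeg (B : E →L[ℝ] E →L[ℝ] ℝ) (h : ∀ v, (∀ w, B v w = 0) → v = 0) :
    ∃ e : E ≃L[ℝ] (E →L[ℝ] ℝ), (e : E →L[ℝ] E →L[ℝ] ℝ) = B := by
  have hinj : Function.Injective (B : E →ₗ[ℝ] (E →L[ℝ] ℝ)) := by
    rw [← LinearMap.ker_eq_bot, LinearMap.ker_eq_bot']
    intro v hv
    refine h v fun w => ?_
    have : B v = 0 := hv
    rw [this]
    rfl
  have hdim : Module.finrank ℝ E = Module.finrank ℝ (E →L[ℝ] ℝ) := by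
    have e : (E →L[ℝ] ℝ) ≃ₗ[ℝ] Module.Dual ℝ E := (LinearMap.toContinuousLinearMap).symm
    rw [e.finrank_eq, Subspace.dual_finrank_eq]
  let e := (LinearEquiv.ofInjectiveOfFinrankEq (B : E →ₗ[ℝ] (E →L[ℝ] ℝ)) hinj
    hdim).toContinuousLinearEquiv
  exact ⟨e, by ext v w; rfl⟩

/-- the solution of `ι_X A = α`, as a function of a parameter, is smooth -/
theorem contDiff_solve {A : P → E →L[ℝ] E →L[ℝ] ℝ} {α : P → E →L[ℝ] ℝ} (hA : ContDiff ℝ ∞ A)
    (hα : ContDiff ℝ ∞ α) (hnd : ∀ p v, (∀ w, A p v w = 0) → v = 0) :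
    ContDiff ℝ ∞ (fun p => (A p).inverse (α p)) := by
  have hcs : CompleteSpace E := FiniteDimensional.complete ℝ E
  rw [contDiff_iff_contDiffAt]
  intro p
  obtain ⟨e, he⟩ := exists_equiv_of_nondeg (A p) (hnd p)
  have h1 : ContDiffAt ℝ ∞ (ContinuousLinearMap.inverse : (E →L[ℝ] E →L[ℝ] ℝ) → _) (A p) := by
    rw [← he]
    exact contDiffAt_map_inverse e
  exact (ContDiffAt.comp p h1 hA.contDiffAt).clm_apply hα.contDiffAt

theorem solve_spec {A : E →L[ℝ] E →L[ℝ] ℝ} (hnd : ∀ v, (∀ w, A v w = 0) → v = 0)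
    (α : E →L[ℝ] ℝ) : A (A.inverse α) = α := by
  obtain ⟨e, he⟩ := exists_equiv_of_nondeg A hnd
  rw [← he, ContinuousLinearMap.inverse_equiv]
  exact e.apply_symm_apply α

theorem solve_unique {A : E →L[ℝ] E →L[ℝ] ℝ} (hnd : ∀ v, (∀ w, A v w = 0) → v = 0)
    {α : E →L[ℝ] ℝ} {X : E} (h : A X = α) : A.inverse α = X := by
  obtain ⟨e, he⟩ := exists_equiv_of_nondeg A hnd
  rw [← h, ← he, ContinuousLinearMap.inverse_equiv]
  exact e.symm_apply_apply X

end inverse

end Pool.Agent.N520.Had
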