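import Mathlib

/-!
# The group of compactly supported symplectomorphisms of `ℝ^{2n}` and its topology
-/

set_option autoImplicit false

open Set Function Topology
open scoped ContDiff

noncomputable section

namespace Pool.Agent.N520

/-- `ℝ^{2n}`, with coordinates `(x, y)`, `x, y ∈ ℝ^n` -/
abbrev V (n : ℕ) : Type := (Fin n → ℝ) × (Fin n → ℝ)

/-- the standard symplectic form `∑ dx_i ∧ dy_i` -/
def omega {n : ℕ} (v w : V n) : ℝ := ∑ i, (v.1 i * w.2 i - v.2 i * w.1 i)

/-- `φ` is a diffeomorphism of `ℝ^{2n}` with `φ^*ω = ω` which equals the identity outside some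
compact set -/
def IsSympCt {n : ℕ} (φ : Equiv.Perm (V n)) : Prop :=
  ContDiff ℝ ∞ φ ∧ ContDiff ℝ ∞ φ.symm ∧
    (∀ x v w, omega (fderiv ℝ φ x v) (fderiv ℝ φ x w) = omega v w) ∧
    ∃ K : Set (V n), IsCompact K ∧ ∀ x ∉ K, φ x = x

theorem IsSympCt.mul {n : ℕ} {φ ψ : Equiv.Perm (V n)} (h : IsSympCt φ) (g : IsSympCt ψ) :
    IsSympCt (φ * ψ) := by
  obtain ⟨h1, h2, h3, K, hK, h4⟩ := h
  obtain ⟨g1, g2, g3, L, hL, g4⟩ := g
  refine ⟨h1.comp g1, g2.comp h2, fun x v w => ?_, K ∪ L, hK.union hL, fun x hx => ?_⟩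
  · have e : ∀ v, fderiv ℝ (φ * ψ : Equiv.Perm (V n)) x v = fderiv ℝ φ (ψ x) (fderiv ℝ ψ x v) := by
      intro v
      have : ((φ * ψ : Equiv.Perm (V n)) : V n → V n) = φ ∘ ψ := rfl
      rw [this, fderiv_comp x (h1.differentiable (by simp)).differentiableAt
        (g1.differentiable (by simp)).differentiableAt]
      rfl
    rw [e, e, h3, g3]
  · rw [mem_union, not_or] at hx
    rw [Equiv.Perm.mul_apply, g4 x hx.2, h4 x hx.1]

theorem IsSympCt.one {n : ℕ} : IsSympCt (1 : Equiv.Perm (V n)) := by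
  refine ⟨contDiff_id, contDiff_id, fun x v w => ?_, ∅, isCompact_empty, fun x _ => rfl⟩
  have : ((1 : Equiv.Perm (V n)) : V n → V n) = id := rfl
  rw [this, fderiv_id]
  rfl

theorem IsSympCt.inv {n : ℕ} {φ : Equiv.Perm (V n)} (h : IsSympCt φ) : IsSympCt φ⁻¹ := by
  obtain ⟨h1, h2, h3, K, hK, h4⟩ := h
  refine ⟨h2, h1, fun x v w => ?_, K, hK, fun x hx => ?_⟩
  · have e : ∀ v, fderiv ℝ φ (φ.symm x) (fderiv ℝ φ.symm x v) = v := by
      intro v
      have h5 : HasFDerivAt (φ ∘ φ.symm) ((fderiv ℝ φ (φ.symm x)).comp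
          (fderiv ℝ φ.symm x)) x :=
        (h1.differentiable (by simp)).differentiableAt.hasFDerivAt.comp x
          (h2.differentiable (by simp)).differentiableAt.hasFDerivAt
      have h6 : (φ ∘ φ.symm : V n → V n) = id := by ext1 y; simp
      rw [h6] at h5
      have h7 := h5.unique (hasFDerivAt_id x)
      exact congrArg (fun L : V n →L[ℝ] V n => L v) h7
    have h8 := h3 (φ.symm x) (fderiv ℝ φ.symm x v) (fderiv ℝ φ.symm x w)
    rw [e, e] at h8
    exact h8.symm
  · have : φ x = x := h4 x hx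
    exact (Equiv.symm_apply_eq φ).2 this.symm

/-- `Symp_ct(ℝ^{2n}, ω_st)`: the group of the diffeomorphisms `φ` of `ℝ^{2n}` with `φ^*ω = ω` that
equal the identity outside some compact set -/
def SympCt (n : ℕ) : Subgroup (Equiv.Perm (V n)) where
  carrier := {φ | IsSympCt φ}
  mul_mem' h g := IsSympCt.mul h g
  one_mem' := IsSympCt.one
  inv_mem' h := IsSympCt.inv h

/-- the elements of `Symp_ct(ℝ^{2n}, ω_st)` supported in `K` -/
def SympOn (n : ℕ) (K : Set (V n)) : Type := {φ : SympCt n // ∀ x ∉ K, φ.1 x = x}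

theorem continuous_jet {n : ℕ} (m : ℕ) (φ : SympCt n) :
    Continuous (iteratedFDeriv ℝ m φ.1) :=
  φ.2.1.continuous_iteratedFDeriv (by exact_mod_cast le_top)

/-- the `m`-th derivative of an element of `Symp_ct(ℝ^{2n}, ω_st)`, a continuous map -/
def jet {n : ℕ} (m : ℕ) (φ : SympCt n) : C(V n, V n [×m]→L[ℝ] V n) :=
  ⟨iteratedFDeriv ℝ m φ.1, continuous_jet m φ⟩

/-- the `C^∞` topology on the elements supported in `K`: uniform convergence, on compact sets, of
the maps and all their derivatives -/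
instance (n : ℕ) (K : Set (V n)) : TopologicalSpace (SympOn n K) :=
  ⨅ m : ℕ, TopologicalSpace.induced (fun φ => jet m φ.1) ContinuousMap.compactOpen

/-- the topology of `Symp_ct(ℝ^{2n}, ω_st)`: the direct limit of the subgroups supported in a
compact set `K`, i.e. the finest topology for which all their inclusions are continuous -/
instance (n : ℕ) : TopologicalSpace (SympCt n) :=
  ⨆ K : {K : Set (V n) // IsCompact K}, TopologicalSpace.coinduced
    (fun φ : SympOn n K.1 => φ.1) inferInstance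

end Pool.Agent.N520
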