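import Mathlib
import Pool.Agent.N520.SDefs
import Pool.Agent.N520.HAlg

/-!
# Unitary bases
-/

set_option autoImplicit false
set_option maxSynthPendingDepth 3

open Set Function Topology Filter Metric
open scoped ContDiff InnerProductSpace

namespace Pool.Agent.N520.Had

variable {W : Type} [NormedAddCommGroup W] [NormedSpace ℝ W] [FiniteDimensional ℝ W]
variable {B : W →L[ℝ] W →L[ℝ] ℝ} {J : W →L[ℝ] W}

theorem exists_unitary_aux (h : Compat B J) (n : ℕ) (hdim : Module.finrank ℝ W = 2 * n) :
    ∀ k ≤ n, ∃ a : ℕ → W, ∀ i < k, ∀ j < k,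
      B (a i) (J (a j)) = (if i = j then 1 else 0) ∧ B (a i) (a j) = 0 := by
  intro k
  induction k with
  | zero =>
    intro _
    exact ⟨fun _ => 0, fun i hi => absurd hi (Nat.not_lt_zero i)⟩
  | succ k ih =>
    intro hk
    obtain ⟨a, ha⟩ := ih (by omega)
    let L : W →ₗ[ℝ] (Fin k → ℝ) × (Fin k → ℝ) :=
      { toFun := fun v => (fun i => B v (J (a i)), fun i => B v (a i))
        map_add' := fun u v => by ext i <;> simp
        map_smul' := fun c v => by ext i <;> simp }
    have hlt : Module.finrank ℝ ((Fin k → ℝ) × (Fin k → ℝ)) < Module.finrank ℝ W := by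
      rw [Module.finrank_prod, Module.finrank_fin_fun, hdim]
      omega
    obtain ⟨v, hv, hv0⟩ := (Submodule.ne_bot_iff _).1 (LinearMap.ker_ne_bot_of_finrank_lt
      (f := L) hlt)
    have hv' : L v = 0 := hv
    have h1 : ∀ i < k, B v (J (a i)) = 0 := fun i hi =>
      congrFun (congrArg Prod.fst hv') ⟨i, hi⟩
    have h2 : ∀ i < k, B v (a i) = 0 := fun i hi =>
      congrFun (congrArg Prod.snd hv') ⟨i, hi⟩
    have hpos := h.pos v hv0
    set s : ℝ := (Real.sqrt (B v (J v)))⁻¹ with hs
    have hs2 : s * s * B v (J v) = 1 := by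
      have h3 : Real.sqrt (B v (J v)) * Real.sqrt (B v (J v)) = B v (J v) :=
        Real.mul_self_sqrt hpos.le
      have h4 : Real.sqrt (B v (J v)) ≠ 0 := (Real.sqrt_pos.2 hpos).ne'
      rw [hs]
      nth_rw 3 [← h3]
      field_simp
    refine ⟨Function.update a k (s • v), ?_⟩
    intro i hi j hj
    by_cases hik : i = k
    · by_cases hjk : j = k
      · subst hik; subst hjk
        simp only [update_self, map_smul, _root_.smul_apply, smul_eq_mul, h.alt]
        refine ⟨?_, by ring⟩
        rw [← mul_assoc, hs2]
        simp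
      · have hj' : j < k := by omega
        have hne : i ≠ j := by omega
        rw [hik, update_self, update_of_ne hjk, map_smul, _root_.smul_apply, _root_.smul_apply,
          h1 j hj', h2 j hj']
        simp only [smul_zero, and_true]
        rw [if_neg]
        exact fun h => hjk h.symm
    · have hi' : i < k := by omega
      by_cases hjk : j = k
      · have hne : i ≠ j := by omega
        rw [hjk, update_self, update_of_ne hik, map_smul, map_smul, map_smul]
        rw [h.symm (a i) v, h1 i hi', h.skew (a i) v, h2 i hi']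
        simp only [smul_zero, neg_zero, and_true]
        rw [if_neg hik]
      · rw [update_of_ne hik, update_of_ne hjk]
        exact ha i hi' j (by omega)

theorem omega_nondeg' {n : ℕ} (v : V n) (h : ∀ w, omega v w = 0) : v = 0 := by
  have h1 : ∀ i, v.1 i = 0 := fun i => by
    have := h (0, Pi.single i 1)
    simpa [omega, Pi.single_apply] using this
  have h2 : ∀ i, v.2 i = 0 := fun i => by
    have := h (Pi.single i 1, 0)
    simpa [omega, Pi.single_apply] using this
  exact Prod.ext (funext h1) (funext h2)

/-- A compatible complex structure on a `2n`-dimensional symplectic vector space is isomorphic to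
the standard one. -/
theorem exists_unitary (h : Compat B J) (n : ℕ) (hdim : Module.finrank ℝ W = 2 * n) :
    ∃ T : V n ≃L[ℝ] W, (∀ u v, B (T u) (T v) = omega u v) ∧
      ∀ u v, B (T u) (J (T v)) = ∑ i, (u.1 i * v.1 i + u.2 i * v.2 i) := by
  obtain ⟨a, ha⟩ := exists_unitary_aux h n hdim n le_rfl
  let L : V n →ₗ[ℝ] W :=
    { toFun := fun u => ∑ i : Fin n, (u.1 i • a i + u.2 i • J (a i))
      map_add' := fun u v => by
        rw [← Finset.sum_add_distrib]
        refine Finset.sum_congr rfl fun i _ => ?_
        simp only [Prod.fst_add, Prod.snd_add, Pi.add_apply, add_smul]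
        abel
      map_smul' := fun c v => by
        rw [RingHom.id_apply, Finset.smul_sum]
        refine Finset.sum_congr rfl fun i _ => ?_
        simp only [Prod.smul_fst, Prod.smul_snd, Pi.smul_apply, smul_eq_mul, mul_smul, smul_add] }
  have hL : ∀ u, L u = ∑ i : Fin n, (u.1 i • a i + u.2 i • J (a i)) := fun u => rfl
  have hBB : ∀ u v, B (L u) (L v) = omega u v := by
    intro u v
    have key : ∀ i j : Fin n, B (u.1 i • a i + u.2 i • J (a i)) (v.1 j • a j + v.2 j • J (a j)) =
        if i = j then (u.1 i * v.2 i - u.2 i * v.1 i) else 0 := by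
      intro i j
      have e1 : B (a i) (a j) = 0 := (ha i i.2 j j.2).2
      have e2 : B (a i) (J (a j)) = if i = j then 1 else 0 := by
        rw [(ha i i.2 j j.2).1]
        simp only [Fin.ext_iff]
      have e3 : B (J (a i)) (a j) = -(if i = j then 1 else 0) := by
        rw [h.skew, (ha j j.2 i i.2).1]
        simp only [Fin.ext_iff, eq_comm]
      have e4 : B (J (a i)) (J (a j)) = 0 := by rw [h.inv, e1]
      simp only [map_add, _root_.add_apply, map_smul, _root_.smul_apply, smul_eq_mul, e1, e2, e3,
        e4]
      split_ifs with hij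
      · subst hij
        ring
      · ring
    rw [hL, hL]
    simp only [map_sum, _root_.sum_apply, key]
    unfold omega
    refine Finset.sum_congr rfl fun i _ => ?_
    simp
  have hJL : ∀ v, J (L v) = L (-v.2, v.1) := by
    intro v
    rw [hL, hL, map_sum]
    refine Finset.sum_congr rfl fun i _ => ?_
    rw [map_add, map_smul, map_smul, h.sq]
    simp only [Pi.neg_apply, neg_smul, smul_neg]
    abel
  have hinj : Function.Injective L := by
    rw [← LinearMap.ker_eq_bot, LinearMap.ker_eq_bot']
    intro u hu
    refine omega_nondeg' u fun w => ?_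
    rw [← hBB, hu, map_zero, _root_.zero_apply]
  have hd : Module.finrank ℝ (V n) = Module.finrank ℝ W := by
    rw [Module.finrank_prod, Module.finrank_fin_fun, hdim]
    omega
  let T : V n ≃L[ℝ] W := (LinearEquiv.ofInjectiveOfFinrankEq L hinj hd).toContinuousLinearEquiv
  have hT : ∀ u, T u = L u := fun u => rfl
  refine ⟨T, fun u v => by rw [hT, hT, hBB], fun u v => ?_⟩
  rw [hT, hT, hJL, hBB]
  unfold omega
  refine Finset.sum_congr rfl fun i _ => ?_
  simp

end Pool.Agent.N520.Had
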