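import Mathlib
import Pool.Agent.GR.Flow
import Pool.Agent.V11199.HP.Flow

/-!
# Smooth flows of complete vector fields on finite-dimensional spaces
-/

set_option autoImplicit false
set_option maxSynthPendingDepth 3

open Set Function Topology Filter Metric
open scoped ContDiff NNReal

namespace Pool.Agent.N520.Had

variable {F : Type} [NormedAddCommGroup F] [NormedSpace ℝ F]

/-- compactly supported smooth fields have smooth flows -/
theorem exists_flow_cpt [CompleteSpace F] {X : F → F} (hX : ContDiff ℝ ∞ X)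
    (hc : HasCompactSupport X) :
    ∃ g : ℝ → F → F, ContDiff ℝ ∞ (fun q : ℝ × F => g q.1 q.2) ∧ (∀ p, g 0 p = p) ∧
      (∀ t p, HasDerivAt (fun t => g t p) (X (g t p)) t) := by
  obtain ⟨K, hK⟩ := hX.lipschitzWith_of_hasCompactSupport hc (by simp)
  obtain ⟨M, hM⟩ := hc.exists_bound_of_continuous hX.continuous
  have hM' : ∀ x, ‖X x‖ ≤ (Real.toNNReal M : NNReal) :=
    fun x => (hM x).trans (Real.le_coe_toNNReal M)
  choose g h0 h1 using fun p => Pool.Agent.GR.Flow.exists_solution hK hM' p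
  have hfl : Pool.Agent.GR.Flow.IsFlowOf X (fun t p => g p t) := ⟨h0, h1⟩
  refine ⟨fun t p => g p t, ?_, h0, fun t p => h1 p t⟩
  rw [contDiff_infty]
  intro m
  have key := Pool.Agent.GR.Flow.contDiff_flow (X := ⟨X, hX.continuous⟩) (m := m + 1)
    (by omega) (hX.of_le (by exact_mod_cast le_top)) hK hfl
  exact key.of_le (by exact_mod_cast Nat.le_succ m)

/-- local uniqueness of integral curves on an open interval -/
theorem curve_unique {X : F → F} (hX : ContDiff ℝ 1 X) {c₁ c₂ : ℝ → F} {a b : ℝ}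
    (h0 : (0 : ℝ) ∈ Ioo a b)
    (h1 : ∀ t ∈ Ioo a b, HasDerivAt c₁ (X (c₁ t)) t)
    (h2 : ∀ t ∈ Ioo a b, HasDerivAt c₂ (X (c₂ t)) t) (h : c₁ 0 = c₂ 0) :
    EqOn c₁ c₂ (Ioo a b) := by
  -- the set of agreement is closed and open in the interval
  have hloc : LocallyLipschitz X := hX.locallyLipschitz
  have hc1 : ContinuousOn c₁ (Ioo a b) := fun t ht => (h1 t ht).continuousAt.continuousWithinAt
  have hc2 : ContinuousOn c₂ (Ioo a b) := fun t ht => (h2 t ht).continuousAt.continuousWithinAt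
  have hpre : IsPreconnected (Ioo a b) := isPreconnected_Ioo
  set S : Set ℝ := {t | c₁ t = c₂ t} with hS
  have hopen : ∀ t ∈ Ioo a b, c₁ t = c₂ t → ∀ᶠ s in 𝓝 t, c₁ s = c₂ s := by
    intro t ht hts
    obtain ⟨K, U, hU, hK⟩ := hloc (c₁ t)
    have e1 : ∀ᶠ s in 𝓝 t, HasDerivAt c₁ (X (c₁ s)) s ∧ c₁ s ∈ U := by
      filter_upwards [Ioo_mem_nhds ht.1 ht.2, (h1 t ht).continuousAt hU] with s hs hs2
      exact ⟨h1 s hs, hs2⟩
    have e2 : ∀ᶠ s in 𝓝 t, HasDerivAt c₂ (X (c₂ s)) s ∧ c₂ s ∈ U := by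
      filter_upwards [Ioo_mem_nhds ht.1 ht.2, (h2 t ht).continuousAt (hts ▸ hU)] with s hs hs2
      exact ⟨h2 s hs, hs2⟩
    exact ODE_solution_unique_of_eventually (v := fun _ => X) (s := fun _ => U) (K := K)
      (Eventually.of_forall fun _ => hK) e1 e2 hts
  have hsub : Ioo a b ⊆ interior S := by
    refine hpre.subset_of_closure_inter_subset isOpen_interior ⟨0, h0, ?_⟩ ?_
    · exact mem_interior_iff_mem_nhds.2 (hopen 0 h0 h)
    · rintro t ⟨ht1, ht2⟩
      refine mem_interior_iff_mem_nhds.2 (hopen t ht2 ?_)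
      -- c₁ t = c₂ t by continuity
      have hcl : t ∈ closure (S ∩ Ioo a b) := by
        have h3 : t ∈ closure (Ioo a b ∩ interior S) := by
          exact (isOpen_Ioo (a := a) (b := b)).inter_closure (mem_inter ht2 ht1)
        have h3' : Ioo a b ∩ interior S ⊆ S ∩ Ioo a b :=
          fun x hx => ⟨interior_subset hx.2, hx.1⟩
        exact closure_mono h3' h3
      have hcc : ContinuousAt (fun s => c₁ s - c₂ s) t :=
        (h1 t ht2).continuousAt.sub (h2 t ht2).continuousAt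
      have h4 : (fun s => c₁ s - c₂ s) t ∈ closure ((fun s => c₁ s - c₂ s) '' (S ∩ Ioo a b)) :=
        mem_closure_image hcc hcl
      have h5 : ((fun s => c₁ s - c₂ s) '' (S ∩ Ioo a b)) ⊆ {0} := by
        rintro _ ⟨s, hs, rfl⟩
        exact sub_eq_zero.2 hs.1
      have h6 := closure_mono h5 h4
      rw [closure_singleton] at h6
      exact sub_eq_zero.1 h6
  intro t ht
  have h7 : t ∈ S := interior_subset (hsub ht)
  exact h7

/-- uniqueness of global integral curves -/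
theorem curve_unique_univ {X : F → F} (hX : ContDiff ℝ 1 X) {c₁ c₂ : ℝ → F}
    (h1 : ∀ t, HasDerivAt c₁ (X (c₁ t)) t)
    (h2 : ∀ t, HasDerivAt c₂ (X (c₂ t)) t) (h : c₁ 0 = c₂ 0) : c₁ = c₂ := by
  funext t
  have ht : t ∈ Ioo (-(|t| + 1)) (|t| + 1) :=
    ⟨by linarith [neg_abs_le t], by linarith [le_abs_self t]⟩
  exact curve_unique hX ⟨by linarith [abs_nonneg t], by linarith [abs_nonneg t]⟩
    (fun s _ => h1 s) (fun s _ => h2 s) h ht

variable [FiniteDimensional ℝ F]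

/-- a smooth cutoff function -/
theorem exists_cutoff (R : ℝ) : ∃ χ : F → ℝ, ContDiff ℝ ∞ χ ∧ HasCompactSupport χ ∧
    (∀ y, χ y ∈ Icc (0 : ℝ) 1) ∧ ∀ y, ‖y‖ ≤ R → χ y = 1 := by
  have hR : 0 < |R| + 1 := by positivity
  let f : ContDiffBump (0 : F) := ⟨|R| + 1, |R| + 2, hR, by linarith⟩
  refine ⟨f, f.contDiff, f.hasCompactSupport, fun y => ⟨f.nonneg, f.le_one⟩, fun y hy => ?_⟩
  refine f.one_of_mem_closedBall ?_
  rw [mem_closedBall_zero_iff]
  exact hy.trans ((le_abs_self R).trans (by change |R| ≤ |R| + 1; linarith))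

theorem smooth_of_complete {X : F → F} (hX : ContDiff ℝ ∞ X) {g : ℝ → F → F}
    (h0 : ∀ x, g 0 x = x) (hd : ∀ t x, HasDerivAt (fun t => g t x) (X (g t x)) t) :
    ContDiff ℝ ∞ (fun p : ℝ × F => g p.1 p.2) := by
  have hprop : ProperSpace F := FiniteDimensional.proper_real F
  have hcs : CompleteSpace F := FiniteDimensional.complete ℝ F
  have hX1 : ContDiff ℝ 1 X := hX.of_le (by exact_mod_cast le_top)
  rw [contDiff_iff_contDiffAt]
  rintro ⟨t0, x0⟩
  set T : ℝ := |t0| + 1 with hT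
  have hTpos : 0 < T := by positivity
  have hcomp : IsCompact ((fun s => g s x0) '' Icc (-T) T) :=
    isCompact_Icc.image_of_continuousOn fun s _ => (hd s x0).continuousAt.continuousWithinAt
  obtain ⟨R, hR⟩ := hcomp.isBounded.exists_norm_le
  obtain ⟨χ, hχ, hχc, hχ01, hχ1⟩ := exists_cutoff (F := F) (R + 1)
  set X' : F → F := fun y => χ y • X y with hX'
  have hX's : ContDiff ℝ ∞ X' := hχ.smul hX
  have hX'c : HasCompactSupport X' := hχc.smul_right
  obtain ⟨g', hg's, hg'0, hg'd⟩ := exists_flow_cpt hX's hX'c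
  have hX's1 : ContDiff ℝ 1 X' := hX's.of_le (by exact_mod_cast le_top)
  have hXX' : ∀ y, ‖y‖ ≤ R + 1 → X' y = X y := fun y hy => by rw [hX']; simp [hχ1 y hy]
  -- agreement on the base orbit
  have hag : EqOn (fun s => g s x0) (fun s => g' s x0) (Ioo (-T) T) := by
    refine curve_unique hX's1 ⟨by linarith, hTpos⟩ ?_ (fun s _ => hg'd s x0) (by rw [h0, hg'0])
    intro s hs
    have : ‖g s x0‖ ≤ R := hR _ ⟨s, Ioo_subset_Icc_self hs, rfl⟩
    rw [hXX' _ (by linarith)]
    exact hd s x0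
  -- choose a smaller time
  set T' : ℝ := |t0| + 1 / 2 with hT'
  have hT'T : T' < T := by rw [hT', hT]; linarith
  have hT'pos : 0 < T' := by positivity
  have hsubT : Icc (-T') T' ⊆ Ioo (-T) T := fun s hs => ⟨by linarith [hs.1], by linarith [hs.2]⟩
  have hopen : IsOpen {p : ℝ × F | ‖g' p.1 p.2‖ < R + 1} :=
    isOpen_lt hg's.continuous.norm continuous_const
  have htube : Icc (-T') T' ×ˢ {x0} ⊆ {p : ℝ × F | ‖g' p.1 p.2‖ < R + 1} := by
    rintro ⟨s, y⟩ ⟨hs, hy⟩
    rw [mem_singleton_iff] at hy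
    subst hy
    have e : g s y = g' s y := hag (hsubT hs)
    have : ‖g s y‖ ≤ R := hR _ ⟨s, Ioo_subset_Icc_self (hsubT hs), rfl⟩
    change ‖g' s y‖ < R + 1
    rw [← e]; linarith
  obtain ⟨u, v, hu, hv, hIu, hxv, huv⟩ := generalized_tube_lemma isCompact_Icc
    isCompact_singleton hopen htube
  have hxv' : x0 ∈ v := hxv rfl
  have hev : (fun p : ℝ × F => g p.1 p.2) =ᶠ[𝓝 (t0, x0)] fun p : ℝ × F => g' p.1 p.2 := by
    have ht0 : t0 ∈ Ioo (-T') T' :=
      ⟨by rw [hT']; linarith [neg_abs_le t0], by rw [hT']; linarith [le_abs_self t0]⟩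
    filter_upwards [prod_mem_nhds (Ioo_mem_nhds ht0.1 ht0.2) (hv.mem_nhds hxv')] with p hp
    obtain ⟨hp1, hp2⟩ := hp
    refine curve_unique (c₁ := fun s => g s p.2) (c₂ := fun s => g' s p.2) hX1
      ⟨by linarith, hT'pos⟩ (fun s _ => hd s p.2) ?_ (by rw [h0, hg'0]) hp1
    intro s hs
    have h3 : ‖g' s p.2‖ < R + 1 := huv (mk_mem_prod (hIu (Ioo_subset_Icc_self hs)) hp2)
    have h4 := hg'd s p.2
    rw [hXX' _ h3.le] at h4
    exact h4
  exact hg's.contDiffAt.congr_of_eventuallyEq hev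

/-- existence of a global smooth flow from a-priori bounds on the integral curves of all
truncations of the field -/
theorem exists_flow {X : F → F} (hX : ContDiff ℝ ∞ X)
    (hb : ∀ (x : F) (T : ℝ), ∃ R : ℝ, ∀ χ : F → ℝ, ContDiff ℝ ∞ χ → HasCompactSupport χ →
      (∀ y, χ y ∈ Icc (0 : ℝ) 1) → ∀ c : ℝ → F, c 0 = x →
      (∀ t, HasDerivAt c (χ (c t) • X (c t)) t) → ∀ t ∈ Icc (-T) T, ‖c t‖ ≤ R) :
    ∃ g : ℝ → F → F, ContDiff ℝ ∞ (fun p : ℝ × F => g p.1 p.2) ∧ (∀ x, g 0 x = x) ∧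
      ∀ t x, HasDerivAt (fun t => g t x) (X (g t x)) t := by
  have hprop : ProperSpace F := FiniteDimensional.proper_real F
  have hcs : CompleteSpace F := FiniteDimensional.complete ℝ F
  have hX1 : ContDiff ℝ 1 X := hX.of_le (by exact_mod_cast le_top)
  have step : ∀ (x : F) (n : ℕ), ∃ c : ℝ → F, c 0 = x ∧
      ∀ t ∈ Ioo (-((n : ℝ) + 1)) ((n : ℝ) + 1), HasDerivAt c (X (c t)) t := by
    intro x n
    obtain ⟨R, hR⟩ := hb x ((n : ℝ) + 1)
    obtain ⟨χ, hχ, hχc, hχ01, hχ1⟩ := exists_cutoff (F := F) R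
    obtain ⟨g', hg's, hg'0, hg'd⟩ := exists_flow_cpt (hχ.smul hX) hχc.smul_right
    refine ⟨fun t => g' t x, hg'0 x, fun t ht => ?_⟩
    have h3 := hR χ hχ hχc hχ01 (fun t => g' t x) (hg'0 x) (fun t => hg'd t x) t
      (Ioo_subset_Icc_self ht)
    have h4 := hg'd t x
    simp only [Pi.smul_apply', hχ1 _ h3, one_smul] at h4
    exact h4
  choose c hc0 hcd using step
  have hun : ∀ x, ∀ n k : ℕ, n ≤ k → EqOn (c x n) (c x k) (Ioo (-((n : ℝ) + 1)) ((n : ℝ) + 1)) := by
    intro x n k hnk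
    have hnk' : (n : ℝ) ≤ k := by exact_mod_cast hnk
    have hn : (0 : ℝ) ≤ n := n.cast_nonneg
    exact curve_unique hX1 ⟨by linarith, by linarith⟩ (hcd x n)
      (fun t ht => hcd x k t ⟨by linarith [ht.1], by linarith [ht.2]⟩) (by rw [hc0, hc0])
  let g : ℝ → F → F := fun t x => c x ⌈|t|⌉₊ t
  have hg : ∀ x (n : ℕ) (t : ℝ), t ∈ Ioo (-((n : ℝ) + 1)) ((n : ℝ) + 1) → g t x = c x n t := by
    intro x n t ht
    have hin : t ∈ Ioo (-(((⌈|t|⌉₊ : ℕ) : ℝ) + 1)) (((⌈|t|⌉₊ : ℕ) : ℝ) + 1) := by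
      have := Nat.le_ceil |t|
      exact ⟨by linarith [neg_abs_le t], by linarith [le_abs_self t]⟩
    rcases le_total n ⌈|t|⌉₊ with h | h
    · exact (hun x _ _ h ht).symm
    · exact hun x _ _ h hin
  have hgd : ∀ t x, HasDerivAt (fun t => g t x) (X (g t x)) t := by
    intro t x
    have hin : t ∈ Ioo (-(((⌈|t|⌉₊ : ℕ) : ℝ) + 1)) (((⌈|t|⌉₊ : ℕ) : ℝ) + 1) := by
      have := Nat.le_ceil |t|
      exact ⟨by linarith [neg_abs_le t], by linarith [le_abs_self t]⟩
    have h1 := hcd x _ t hin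
    refine h1.congr_of_eventuallyEq ?_
    filter_upwards [Ioo_mem_nhds hin.1 hin.2] with s hs
    exact hg x _ s hs
  have hg0 : ∀ x, g 0 x = x := by
    intro x
    rw [hg x 0 0 (by simp)]
    exact hc0 x 0
  exact ⟨g, smooth_of_complete hX hg0 hgd, hg0, hgd⟩

omit [FiniteDimensional ℝ F] in
theorem flow_add {X : F → F} (hX : ContDiff ℝ 1 X) {g : ℝ → F → F}
    (h0 : ∀ x, g 0 x = x) (hd : ∀ t x, HasDerivAt (fun t => g t x) (X (g t x)) t) (s t : ℝ)
    (x : F) : g (s + t) x = g s (g t x) := by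
  have h := curve_unique_univ hX (c₁ := fun s => g (s + t) x) (c₂ := fun s => g s (g t x))
    (fun s => by
      have := (hd (s + t) x).scomp s ((hasDerivAt_id s).add_const t)
      simp only [one_smul] at this
      exact this) (fun s => hd s (g t x)) (by simp [h0])
  exact congrFun h s

omit [FiniteDimensional ℝ F] in
/-- linear growth gives a-priori bounds -/
theorem linear_bound {c c' : ℝ → F} {C T : ℝ} (hC : 0 < C)
    (hc : ∀ t, HasDerivAt c (c' t) t) (hb : ∀ t ∈ Icc (-T) T, ‖c' t‖ ≤ C * ‖c t‖ + C) :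
    ∀ t ∈ Icc (-T) T, ‖c t‖ ≤ gronwallBound ‖c 0‖ C C T := by
  intro t ht
  have hT : 0 ≤ T := by linarith [ht.1, ht.2]
  have hmono := gronwallBound_mono (δ := ‖c 0‖) (K := C) (ε := C) (norm_nonneg _) hC.le hC.le
  rcases le_total 0 t with h0 | h0
  · have h1 := norm_le_gronwallBound_of_norm_deriv_right_le (f := c) (f' := c') (δ := ‖c 0‖)
      (K := C) (ε := C) (a := 0) (b := T) (fun s _ => (hc s).continuousAt.continuousWithinAt)
      (fun s _ => (hc s).hasDerivWithinAt) le_rfl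
      (fun s hs => hb s ⟨by linarith [hs.1], hs.2.le⟩) t ⟨h0, ht.2⟩
    rw [sub_zero] at h1
    exact h1.trans (hmono ht.2)
  · have h1 := norm_le_gronwallBound_of_norm_deriv_right_le (f := fun s => c (-s))
      (f' := fun s => -c' (-s)) (δ := ‖c 0‖)
      (K := C) (ε := C) (a := 0) (b := T)
      (fun s _ => ((hc (-s)).scomp s (hasDerivAt_neg s)).continuousAt.continuousWithinAt)
      (fun s _ => by
        have := (hc (-s)).scomp s (hasDerivAt_neg s)
        simp only [neg_smul, one_smul] at this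
        exact this.hasDerivWithinAt) (by simp)
      (fun s hs => by
        rw [norm_neg]
        exact hb (-s) ⟨by linarith [hs.2], by linarith [hs.1]⟩) (-t) ⟨by linarith, by linarith [ht.1]⟩
    rw [sub_zero, neg_neg] at h1
    exact h1.trans (hmono (by linarith [ht.1]))

/-- a smooth field of linear growth has a smooth flow -/
theorem exists_flow_linear {X : F → F} (hX : ContDiff ℝ ∞ X) {C : ℝ} (hC : 0 < C)
    (hb : ∀ x, ‖X x‖ ≤ C * ‖x‖ + C) :
    ∃ g : ℝ → F → F, ContDiff ℝ ∞ (fun p : ℝ × F => g p.1 p.2) ∧ (∀ x, g 0 x = x) ∧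
      ∀ t x, HasDerivAt (fun t => g t x) (X (g t x)) t := by
  refine exists_flow hX fun x T => ⟨gronwallBound ‖x‖ C C T, ?_⟩
  intro χ _ _ hχ c hc0 hc t ht
  have h := linear_bound (T := T) hC hc (fun s _ => by
    rw [norm_smul, Real.norm_of_nonneg (hχ _).1]
    calc χ (c s) * ‖X (c s)‖ ≤ 1 * ‖X (c s)‖ :=
          mul_le_mul_of_nonneg_right (hχ _).2 (norm_nonneg _)
      _ ≤ C * ‖c s‖ + C := by rw [one_mul]; exact hb _) t ht
  rw [hc0] at h
  exact h

/-- a smooth time-dependent field of linear growth generates a smooth isotopy -/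
theorem exists_isotopy_linear {X : ℝ × F → F} (hX : ContDiff ℝ ∞ X)
    (hb : ∀ T : ℝ, ∃ C : ℝ, 0 < C ∧ ∀ t ∈ Icc (-T) T, ∀ x, ‖X (t, x)‖ ≤ C * ‖x‖ + C) :
    ∃ G H : ℝ → F → F, ContDiff ℝ ∞ (fun p : ℝ × F => G p.1 p.2) ∧
      ContDiff ℝ ∞ (fun p : ℝ × F => H p.1 p.2) ∧ (∀ x, G 0 x = x) ∧
      (∀ t x, HasDerivAt (fun t => G t x) (X (t, G t x)) t) ∧
      (∀ t x, H t (G t x) = x) ∧ (∀ t x, G t (H t x) = x) := by
  let Y : ℝ × F → ℝ × F := fun p => (1, X p)
  have hY : ContDiff ℝ ∞ Y := contDiff_const.prodMk hX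
  have hY1 : ContDiff ℝ 1 Y := hY.of_le (by exact_mod_cast le_top)
  obtain ⟨g, hgs, hg0, hgd⟩ := exists_flow hY (by
    rintro ⟨τ, x⟩ T
    obtain ⟨C, hC, hCb⟩ := hb (|τ| + |T|)
    refine ⟨max (|τ| + |T|) (gronwallBound ‖x‖ C C T), ?_⟩
    intro χ _ _ hχ c hc0 hc t ht
    have hT : 0 ≤ T := by linarith [ht.1, ht.2]
    have h1 : ∀ t, HasDerivAt (fun t => (c t).1) (χ (c t)) t := by
      intro t
      have h : HasDerivAt (fun t => (c t).1) ((χ (c t) • Y (c t)).1) t := (hc t).fst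
      exact h.congr_deriv (by simp [Y])
    have h2 : ∀ t, HasDerivAt (fun t => (c t).2) (χ (c t) • X (c t)) t := by
      intro t
      have h : HasDerivAt (fun t => (c t).2) ((χ (c t) • Y (c t)).2) t := (hc t).snd
      exact h.congr_deriv (by simp [Y])
    have h3 : ∀ t ∈ Icc (-T) T, |(c t).1 - τ| ≤ |t| := by
      intro t _
      have h4 := Convex.norm_image_sub_le_of_norm_hasDerivWithin_le (f := fun t => (c t).1)
        (f' := fun t => χ (c t)) (C := 1) (s := univ) (x := 0) (y := t)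
        (fun s _ => (h1 s).hasDerivWithinAt)
        (fun s _ => by
          rw [Real.norm_of_nonneg (hχ _).1]; exact (hχ _).2) convex_univ trivial trivial
      simp only [hc0, sub_zero, one_mul, Real.norm_eq_abs] at h4
      exact h4
    have h5 : ∀ t ∈ Icc (-T) T, (c t).1 ∈ Icc (-(|τ| + |T|)) (|τ| + |T|) := by
      intro t ht
      have h6 := h3 t ht
      have h7 : |t| ≤ |T| := by rw [abs_of_nonneg hT]; exact abs_le.2 ht
      have h8 := abs_le.1 (h6.trans h7)
      exact ⟨by linarith [neg_abs_le τ, h8.1], by linarith [le_abs_self τ, h8.2]⟩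
    have h6 := linear_bound (T := T) hC h2 (fun s hs => by
      rw [norm_smul, Real.norm_of_nonneg (hχ _).1]
      calc χ (c s) * ‖X (c s)‖ ≤ 1 * ‖X (c s)‖ :=
            mul_le_mul_of_nonneg_right (hχ _).2 (norm_nonneg _)
        _ ≤ C * ‖(c s).2‖ + C := by rw [one_mul]; exact hCb _ (h5 s hs) _) t ht
    rw [hc0] at h6
    rw [Prod.norm_def]
    refine max_le_max ?_ h6
    rw [Real.norm_eq_abs, abs_le]
    exact h5 t ht)
  have hadd : ∀ s t p, g (s + t) p = g s (g t p) := fun s t p => flow_add hY1 hg0 hgd s t p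
  have hfst : ∀ p t, (g t p).1 = p.1 + t := by
    intro p t
    have hd : ∀ t, HasDerivAt (fun t => (g t p).1 - t) 0 t := by
      intro t
      have h2 : HasDerivAt (fun t => (g t p).1) (1 : ℝ) t := (hgd t p).fst
      have := h2.sub (hasDerivAt_id t)
      rw [sub_self] at this
      exact this
    have hconst := is_const_of_deriv_eq_zero (f := fun t => (g t p).1 - t)
      (fun t => (hd t).differentiableAt) (fun t => (hd t).deriv) t 0
    simp only [hg0] at hconst
    linarith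
  refine ⟨fun t x => (g t (0, x)).2, fun t y => (g (-t) (t, y)).2, ?_, ?_, ?_, ?_, ?_, ?_⟩
  · have h2 : ContDiff ℝ ∞ (fun p : ℝ × F => (p.1, ((0 : ℝ), p.2))) :=
      contDiff_fst.prodMk (contDiff_const.prodMk contDiff_snd)
    exact contDiff_snd.comp (hgs.comp h2)
  · have h2 : ContDiff ℝ ∞ (fun p : ℝ × F => (-p.1, (p.1, p.2))) :=
      contDiff_fst.neg.prodMk (contDiff_fst.prodMk contDiff_snd)
    exact contDiff_snd.comp (hgs.comp h2)
  · intro x
    simp only [hg0]
  · intro t x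
    have h3 : g t (0, x) = (t, (g t (0, x)).2) := Prod.ext (by rw [hfst]; simp) rfl
    have h2 : HasDerivAt (fun t => (g t (0, x)).2) (X (g t (0, x))) t := (hgd t (0, x)).snd
    rw [h3] at h2
    exact h2
  · intro t x
    have h3 : g t (0, x) = (t, (g t (0, x)).2) := Prod.ext (by rw [hfst]; simp) rfl
    change (g (-t) (t, (g t (0, x)).2)).2 = x
    rw [← h3, ← hadd]
    simp [hg0]
  · intro t y
    have h3 : g (-t) (t, y) = (0, (g (-t) (t, y)).2) := Prod.ext (by rw [hfst]; simp) rfl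
    change (g t (0, (g (-t) (t, y)).2)).2 = y
    rw [← h3, ← hadd]
    simp [hg0]

end Pool.Agent.N520.Had
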