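import Mathlib
import Pool.Agent.V11199.HP.Flow
import Pool.Agent.W585.Param

/-!
# Two-forms on a finite-dimensional space
-/

set_option autoImplicit false
set_option maxSynthPendingDepth 3

open Set Function Topology Filter Metric
open scoped ContDiff

namespace Pool.Agent.N520.Had

section

variable {E : Type} [NormedAddCommGroup E] [NormedSpace ℝ E]

/-- the exterior derivative of the two-form `σ` vanishes -/
def ClosedForm (σ : E → E →L[ℝ] E →L[ℝ] ℝ) : Prop :=
  ∀ x u v w, fderiv ℝ σ x u v w + fderiv ℝ σ x v w u + fderiv ℝ σ x w u v = 0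

/-- the exterior derivative of a one-form -/
noncomputable def dOne (α : E → E →L[ℝ] ℝ) (x : E) : E →L[ℝ] E →L[ℝ] ℝ :=
  fderiv ℝ α x - (fderiv ℝ α x).flip

@[simp] theorem dOne_apply (α : E → E →L[ℝ] ℝ) (x u v : E) :
    dOne α x u v = fderiv ℝ α x u v - fderiv ℝ α x v u := rfl

theorem dOne_self (α : E → E →L[ℝ] ℝ) (x v : E) : dOne α x v v = 0 := by simp

theorem fderiv_app {F G : Type} [NormedAddCommGroup F] [NormedSpace ℝ F]
    [NormedAddCommGroup G] [NormedSpace ℝ G]
    {α : E → F →L[ℝ] G} {x : E} (h : DifferentiableAt ℝ α x) (a : E) (b : F) :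
    fderiv ℝ (fun y => α y b) x a = fderiv ℝ α x a b := by
  have h1 := (h.hasFDerivAt.clm_apply (hasFDerivAt_const b x)).fderiv
  rw [h1]
  simp

theorem fderiv_app2 {F G H : Type} [NormedAddCommGroup F] [NormedSpace ℝ F]
    [NormedAddCommGroup G] [NormedSpace ℝ G] [NormedAddCommGroup H] [NormedSpace ℝ H]
    {α : E → F →L[ℝ] G →L[ℝ] H} {x : E} (h : DifferentiableAt ℝ α x) (a : E) (b : F) (c : G) :
    fderiv ℝ (fun y => α y b c) x a = fderiv ℝ α x a b c := by
  have h1 : DifferentiableAt ℝ (fun y => α y b) x :=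
    (h.hasFDerivAt.clm_apply (hasFDerivAt_const b x)).differentiableAt
  rw [fderiv_app h1, fderiv_app h]

theorem symm2 {F : Type} [NormedAddCommGroup F] [NormedSpace ℝ F] {f : E → F}
    (hf : ContDiff ℝ ∞ f) (x a b : E) :
    fderiv ℝ (fderiv ℝ f) x a b = fderiv ℝ (fderiv ℝ f) x b a := by
  have hs : IsSymmSndFDerivAt ℝ f x :=
    hf.contDiffAt.isSymmSndFDerivAt (by
      rw [minSmoothness_of_isRCLikeNormedField]
      exact WithTop.coe_le_coe.2 (le_top : (2 : ℕ∞) ≤ ⊤))
  exact hs.eq a b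

theorem alt_skew {B : E →L[ℝ] E →L[ℝ] ℝ} (h : ∀ v, B v v = 0) (u v : E) : B u v = -B v u := by
  have := h (u + v)
  simp only [map_add, _root_.add_apply, h, zero_add, add_zero] at this
  linarith

theorem fderiv_alt {σ : E → E →L[ℝ] E →L[ℝ] ℝ} (hσ : Differentiable ℝ σ)
    (h : ∀ x v, σ x v v = 0) (x u v : E) : fderiv ℝ σ x u v v = 0 := by
  rw [← fderiv_app2 (hσ x)]
  simp [h]

variable [FiniteDimensional ℝ E]

theorem contDiff_dOne {α : E → E →L[ℝ] ℝ} (hα : ContDiff ℝ ∞ α) : ContDiff ℝ ∞ (dOne α) := by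
  have h1 : ContDiff ℝ ∞ (fderiv ℝ α) := hα.fderiv_right (m := ∞) (by simp)
  rw [contDiff_clm_apply_iff]
  intro u
  rw [contDiff_clm_apply_iff]
  intro v
  simp only [dOne_apply]
  exact ((h1.clm_apply contDiff_const).clm_apply contDiff_const).sub
    ((h1.clm_apply contDiff_const).clm_apply contDiff_const)

/-- exact forms are closed -/
theorem closed_dOne {α : E → E →L[ℝ] ℝ} (hα : ContDiff ℝ ∞ α) : ClosedForm (dOne α) := by
  intro x u v w
  have h1 : ContDiff ℝ ∞ (fderiv ℝ α) := hα.fderiv_right (m := ∞) (by simp)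
  have hd : Differentiable ℝ (dOne α) := (contDiff_dOne hα).differentiable (by simp)
  have h4 : ∀ a b c, fderiv ℝ (dOne α) x a b c =
      fderiv ℝ (fderiv ℝ α) x a b c - fderiv ℝ (fderiv ℝ α) x a c b := by
    intro a b c
    have hx : DifferentiableAt ℝ (fderiv ℝ α) x := h1.differentiable (by simp) x
    have hb : ∀ b c, DifferentiableAt ℝ (fun y => fderiv ℝ α y b c) x := fun b c =>
      ((h1.clm_apply contDiff_const).clm_apply contDiff_const).differentiable (by simp) x
    rw [← fderiv_app2 (hd x), ← fderiv_app2 hx, ← fderiv_app2 hx]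
    simp only [dOne_apply]
    rw [fderiv_fun_sub (hb b c) (hb c b)]
    rfl
  rw [h4, h4, h4, symm2 hα x u v, symm2 hα x v w, symm2 hα x w u]
  ring

omit [FiniteDimensional ℝ E] in
/-- the exterior derivative of `ι_X σ` -/
theorem dOne_contract {σ : E → E →L[ℝ] E →L[ℝ] ℝ} (hσ : Differentiable ℝ σ)
    (h : ∀ x v, σ x v v = 0) (hcl : ClosedForm σ) {X : E → E} (hX : Differentiable ℝ X)
    (x u v : E) :
    dOne (fun y => σ y (X y)) x u v =
      fderiv ℝ σ x (X x) u v + σ x (fderiv ℝ X x u) v + σ x u (fderiv ℝ X x v) := by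
  have h1 : HasFDerivAt (fun y => σ y (X y)) ((σ x).comp (fderiv ℝ X x) +
      (fderiv ℝ σ x).flip (X x)) x := (hσ x).hasFDerivAt.clm_apply (hX x).hasFDerivAt
  have h2 := hcl x (X x) u v
  have h3 := alt_skew (fderiv_alt hσ h x u) v (X x)
  have h4 := alt_skew (h x) (fderiv ℝ X x v) u
  rw [dOne_apply, h1.fderiv]
  simp only [_root_.add_apply, ContinuousLinearMap.comp_apply,
    ContinuousLinearMap.flip_apply]
  linarith

omit [FiniteDimensional ℝ E] in
/-- the exterior derivative of `ι_x σ` -/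
theorem dOne_euler {σ : E → E →L[ℝ] E →L[ℝ] ℝ} (hσ : Differentiable ℝ σ)
    (h : ∀ x v, σ x v v = 0) (hcl : ClosedForm σ) (x u v : E) :
    dOne (fun y => σ y y) x u v = fderiv ℝ σ x x u v + 2 * σ x u v := by
  have h1 := dOne_contract hσ h hcl (X := fun y => y) differentiable_id x u v
  rw [h1]
  have : fderiv ℝ (fun y : E => y) x = ContinuousLinearMap.id ℝ E := fderiv_fun_id
  rw [this]
  simp only [ContinuousLinearMap.id_apply]
  ring

end

section pull

variable {E E' : Type} [NormedAddCommGroup E] [NormedSpace ℝ E]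
  [NormedAddCommGroup E'] [NormedSpace ℝ E'] [FiniteDimensional ℝ E']

/-- the pullback of a bilinear form field -/
noncomputable def pull (Φ : E' → E) (σ : E → E →L[ℝ] E →L[ℝ] ℝ) (x : E') :
    E' →L[ℝ] E' →L[ℝ] ℝ := (σ (Φ x)).bilinearComp (fderiv ℝ Φ x) (fderiv ℝ Φ x)

omit [FiniteDimensional ℝ E'] in
@[simp] theorem pull_apply (Φ : E' → E) (σ : E → E →L[ℝ] E →L[ℝ] ℝ) (x u v : E') :
    pull Φ σ x u v = σ (Φ x) (fderiv ℝ Φ x u) (fderiv ℝ Φ x v) := rfl

theorem contDiff_pull {σ : E → E →L[ℝ] E →L[ℝ] ℝ} (hσ : ContDiff ℝ ∞ σ)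
    {Φ : E' → E} (hΦ : ContDiff ℝ ∞ Φ) : ContDiff ℝ ∞ (pull Φ σ) := by
  have hD : ContDiff ℝ ∞ (fderiv ℝ Φ) := hΦ.fderiv_right (m := ∞) (by simp)
  rw [contDiff_clm_apply_iff]
  intro u
  rw [contDiff_clm_apply_iff]
  intro v
  simp only [pull_apply]
  exact ((hσ.comp hΦ).clm_apply (hD.clm_apply contDiff_const)).clm_apply
    (hD.clm_apply contDiff_const)

/-- the pullback of a closed form is closed -/
theorem closed_pull {σ : E → E →L[ℝ] E →L[ℝ] ℝ} (hσ : ContDiff ℝ ∞ σ)
    (h : ∀ x v, σ x v v = 0) (hcl : ClosedForm σ) {Φ : E' → E} (hΦ : ContDiff ℝ ∞ Φ) :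
    ClosedForm (pull Φ σ) := by
  intro x u v w
  have hD : ContDiff ℝ ∞ (fderiv ℝ Φ) := hΦ.fderiv_right (m := ∞) (by simp)
  have hDd : HasFDerivAt (fderiv ℝ Φ) (fderiv ℝ (fderiv ℝ Φ) x) x :=
    (hD.differentiable (by simp) x).hasFDerivAt
  have hΦd : HasFDerivAt Φ (fderiv ℝ Φ x) x := (hΦ.differentiable (by simp) x).hasFDerivAt
  have hσd : HasFDerivAt (fun y => σ (Φ y)) ((fderiv ℝ σ (Φ x)).comp (fderiv ℝ Φ x)) x :=
    ((hσ.differentiable (by simp)) (Φ x)).hasFDerivAt.comp x hΦd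
  have hdiff : DifferentiableAt ℝ (pull Φ σ) x :=
    (contDiff_pull hσ hΦ).differentiable (by simp) x
  have key : ∀ a b c, fderiv ℝ (pull Φ σ) x a b c =
      fderiv ℝ σ (Φ x) (fderiv ℝ Φ x a) (fderiv ℝ Φ x b) (fderiv ℝ Φ x c) +
        σ (Φ x) (fderiv ℝ (fderiv ℝ Φ) x a b) (fderiv ℝ Φ x c) +
        σ (Φ x) (fderiv ℝ Φ x b) (fderiv ℝ (fderiv ℝ Φ) x a c) := by
    intro a b c
    rw [← fderiv_app2 hdiff]
    simp only [pull_apply]
    have hb : ∀ b, HasFDerivAt (fun y => fderiv ℝ Φ y b)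
        ((fderiv ℝ (fderiv ℝ Φ) x).flip b) x := by
      intro b
      have := hDd.clm_apply (hasFDerivAt_const b x)
      simpa using this
    have h1 := ((hσd.clm_apply (hb b)).clm_apply (hb c)).fderiv
    rw [h1]
    simp only [_root_.add_apply, ContinuousLinearMap.comp_apply,
      ContinuousLinearMap.flip_apply]
    ring
  have h5 := hcl (Φ x) (fderiv ℝ Φ x u) (fderiv ℝ Φ x v) (fderiv ℝ Φ x w)
  rw [key, key, key, symm2 hΦ x v u, symm2 hΦ x w v, symm2 hΦ x w u]
  have h6 := alt_skew (h (Φ x)) (fderiv ℝ Φ x w) (fderiv ℝ (fderiv ℝ Φ) x u v)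
  have h7 := alt_skew (h (Φ x)) (fderiv ℝ Φ x u) (fderiv ℝ (fderiv ℝ Φ) x v w)
  have h8 := alt_skew (h (Φ x)) (fderiv ℝ Φ x v) (fderiv ℝ (fderiv ℝ Φ) x u w)
  linarith

end pull

section flow

variable {E : Type} [NormedAddCommGroup E] [NormedSpace ℝ E] [FiniteDimensional ℝ E]

/-- If `∂_t σ_t + d(ι_{X_t} σ_t) = 0` for closed two-forms `σ_t`, the isotopy generated by `X_t`
preserves the family. -/
theorem pull_const {σ : ℝ × E → E →L[ℝ] E →L[ℝ] ℝ} (hσ : ContDiff ℝ ∞ σ)
    (halt : ∀ p v, σ p v v = 0) (hcl : ∀ t, ClosedForm (fun y => σ (t, y)))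
    {X : ℝ × E → E} (hX : ContDiff ℝ ∞ X) {F : ℝ → E → E}
    (hF : ContDiff ℝ ∞ (fun p : ℝ × E => F p.1 p.2))
    (hd : ∀ t x, HasDerivAt (fun t => F t x) (X (t, F t x)) t)
    (heq : ∀ t y a b, deriv (fun s : ℝ => σ (s, y) a b) t +
      dOne (fun z => σ (t, z) (X (t, z))) y a b = 0) (t : ℝ) (x u v : E) :
    σ (t, F t x) (fderiv ℝ (F t) x u) (fderiv ℝ (F t) x v) =
      σ (0, F 0 x) (fderiv ℝ (F 0) x u) (fderiv ℝ (F 0) x v) := by
  have hcs : CompleteSpace E := FiniteDimensional.complete ℝ E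
  have key : ∀ t, HasDerivAt
      (fun t => σ (t, F t x) (fderiv ℝ (F t) x u) (fderiv ℝ (F t) x v)) 0 t := by
    intro t
    have hv := fun w => Pool.Agent.V11199.HP.hasDerivAt_fderiv hX hF hd t x w
    have hp : HasDerivAt (fun t => (t, F t x)) ((1 : ℝ), X (t, F t x)) t :=
      (hasDerivAt_id t).prodMk (hd t x)
    have hσd : HasFDerivAt σ (fderiv ℝ σ (t, F t x)) (t, F t x) :=
      (hσ.differentiable (by simp) _).hasFDerivAt
    have hs : HasDerivAt (fun t => σ (t, F t x)) (fderiv ℝ σ (t, F t x) (1, X (t, F t x))) t :=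
      HasFDerivAt.comp_hasDerivAt (l := σ) (f := fun t => (t, F t x)) t hσd hp
    have h1 := (hs.clm_apply (hv u)).clm_apply (hv v)
    refine h1.congr_deriv ?_
    set y := F t x with hy
    set a := fderiv ℝ (F t) x u with ha
    set b := fderiv ℝ (F t) x v with hb
    have hXt : Differentiable ℝ (fun z => X (t, z)) :=
      (hX.comp (contDiff_const.prodMk contDiff_id)).differentiable (by simp)
    have hσt : Differentiable ℝ (fun z => σ (t, z)) :=
      (hσ.comp (contDiff_const.prodMk contDiff_id)).differentiable (by simp)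
    have h2 := heq t y a b
    rw [dOne_contract hσt (fun z v => halt (t, z) v) (hcl t) hXt] at h2
    have h3 : deriv (fun s : ℝ => σ (s, y) a b) t = fderiv ℝ σ (t, y) (1, 0) a b := by
      have h4 : HasDerivAt (fun s : ℝ => (s, y)) ((1 : ℝ), (0 : E)) t :=
        (hasDerivAt_id t).prodMk (hasDerivAt_const t y)
      have h5 : HasDerivAt (fun s : ℝ => σ (s, y)) (fderiv ℝ σ (t, y) (1, 0)) t :=
        HasFDerivAt.comp_hasDerivAt (l := σ) (f := fun s => (s, y)) t hσd h4
      have h6 := (h5.clm_apply (hasDerivAt_const t a)).clm_apply (hasDerivAt_const t b)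
      rw [h6.deriv]
      simp
    have h4 : ∀ w, fderiv ℝ (fun z => σ (t, z)) y w = fderiv ℝ σ (t, y) (0, w) := by
      intro w
      have h6 : HasFDerivAt (fun z : E => (t, z)) (ContinuousLinearMap.inr ℝ ℝ E) y :=
        hasFDerivAt_prodMk_right t y
      have h5 : HasFDerivAt (fun z => σ (t, z))
          ((fderiv ℝ σ (t, y)).comp (ContinuousLinearMap.inr ℝ ℝ E)) y :=
        HasFDerivAt.comp (g := σ) (f := fun z : E => (t, z)) y hσd h6
      rw [h5.fderiv]
      rfl
    rw [h3, h4] at h2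
    have h5 : ((1 : ℝ), X (t, y)) = (1, 0) + (0, X (t, y)) := by simp
    rw [h5]
    simp only [map_add, _root_.add_apply]
    linarith
  have hconst := is_const_of_deriv_eq_zero
    (f := fun t => σ (t, F t x) (fderiv ℝ (F t) x u) (fderiv ℝ (F t) x v))
    (fun t => (key t).differentiableAt) (fun t => (key t).deriv) t 0
  exact hconst

end flow

section poincare

open MeasureTheory intervalIntegral

variable {E : Type} [NormedAddCommGroup E] [NormedSpace ℝ E] [FiniteDimensional ℝ E]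

/-- the primitive of a closed two-form given by the Poincaré lemma -/
noncomputable def prim (σ : E → E →L[ℝ] E →L[ℝ] ℝ) (x : E) : E →L[ℝ] ℝ :=
  ∫ t in (0 : ℝ)..1, t • σ (t • x) x

theorem prim_integrand_contDiff {σ : E → E →L[ℝ] E →L[ℝ] ℝ} (hσ : ContDiff ℝ ∞ σ) :
    ContDiff ℝ ∞ (fun p : E × ℝ => p.2 • σ (p.2 • p.1) p.1) :=
  contDiff_snd.smul ((hσ.comp (contDiff_snd.smul contDiff_fst)).clm_apply contDiff_fst)

theorem contDiff_prim {σ : E → E →L[ℝ] E →L[ℝ] ℝ} (hσ : ContDiff ℝ ∞ σ) :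
    ContDiff ℝ ∞ (prim σ) :=
  Pool.Agent.W585.contDiff_param (F := fun (x : E) (t : ℝ) => t • σ (t • x) x)
    (prim_integrand_contDiff hσ) 0 1

theorem prim_apply {σ : E → E →L[ℝ] E →L[ℝ] ℝ} (hσ : ContDiff ℝ ∞ σ) (x v : E) :
    prim σ x v = ∫ t in (0 : ℝ)..1, t * σ (t • x) x v := by
  have hc : Continuous (fun t : ℝ => t • σ (t • x) x) :=
    (prim_integrand_contDiff hσ).continuous.comp (continuous_const.prodMk continuous_id)
  have h := ContinuousLinearMap.intervalIntegral_comp_comm (μ := volume)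
    (ContinuousLinearMap.apply ℝ ℝ v : (E →L[ℝ] ℝ) →L[ℝ] ℝ)
    (hc.intervalIntegrable 0 1)
  exact h.symm

theorem dOne_prim {σ : E → E →L[ℝ] E →L[ℝ] ℝ} (hσ : ContDiff ℝ ∞ σ)
    (halt : ∀ x v, σ x v v = 0) (hcl : ClosedForm σ) (x : E) : dOne (prim σ) x = σ x := by
  have hcs : CompleteSpace E := FiniteDimensional.complete ℝ E
  have hσd : Differentiable ℝ σ := hσ.differentiable (by simp)
  have hD : ContDiff ℝ ∞ (fderiv ℝ σ) := hσ.fderiv_right (m := ∞) (by simp)
  have h0 := Pool.Agent.W585.hasFDerivAt_param (F := fun (x : E) (t : ℝ) => t • σ (t • x) x)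
    ((prim_integrand_contDiff hσ).of_le (by exact_mod_cast le_top)) 0 1 x
  set D : ℝ → E →L[ℝ] E →L[ℝ] ℝ := fun t => fderiv ℝ (fun y => t • σ (t • y) y) x with hDdef
  have hDt : ∀ t u v, D t u v = t * (t * fderiv ℝ σ (t • x) u x v + σ (t • x) u v) := by
    intro t u v
    have h1 : HasFDerivAt (fun y : E => t • y) (t • ContinuousLinearMap.id ℝ E) x :=
      (hasFDerivAt_id x).const_smul t
    have h2 : HasFDerivAt (fun y => σ (t • y))
        ((fderiv ℝ σ (t • x)).comp (t • ContinuousLinearMap.id ℝ E)) x :=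
      HasFDerivAt.comp (g := σ) (f := fun y : E => t • y) x (hσd _).hasFDerivAt h1
    have h3 := (h2.clm_apply (hasFDerivAt_id x)).const_smul t
    have h4 : D t = _ := h3.fderiv
    rw [h4]
    simp
    ring
  have hDc : Continuous D := by
    rw [continuous_clm_apply]
    intro u
    rw [continuous_clm_apply]
    intro v
    simp only [hDt]
    have hs : Continuous (fun t : ℝ => t • x) := continuous_id.smul continuous_const
    have c1 : Continuous (fun t : ℝ => fderiv ℝ σ (t • x) u x v) :=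
      (((hD.continuous.comp hs).clm_apply continuous_const).clm_apply
        continuous_const).clm_apply continuous_const
    have c2 : Continuous (fun t : ℝ => σ (t • x) u v) :=
      ((hσ.continuous.comp hs).clm_apply continuous_const).clm_apply continuous_const
    exact continuous_id.mul ((continuous_id.mul c1).add c2)
  have happ : ∀ u v, fderiv ℝ (prim σ) x u v =
      ∫ t in (0 : ℝ)..1, t * (t * fderiv ℝ σ (t • x) u x v + σ (t • x) u v) := by
    intro u v
    have e : fderiv ℝ (prim σ) x = ∫ t in (0 : ℝ)..1, D t := h0.fderiv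
    rw [e]
    have h := ContinuousLinearMap.intervalIntegral_comp_comm (μ := volume)
      ((ContinuousLinearMap.apply ℝ ℝ v).comp (ContinuousLinearMap.apply ℝ (E →L[ℝ] ℝ) u) :
        (E →L[ℝ] E →L[ℝ] ℝ) →L[ℝ] ℝ) (hDc.intervalIntegrable 0 1)
    have h' : ∫ t in (0 : ℝ)..1, D t u v = (∫ t in (0 : ℝ)..1, D t) u v := h
    rw [← h']
    simp only [hDt]
  ext u v
  rw [dOne_apply, happ, happ]
  have hs : Continuous (fun t : ℝ => t • x) := continuous_id.smul continuous_const
  have c1 : ∀ u v, Continuous (fun t : ℝ => t * (t * fderiv ℝ σ (t • x) u x v +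
      σ (t • x) u v)) := by
    intro u v
    have c1 : Continuous (fun t : ℝ => fderiv ℝ σ (t • x) u x v) :=
      (((hD.continuous.comp hs).clm_apply continuous_const).clm_apply
        continuous_const).clm_apply continuous_const
    have c2 : Continuous (fun t : ℝ => σ (t • x) u v) :=
      ((hσ.continuous.comp hs).clm_apply continuous_const).clm_apply continuous_const
    exact continuous_id.mul ((continuous_id.mul c1).add c2)
  rw [← intervalIntegral.integral_sub ((c1 u v).intervalIntegrable 0 1)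
    ((c1 v u).intervalIntegrable 0 1)]
  have hder : ∀ t ∈ uIcc (0 : ℝ) 1, HasDerivAt (fun t : ℝ => t ^ 2 * σ (t • x) u v)
      (t * (t * fderiv ℝ σ (t • x) u x v + σ (t • x) u v) -
        t * (t * fderiv ℝ σ (t • x) v x u + σ (t • x) v u)) t := by
    intro t _
    have h1 : HasDerivAt (fun t : ℝ => t • x) x t := by
      simpa using (hasDerivAt_id t).smul_const x
    have h2 : HasDerivAt (fun t : ℝ => σ (t • x)) (fderiv ℝ σ (t • x) x) t :=
      HasFDerivAt.comp_hasDerivAt (l := σ) (f := fun t : ℝ => t • x) t (hσd _).hasFDerivAt h1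
    have h3 := (h2.clm_apply (hasDerivAt_const t u)).clm_apply (hasDerivAt_const t v)
    have h4 := (hasDerivAt_pow 2 t).mul h3
    refine h4.congr_deriv ?_
    have h5 := hcl (t • x) x u v
    have h6 := alt_skew (fderiv_alt hσd halt (t • x) u) v x
    have h7 := alt_skew (halt (t • x)) v u
    have h8 : fderiv ℝ σ (t • x) u x v - fderiv ℝ σ (t • x) v x u =
        fderiv ℝ σ (t • x) x u v := by linarith
    simp only [map_zero, add_zero, Nat.cast_ofNat,
      Nat.add_one_sub_one, pow_one]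
    rw [h7, ← h8]
    ring
  rw [intervalIntegral.integral_eq_sub_of_hasDerivAt hder
    (((c1 u v).sub (c1 v u)).intervalIntegrable 0 1)]
  simp

end poincare

end Pool.Agent.N520.Had
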