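import Mathlib
import Pool.Agent.N520.HTwo
import Pool.Agent.N520.HFlow

/-!
# Expanding local diffeomorphisms of a Euclidean space are diffeomorphisms
-/

set_option autoImplicit false
set_option maxSynthPendingDepth 3

open Set Function Topology Filter Metric
open scoped ContDiff InnerProductSpace

namespace Pool.Agent.N520.Had

variable {E : Type} [NormedAddCommGroup E] [InnerProductSpace ℝ E] [FiniteDimensional ℝ E]

omit [FiniteDimensional ℝ E] in
/-- a metric with the Gauss lemma which is monotone along rays dominates the metric at `0` -/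
theorem lower_bound {G : E → E →L[ℝ] E →L[ℝ] ℝ} (hG : ContDiff ℝ ∞ G)
    (hrad : ∀ x w, G x x w = ⟪x, w⟫_ℝ)
    (hmono : ∀ x w, 0 ≤ fderiv ℝ (fun y => G y w w) x x) (x w : E) :
    ‖w‖ ^ 2 ≤ G x w w := by
  have hGw : ∀ u w, ContDiff ℝ ∞ (fun y => G y u w) := fun u w =>
    (hG.clm_apply contDiff_const).clm_apply contDiff_const
  have h0 : ∀ u w, G 0 u w = ⟪u, w⟫_ℝ := by
    intro u w
    have hne : ∀ s : ℝ, s ≠ 0 → G (s • u) u w = ⟪u, w⟫_ℝ := by
      intro s hs
      have h1 := hrad (s • u) w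
      rw [map_smul, _root_.smul_apply, inner_smul_left, smul_eq_mul] at h1
      simpa [hs] using h1
    have hc : Continuous (fun s : ℝ => G (s • u) u w) :=
      (hGw u w).continuous.comp (continuous_id.smul continuous_const)
    have hd : Dense {s : ℝ | s ≠ 0} := dense_compl_singleton 0
    have heq := Continuous.ext_on hd hc continuous_const (fun s hs => hne s hs)
    have := congrFun heq 0
    simpa using this
  have hder : ∀ s : ℝ, HasDerivAt (fun s : ℝ => G (s • x) w w)
      (fderiv ℝ (fun y => G y w w) (s • x) x) s := by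
    intro s
    have h1 : HasDerivAt (fun t : ℝ => t • x) x s := by
      simpa using (hasDerivAt_id s).smul_const x
    exact HasFDerivAt.comp_hasDerivAt (l := fun y => G y w w) (f := fun t : ℝ => t • x) s
      (((hGw w w).differentiable (by simp)) _).hasFDerivAt h1
  have hm : MonotoneOn (fun s : ℝ => G (s • x) w w) (Ici 0) := by
    refine monotoneOn_of_deriv_nonneg (convex_Ici 0)
      (fun s _ => (hder s).continuousAt.continuousWithinAt)
      (fun s _ => (hder s).differentiableAt.differentiableWithinAt) ?_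
    intro s hs
    rw [interior_Ici] at hs
    have hs0 : (0 : ℝ) < s := hs
    rw [(hder s).deriv]
    have h2 := hmono (s • x) w
    rw [map_smul, smul_eq_mul] at h2
    exact nonneg_of_mul_nonneg_right h2 hs0
  have h1 := hm (mem_Ici.2 le_rfl) (mem_Ici.2 zero_le_one) zero_le_one
  simp only [zero_smul, one_smul, h0, real_inner_self_eq_norm_sq] at h1
  exact h1

variable {V : Type} [NormedAddCommGroup V] [NormedSpace ℝ V] [FiniteDimensional ℝ V]

/-- A local diffeomorphism from a Euclidean space which expands lengths, measured with some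
continuous metric on the target, is a diffeomorphism. -/
theorem expanding_diffeo (hdim : Module.finrank ℝ E = Module.finrank ℝ V)
    {g : V → V →L[ℝ] V →L[ℝ] ℝ} (hg : Continuous g) {Φ : E → V} (hΦ : ContDiff ℝ ∞ Φ)
    (hexp : ∀ x w, ‖w‖ ^ 2 ≤ g (Φ x) (fderiv ℝ Φ x w) (fderiv ℝ Φ x w)) :
    ∃ ℓ : V → E, ContDiff ℝ ∞ ℓ ∧ (∀ x, ℓ (Φ x) = x) ∧ ∀ y, Φ (ℓ y) = y := by
  have hcE : CompleteSpace E := FiniteDimensional.complete ℝ E
  have hcV : CompleteSpace V := FiniteDimensional.complete ℝ V
  have hpV : ProperSpace V := FiniteDimensional.proper_real V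
  have hΦd : ∀ x, HasFDerivAt Φ (fderiv ℝ Φ x) x := fun x =>
    (hΦ.differentiable (by simp) x).hasFDerivAt
  have hequiv : ∀ x, ∃ e : E ≃L[ℝ] V, (e : E →L[ℝ] V) = fderiv ℝ Φ x := by
    intro x
    have hinj : Function.Injective (fderiv ℝ Φ x : E →ₗ[ℝ] V) := by
      rw [← LinearMap.ker_eq_bot, LinearMap.ker_eq_bot']
      intro w hw
      have hw' : fderiv ℝ Φ x w = 0 := hw
      have h1 := hexp x w
      rw [hw', map_zero] at h1
      have h2 : ‖w‖ = 0 := by
        have := norm_nonneg w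
        nlinarith
      exact norm_eq_zero.1 h2
    exact ⟨(LinearEquiv.ofInjectiveOfFinrankEq _ hinj hdim).toContinuousLinearEquiv, by
      ext v; rfl⟩
  choose e he using hequiv
  set U : E × V → E × V := fun q => ((fderiv ℝ Φ q.1).inverse q.2, 0) with hU
  have hUs : ContDiff ℝ ∞ U := by
    refine ContDiff.prodMk ?_ contDiff_const
    have hD : ContDiff ℝ ∞ (fderiv ℝ Φ) := hΦ.fderiv_right (m := ∞) (by simp)
    rw [contDiff_iff_contDiffAt]
    intro q
    have h1 : ContDiffAt ℝ ∞ (ContinuousLinearMap.inverse : (E →L[ℝ] V) → _)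
        (fderiv ℝ Φ q.1) := by
      rw [← he q.1]
      exact contDiffAt_map_inverse (e q.1)
    exact (ContDiffAt.comp q h1 (hD.comp contDiff_fst).contDiffAt).clm_apply
      contDiff_snd.contDiffAt
  have hinvr : ∀ x y, fderiv ℝ Φ x ((fderiv ℝ Φ x).inverse y) = y := by
    intro x y
    rw [← he x, ContinuousLinearMap.inverse_equiv]
    exact (e x).apply_symm_apply y
  obtain ⟨h, hhs, hh0, hhd⟩ := exists_flow hUs (by
    rintro ⟨x₀, y₀⟩ T
    have hK : IsCompact (closedBall (Φ x₀) (‖y₀‖ * |T|)) := isCompact_closedBall _ _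
    obtain ⟨C, hC⟩ := hK.exists_bound_of_continuousOn (f := fun z => g z y₀ y₀)
      ((hg.clm_apply continuous_const).clm_apply continuous_const).continuousOn
    refine ⟨max (‖x₀‖ + Real.sqrt C * |T|) ‖y₀‖, ?_⟩
    intro χ _ _ hχ c hc0 hc t ht
    have hT : 0 ≤ T := by linarith [ht.1, ht.2]
    have hTabs : |T| = T := abs_of_nonneg hT
    have h1 : ∀ t, HasDerivAt (fun t => (c t).1)
        (χ (c t) • (fderiv ℝ Φ (c t).1).inverse (c t).2) t := fun t => (hc t).fst
    have h2 : ∀ t, HasDerivAt (fun t => (c t).2) 0 t := by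
      intro t
      have h : HasDerivAt (fun t => (c t).2) ((χ (c t) • U (c t)).2) t := (hc t).snd
      exact h.congr_deriv (by simp [hU])
    have h3 : ∀ t, (c t).2 = y₀ := by
      intro t
      have := is_const_of_deriv_eq_zero (f := fun t => (c t).2)
        (fun t => (h2 t).differentiableAt) (fun t => (h2 t).deriv) t 0
      rw [hc0] at this
      exact this
    have h4 : ∀ t, HasDerivAt (fun t => Φ (c t).1) (χ (c t) • y₀) t := by
      intro t
      have := HasFDerivAt.comp_hasDerivAt (l := Φ) (f := fun t => (c t).1) t (hΦd _) (h1 t)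
      rw [map_smul, hinvr, h3] at this
      exact this
    have h5 : ∀ t ∈ Icc (-T) T, Φ (c t).1 ∈ closedBall (Φ x₀) (‖y₀‖ * |T|) := by
      intro t ht
      have h6 := Convex.norm_image_sub_le_of_norm_hasDerivWithin_le
        (f := fun t => Φ (c t).1) (f' := fun t => χ (c t) • y₀) (C := ‖y₀‖) (s := univ)
        (x := 0) (y := t) (fun s _ => (h4 s).hasDerivWithinAt)
        (fun s _ => by
          rw [norm_smul, Real.norm_of_nonneg (hχ _).1]
          calc χ (c s) * ‖y₀‖ ≤ 1 * ‖y₀‖ :=
                mul_le_mul_of_nonneg_right (hχ _).2 (norm_nonneg _)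
            _ = ‖y₀‖ := one_mul _) convex_univ trivial trivial
      rw [mem_closedBall, dist_eq_norm]
      simp only [hc0, sub_zero, Real.norm_eq_abs] at h6
      refine h6.trans (mul_le_mul_of_nonneg_left ?_ (norm_nonneg _))
      rw [hTabs]
      exact abs_le.2 ht
    have h6 : ∀ t ∈ Icc (-T) T, ‖χ (c t) • (fderiv ℝ Φ (c t).1).inverse (c t).2‖ ≤
        Real.sqrt C := by
      intro t ht
      have h7 := hexp (c t).1 ((fderiv ℝ Φ (c t).1).inverse (c t).2)
      rw [hinvr, h3] at h7
      have h8 : g (Φ (c t).1) y₀ y₀ ≤ C := (le_abs_self _).trans (hC _ (h5 t ht))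
      have h9 : ‖(fderiv ℝ Φ (c t).1).inverse y₀‖ ≤ Real.sqrt C :=
        Real.le_sqrt_of_sq_le (h7.trans h8)
      rw [norm_smul, Real.norm_of_nonneg (hχ _).1, h3]
      calc χ (c t) * ‖(fderiv ℝ Φ (c t).1).inverse y₀‖
          ≤ 1 * ‖(fderiv ℝ Φ (c t).1).inverse y₀‖ :=
            mul_le_mul_of_nonneg_right (hχ _).2 (norm_nonneg _)
        _ ≤ Real.sqrt C := by rw [one_mul]; exact h9
    have h7 := Convex.norm_image_sub_le_of_norm_hasDerivWithin_le
      (f := fun t => (c t).1) (f' := fun t => χ (c t) • (fderiv ℝ Φ (c t).1).inverse (c t).2)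
      (C := Real.sqrt C) (s := Icc (-T) T) (x := 0) (y := t)
      (fun s _ => (h1 s).hasDerivWithinAt) h6 (convex_Icc _ _) ⟨by linarith, hT⟩ ht
    simp only [hc0, sub_zero, Real.norm_eq_abs] at h7
    rw [Prod.norm_def]
    refine max_le_max ?_ ?_
    · have h8 : ‖(c t).1‖ ≤ ‖(c t).1 - x₀‖ + ‖x₀‖ := by
        simpa using norm_add_le ((c t).1 - x₀) x₀
      have h9 : Real.sqrt C * |t| ≤ Real.sqrt C * |T| := by
        refine mul_le_mul_of_nonneg_left ?_ (Real.sqrt_nonneg _)
        rw [hTabs]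
        exact abs_le.2 ht
      linarith
    · rw [h3])
  have hU1 : ContDiff ℝ 1 U := hUs.of_le (by exact_mod_cast le_top)
  have hh2 : ∀ t q, (h t q).2 = q.2 := by
    intro t q
    have h2 : ∀ t, HasDerivAt (fun t => (h t q).2) 0 t := fun t => (hhd t q).snd
    have := is_const_of_deriv_eq_zero (f := fun t => (h t q).2)
      (fun t => (h2 t).differentiableAt) (fun t => (h2 t).deriv) t 0
    rw [hh0] at this
    exact this
  have hh1 : ∀ t q, Φ (h t q).1 = Φ q.1 + t • q.2 := by
    intro t q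
    have h1 : ∀ t, HasDerivAt (fun t => (h t q).1) ((fderiv ℝ Φ (h t q).1).inverse (h t q).2) t :=
      fun t => (hhd t q).fst
    have h2 : ∀ t, HasDerivAt (fun t => Φ (h t q).1 - t • q.2) 0 t := by
      intro t
      have h3 := HasFDerivAt.comp_hasDerivAt (l := Φ) (f := fun t => (h t q).1) t (hΦd _) (h1 t)
      rw [hinvr, hh2] at h3
      have h4 : HasDerivAt (fun t : ℝ => t • q.2) q.2 t := by
        simpa using (hasDerivAt_id t).smul_const q.2
      exact (h3.sub h4).congr_deriv (sub_self _)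
    have := is_const_of_deriv_eq_zero (f := fun t => Φ (h t q).1 - t • q.2)
      (fun t => (h2 t).differentiableAt) (fun t => (h2 t).deriv) t 0
    simp only [hh0, zero_smul, sub_zero] at this
    rw [← this]
    abel
  set ℓ : V → E := fun y => (h 1 (0, y - Φ 0)).1 with hℓ
  have hℓs : ContDiff ℝ ∞ ℓ := by
    have h1 : ContDiff ℝ ∞ (fun y : V => ((1 : ℝ), ((0 : E), y - Φ 0))) :=
      contDiff_const.prodMk (contDiff_const.prodMk (contDiff_id.sub contDiff_const))
    exact contDiff_fst.comp (hhs.comp h1)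
  have hΦℓ : ∀ y, Φ (ℓ y) = y := by
    intro y
    simp only [hℓ]
    rw [hh1]
    simp
  have hℓ0 : ℓ (Φ 0) = 0 := by
    have h1 := curve_unique_univ hU1 (c₁ := fun t => h t ((0 : E), (0 : V)))
      (c₂ := fun _ => ((0 : E), (0 : V))) (fun t => hhd t _)
      (fun t => by
        have : U ((0 : E), (0 : V)) = 0 := by simp [hU]
        rw [this]
        exact hasDerivAt_const t _) (hh0 _)
    have h2 := congrFun h1 1
    simp only [hℓ, sub_self]
    rw [h2]
  refine ⟨ℓ, hℓs, ?_, hΦℓ⟩
  intro x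
  -- continuity argument along the ray
  set S : Set ℝ := {t : ℝ | ℓ (Φ (t • x)) = t • x} with hS
  have hc1 : Continuous (fun t : ℝ => ℓ (Φ (t • x))) :=
    hℓs.continuous.comp (hΦ.continuous.comp (continuous_id.smul continuous_const))
  have hc2 : Continuous (fun t : ℝ => t • x) := continuous_id.smul continuous_const
  have hclosed : IsClosed S := isClosed_eq hc1 hc2
  have hopen : IsOpen S := by
    rw [isOpen_iff_mem_nhds]
    intro t₀ ht₀
    have ht₀' : ℓ (Φ (t₀ • x)) = t₀ • x := ht₀
    have hst : HasStrictFDerivAt Φ (e (t₀ • x) : E →L[ℝ] V) (t₀ • x) := by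
      rw [he]
      exact hΦ.contDiffAt.hasStrictFDerivAt (by simp)
    have hev := hst.eventually_left_inverse
    have e1 : ∀ᶠ t : ℝ in 𝓝 t₀, hst.localInverse Φ (e (t₀ • x)) (t₀ • x) (Φ (t • x)) = t • x :=
      (hc2.tendsto t₀).eventually hev
    have e2 : ∀ᶠ t : ℝ in 𝓝 t₀, hst.localInverse Φ (e (t₀ • x)) (t₀ • x)
        (Φ (ℓ (Φ (t • x)))) = ℓ (Φ (t • x)) := by
      have h3 : Tendsto (fun t : ℝ => ℓ (Φ (t • x))) (𝓝 t₀) (𝓝 (t₀ • x)) := by
        have := hc1.tendsto t₀
        rw [ht₀'] at this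
        exact this
      exact h3.eventually hev
    filter_upwards [e1, e2] with t h3 h4
    rw [hΦℓ] at h4
    change ℓ (Φ (t • x)) = t • x
    rw [← h4, h3]
  have huniv : S = univ := IsClopen.eq_univ ⟨hclosed, hopen⟩ ⟨0, by
    change ℓ (Φ ((0 : ℝ) • x)) = (0 : ℝ) • x
    rw [zero_smul]; exact hℓ0⟩
  have h1 : (1 : ℝ) ∈ S := by rw [huniv]; trivial
  have h2 : ℓ (Φ ((1 : ℝ) • x)) = (1 : ℝ) • x := h1
  simpa using h2

end Pool.Agent.N520.Had
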