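import Mathlib
import Pool.Agent.N520.SDefs

/-!
# Riemannian metrics and symplectic forms on a vector space
-/

set_option autoImplicit false

open scoped ContDiff

namespace Pool.Agent.N520.Had

variable {W : Type} [NormedAddCommGroup W] [NormedSpace ℝ W]

/-- the derivative at `x` of the function `f`, in the direction `u` -/
noncomputable def dir (f : W → ℝ) (x u : W) : ℝ := fderiv ℝ f x u

/-- the exterior derivative of the two-form `σ` vanishes -/
def IsClosedForm (σ : W → LinearMap.BilinForm ℝ W) : Prop :=
  ∀ x u v w, dir (fun y => σ y v w) x u + dir (fun y => σ y w u) x v +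
    dir (fun y => σ y u v) x w = 0

/-- `σ` is a symplectic form on the manifold `W`: a smooth, alternating, nondegenerate and closed
field of bilinear forms -/
structure IsSymplecticForm (σ : W → LinearMap.BilinForm ℝ W) : Prop where
  smooth : ∀ u v, ContDiff ℝ ∞ (fun x => σ x u v)
  alternating : ∀ x v, σ x v v = 0
  nondegenerate : ∀ x v, (∀ w, σ x v w = 0) → v = 0
  closed : IsClosedForm σ

/-- `J` is a smooth almost complex structure on the manifold `W` -/
structure IsAlmostComplex (J : W → W →ₗ[ℝ] W) : Prop where
  smooth : ∀ v, ContDiff ℝ ∞ (fun x => J x v)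
  square : ∀ x v, J x (J x v) = -v

/-- the almost complex structure `J` is compatible with the two-form `σ` -/
structure IsCompatible (σ : W → LinearMap.BilinForm ℝ W) (J : W → W →ₗ[ℝ] W) : Prop where
  almostComplex : IsAlmostComplex J
  invariant : ∀ x u v, σ x (J x u) (J x v) = σ x u v
  positive : ∀ x v, v ≠ 0 → 0 < σ x v (J x v)

/-- the Riemannian metric `g_J(u, v) = σ(u, J v)` -/
noncomputable def metric (σ : W → LinearMap.BilinForm ℝ W) (J : W → W →ₗ[ℝ] W) (x : W) :
    LinearMap.BilinForm ℝ W := (σ x).compRight (J x)

/-- `Γ(u, v)` at the point `x`, for the Levi-Civita connection `D_u v + Γ(u, v)` of the metric `g`: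
the vector `z` with `2 g(z, w) = (D_u g)(v, w) + (D_v g)(u, w) - (D_w g)(u, v)` for all `w`; it
exists and is unique since `g` is nondegenerate -/
noncomputable def christoffel (g : W → LinearMap.BilinForm ℝ W) (x u v : W) : W :=
  Classical.epsilon fun z => ∀ w, 2 * g x z w =
    dir (fun y => g y v w) x u + dir (fun y => g y u w) x v - dir (fun y => g y u v) x w

/-- the curvature tensor `R(u, v) w` of the Levi-Civita connection of `g` at `x` -/
noncomputable def curvature (g : W → LinearMap.BilinForm ℝ W) (x u v w : W) : W :=
  fderiv ℝ (fun y => christoffel g y v w) x u - fderiv ℝ (fun y => christoffel g y u w) x v +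
    christoffel g x u (christoffel g x v w) - christoffel g x v (christoffel g x u w)

/-- the sectional curvature of the plane spanned by `u` and `v` at `x` -/
noncomputable def sectional (g : W → LinearMap.BilinForm ℝ W) (x u v : W) : ℝ :=
  g x (curvature g x u v v) u / (g x u u * g x v v - g x u v ^ 2)

/-- `γ` is a geodesic of the metric `g`, defined for all times -/
def IsGeodesic (g : W → LinearMap.BilinForm ℝ W) (γ : ℝ → W) : Prop :=
  ContDiff ℝ 2 γ ∧
    ∀ t, deriv (deriv γ) t + christoffel g (γ t) (deriv γ t) (deriv γ t) = 0

/-- the metric `g` is complete: all its geodesics are defined for all times -/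
def IsGeodesicallyComplete (g : W → LinearMap.BilinForm ℝ W) : Prop :=
  ∀ p v : W, ∃ γ : ℝ → W, IsGeodesic g γ ∧ γ 0 = p ∧ deriv γ 0 = v

end Pool.Agent.N520.Had
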