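import Mathlib
import Pool.Agent.N520.HTwo
import Pool.Agent.N520.HFlow

/-!
# Jacobi fields in nonpositive curvature
-/

set_option autoImplicit false
set_option maxSynthPendingDepth 3

open Set Function Topology Filter Metric
open scoped ContDiff

namespace Pool.Agent.N520.Had

section geo

variable {V : Type} [NormedAddCommGroup V] [NormedSpace ℝ V]

/-- A metric `g` with Levi-Civita connection `Γ` and nonpositive sectional curvature. -/
structure Geo (g : V → V →L[ℝ] V →L[ℝ] ℝ) (Γ : V → V →L[ℝ] V →L[ℝ] V) : Prop where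
  sg : ContDiff ℝ ∞ g
  sΓ : ContDiff ℝ ∞ Γ
  symm : ∀ x u v, g x u v = g x v u
  pos : ∀ x v, v ≠ 0 → 0 < g x v v
  tors : ∀ x u v, Γ x u v = Γ x v u
  comp : ∀ x w u v, fderiv ℝ g x w u v = g x (Γ x w u) v + g x u (Γ x w v)
  curv : ∀ x u v, g x (fderiv ℝ Γ x u v v - fderiv ℝ Γ x v u v + Γ x u (Γ x v v) -
    Γ x v (Γ x u v)) u ≤ 0

/-- the geodesic spray -/
noncomputable def spray (Γ : V → V →L[ℝ] V →L[ℝ] V) (p : V × V) : V × V := (p.2, -Γ p.1 p.2 p.2)

theorem contDiff_spray {Γ : V → V →L[ℝ] V →L[ℝ] V} (h : ContDiff ℝ ∞ Γ) :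
    ContDiff ℝ ∞ (spray Γ) :=
  contDiff_snd.prodMk (((h.comp contDiff_fst).clm_apply contDiff_snd).clm_apply contDiff_snd).neg

theorem fderiv_spray {Γ : V → V →L[ℝ] V →L[ℝ] V} (h : ContDiff ℝ ∞ Γ) (p q : V × V) :
    fderiv ℝ (spray Γ) p q =
      (q.2, -(fderiv ℝ Γ p.1 q.1 p.2 p.2 + Γ p.1 q.2 p.2 + Γ p.1 p.2 q.2)) := by
  have h1 : HasFDerivAt (fun p : V × V => Γ p.1) ((fderiv ℝ Γ p.1).comp
      (ContinuousLinearMap.fst ℝ V V)) p :=
    HasFDerivAt.comp (g := Γ) (f := fun p : V × V => p.1) p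
      ((h.differentiable (by simp)) _).hasFDerivAt hasFDerivAt_fst
  have h2 : HasFDerivAt (fun p : V × V => p.2) (ContinuousLinearMap.snd ℝ V V) p :=
    hasFDerivAt_snd
  have h3 := h2.prodMk ((h1.clm_apply h2).clm_apply h2).neg
  have h4 : fderiv ℝ (spray Γ) p = _ := h3.fderiv
  rw [h4]
  refine Prod.ext ?_ ?_
  · simp
  · simp
    abel

/-- a Jacobi field along a geodesic -/
structure Jac (Γ : V → V →L[ℝ] V →L[ℝ] V) (c T j w : ℝ → V) : Prop where
  hc : ∀ t, HasDerivAt c (T t) t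
  hT : ∀ t, HasDerivAt T (-Γ (c t) (T t) (T t)) t
  hj : ∀ t, HasDerivAt j (w t) t
  hw : ∀ t, HasDerivAt w
    (-(fderiv ℝ Γ (c t) (j t) (T t) (T t) + Γ (c t) (w t) (T t) + Γ (c t) (T t) (w t))) t

variable {g : V → V →L[ℝ] V →L[ℝ] ℝ} {Γ : V → V →L[ℝ] V →L[ℝ] V}

theorem Geo.nonneg (h : Geo g Γ) (x v : V) : 0 ≤ g x v v := by
  by_cases hv : v = 0
  · simp [hv]
  · exact (h.pos x v hv).le

/-- the product rule for the metric along a curve -/
theorem Geo.product (h : Geo g Γ) {c X Y : ℝ → V} {T X' Y' : V} {t : ℝ}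
    (hc : HasDerivAt c T t) (hX : HasDerivAt X X' t) (hY : HasDerivAt Y Y' t) :
    HasDerivAt (fun t => g (c t) (X t) (Y t))
      (g (c t) (X' + Γ (c t) T (X t)) (Y t) + g (c t) (X t) (Y' + Γ (c t) T (Y t))) t := by
  have h1 : HasDerivAt (fun t => g (c t)) (fderiv ℝ g (c t) T) t :=
    HasFDerivAt.comp_hasDerivAt (l := g) (f := c) t
      ((h.sg.differentiable (by simp)) _).hasFDerivAt hc
  have h2 := (h1.clm_apply hX).clm_apply hY
  refine h2.congr_deriv ?_
  simp only [_root_.add_apply, map_add]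
  rw [h.comp]
  ring

/-- the covariant derivative of a Jacobi field -/
noncomputable def cov (Γ : V → V →L[ℝ] V →L[ℝ] V) (c T j w : ℝ → V) (t : ℝ) : V :=
  w t + Γ (c t) (T t) (j t)

theorem Jac.cov_deriv (h : Geo g Γ) {c T j w : ℝ → V} (hJ : Jac Γ c T j w) (t : ℝ) :
    ∃ D' : V, HasDerivAt (cov Γ c T j w) D' t ∧
      D' + Γ (c t) (T t) (cov Γ c T j w t) =
        -(fderiv ℝ Γ (c t) (j t) (T t) (T t) - fderiv ℝ Γ (c t) (T t) (j t) (T t) +
          Γ (c t) (j t) (Γ (c t) (T t) (T t)) - Γ (c t) (T t) (Γ (c t) (j t) (T t))) := by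
  have h1 : HasDerivAt (fun t => Γ (c t)) (fderiv ℝ Γ (c t) (T t)) t :=
    HasFDerivAt.comp_hasDerivAt (l := Γ) (f := c) t
      ((h.sΓ.differentiable (by simp)) _).hasFDerivAt (hJ.hc t)
  have h2 := (hJ.hw t).add ((h1.clm_apply (hJ.hT t)).clm_apply (hJ.hj t))
  refine ⟨_, h2, ?_⟩
  have hsymD : fderiv ℝ Γ (c t) (T t) (T t) (j t) = fderiv ℝ Γ (c t) (T t) (j t) (T t) := by
    rw [← fderiv_app2 ((h.sΓ.differentiable (by simp)) _),
      ← fderiv_app2 ((h.sΓ.differentiable (by simp)) _)]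
    congr 2
    funext y
    exact h.tors y _ _
  simp only [_root_.add_apply, cov, map_add, map_neg, _root_.neg_apply, hsymD]
  rw [h.tors (c t) (Γ (c t) (T t) (T t)) (j t), h.tors (c t) (w t) (T t),
    h.tors (c t) (j t) (T t)]
  abel

theorem Jac.deriv_A (h : Geo g Γ) {c T j w : ℝ → V} (hJ : Jac Γ c T j w) (t : ℝ) :
    HasDerivAt (fun t => g (c t) (j t) (j t)) (2 * g (c t) (cov Γ c T j w t) (j t)) t := by
  refine (h.product (hJ.hc t) (hJ.hj t) (hJ.hj t)).congr_deriv ?_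
  rw [h.symm (c t) (j t) (w t + _)]
  change g (c t) (cov Γ c T j w t) (j t) + g (c t) (cov Γ c T j w t) (j t) = _
  ring

theorem Jac.deriv_B (h : Geo g Γ) {c T j w : ℝ → V} (hJ : Jac Γ c T j w) (t : ℝ) :
    ∃ B' : ℝ, HasDerivAt (fun t => g (c t) (cov Γ c T j w t) (j t)) B' t ∧
      g (c t) (cov Γ c T j w t) (cov Γ c T j w t) ≤ B' := by
  obtain ⟨D', hD, he⟩ := hJ.cov_deriv h t
  refine ⟨_, h.product (hJ.hc t) hD (hJ.hj t), ?_⟩
  rw [he]
  change _ ≤ _ + g (c t) (cov Γ c T j w t) (cov Γ c T j w t)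
  have h1 := h.curv (c t) (j t) (T t)
  rw [map_neg, _root_.neg_apply]
  linarith

theorem Jac.deriv_T (h : Geo g Γ) {c T j w : ℝ → V} (hJ : Jac Γ c T j w) (t : ℝ) :
    HasDerivAt (fun t => g (c t) (T t) (j t)) (g (c t) (T t) (cov Γ c T j w t)) t := by
  refine (h.product (hJ.hc t) (hJ.hT t) (hJ.hj t)).congr_deriv ?_
  simp only [neg_add_cancel, map_zero, _root_.zero_apply, zero_add]
  rfl

/-- the Hessian comparison -/
theorem Jac.comparison (h : Geo g Γ) {c T j w : ℝ → V} (hJ : Jac Γ c T j w) (h0 : j 0 = 0) :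
    g (c 1) (j 1) (j 1) ≤ g (c 1) (cov Γ c T j w 1) (j 1) := by
  set A : ℝ → ℝ := fun t => g (c t) (j t) (j t) with hA
  set B : ℝ → ℝ := fun t => g (c t) (cov Γ c T j w t) (j t) with hB
  have hAd : ∀ t, HasDerivAt A (2 * B t) t := fun t => hJ.deriv_A h t
  choose B' hBd hBle using fun t => hJ.deriv_B h t
  have hA0 : A 0 = 0 := by simp [hA, h0]
  have hB0 : B 0 = 0 := by simp [hB, h0]
  have hqd : ∀ t : ℝ, 0 < t → HasDerivAt (fun t => B t - A t / t)
      (B' t - (2 * B t * t - A t) / t ^ 2) t := by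
    intro t ht
    have h1 := (hBd t).sub ((hAd t).div (hasDerivAt_id t) ht.ne')
    refine h1.congr_deriv ?_
    simp
  have hmono : MonotoneOn (fun t => B t - A t / t) (Ioi 0) := by
    refine monotoneOn_of_deriv_nonneg (convex_Ioi 0)
      (fun t ht => (hqd t ht).continuousAt.continuousWithinAt)
      (fun t ht => ?_) (fun t ht => ?_)
    · rw [interior_Ioi] at ht
      exact (hqd t ht).differentiableAt.differentiableWithinAt
    · rw [interior_Ioi] at ht
      have ht0 : (0 : ℝ) < t := ht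
      rw [(hqd t ht0).deriv]
      have h1 := h.nonneg (c t) (cov Γ c T j w t - t⁻¹ • j t)
      simp only [map_sub, _root_.sub_apply, map_smul, _root_.smul_apply, smul_eq_mul] at h1
      rw [h.symm (c t) (j t) (cov Γ c T j w t)] at h1
      have h2 := hBle t
      have h3 : (2 * B t * t - A t) / t ^ 2 = 2 * (t⁻¹ * B t) - t⁻¹ * (t⁻¹ * A t) := by
        field_simp
      rw [h3]
      simp only [hA, hB] at h2 ⊢
      linarith
  have hlim : Tendsto (fun t => B t - A t / t) (𝓝[>] 0) (𝓝 0) := by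
    have h1 : Tendsto B (𝓝[>] 0) (𝓝 0) := by
      have : Tendsto B (𝓝 0) (𝓝 (B 0)) := (hBd 0).continuousAt.tendsto
      rw [hB0] at this
      exact this.mono_left nhdsWithin_le_nhds
    have h2 : Tendsto (fun t => A t / t) (𝓝[>] 0) (𝓝 0) := by
      have h3 := (hAd 0).tendsto_slope_zero_right
      simp only [hB0, mul_zero, zero_add, hA0, sub_zero, smul_eq_mul] at h3
      refine h3.congr fun t => ?_
      rw [div_eq_inv_mul]
    have := h1.sub h2
    rwa [sub_zero] at this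
  have hle : 0 ≤ B 1 - A 1 / 1 := by
    refine le_of_tendsto hlim ?_
    filter_upwards [Ioo_mem_nhdsGT one_pos] with t ht
    exact hmono ht.1 (mem_Ioi.2 one_pos) ht.2.le
  rw [div_one] at hle
  simp only [hA, hB] at hle
  linarith

end geo

end Pool.Agent.N520.Had
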