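import Mathlib
import Pool.Agent.N520.HGeo

/-!
# The exponential map of a complete metric of nonpositive curvature
-/

set_option autoImplicit false
set_option maxSynthPendingDepth 3

open Set Function Topology Filter Metric
open scoped ContDiff InnerProductSpace

namespace Pool.Agent.N520.Had

variable {E : Type} [NormedAddCommGroup E] [InnerProductSpace ℝ E] [FiniteDimensional ℝ E]
variable {V : Type} [NormedAddCommGroup V] [NormedSpace ℝ V] [FiniteDimensional ℝ V]
variable {g : V → V →L[ℝ] V →L[ℝ] ℝ} {Γ : V → V →L[ℝ] V →L[ℝ] V}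

/-- The exponential map: it satisfies the Gauss lemma, and the metric is monotone along rays. -/
theorem exists_exp (h : Geo g Γ)
    (hcomplete : ∀ z : V × V, ∃ c : ℝ → V × V, c 0 = z ∧ ∀ t, HasDerivAt c (spray Γ (c t)) t)
    (p : V) (A : E →L[ℝ] V) (hA : ∀ u v, g p (A u) (A v) = ⟪u, v⟫_ℝ) :
    ∃ Φ : E → V, ContDiff ℝ ∞ Φ ∧ Φ 0 = p ∧
      (∀ x w, g (Φ x) (fderiv ℝ Φ x x) (fderiv ℝ Φ x w) = ⟪x, w⟫_ℝ) ∧
      ∀ x w, 0 ≤ fderiv ℝ (fun y => g (Φ y) (fderiv ℝ Φ y w) (fderiv ℝ Φ y w)) x x := by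
  have hcs : CompleteSpace V := FiniteDimensional.complete ℝ V
  choose γ hγ0 hγd using hcomplete
  set G : ℝ → V × V → V × V := fun t z => γ z t with hG
  have h0 : ∀ z, G 0 z = z := hγ0
  have hd : ∀ t z, HasDerivAt (fun t => G t z) (spray Γ (G t z)) t := fun t z => hγd z t
  have hsp := contDiff_spray h.sΓ
  have hsp1 : ContDiff ℝ 1 (spray Γ) := hsp.of_le (by exact_mod_cast le_top)
  have hs : ContDiff ℝ ∞ (fun q : ℝ × (V × V) => G q.1 q.2) := smooth_of_complete hsp h0 hd
  have hGt : ∀ t, ContDiff ℝ ∞ (G t) := fun t => hs.comp (contDiff_const.prodMk contDiff_id)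
  have hd1 : ∀ t z, HasDerivAt (fun t => (G t z).1) (G t z).2 t := fun t z => (hd t z).fst
  have hd2 : ∀ t z, HasDerivAt (fun t => (G t z).2) (-Γ (G t z).1 (G t z).2 (G t z).2) t :=
    fun t z => (hd t z).snd
  set Φ : E → V := fun x => (G 1 (p, A x)).1 with hΦ
  have hι : ContDiff ℝ ∞ (fun x : E => (p, A x)) := contDiff_const.prodMk A.contDiff
  have hΦs : ContDiff ℝ ∞ Φ := contDiff_fst.comp ((hGt 1).comp hι)
  have hΦd : ∀ x, HasFDerivAt Φ (fderiv ℝ Φ x) x := fun x =>
    (hΦs.differentiable (by simp) x).hasFDerivAt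
  -- homogeneity
  have hhom : ∀ (s t : ℝ) (x : E), G t (p, A (s • x)) =
      ((G (s * t) (p, A x)).1, s • (G (s * t) (p, A x)).2) := by
    intro s t x
    have hu := curve_unique_univ hsp1 (c₁ := fun t => G t (p, A (s • x)))
      (c₂ := fun t => ((G (s * t) (p, A x)).1, s • (G (s * t) (p, A x)).2))
      (fun t => hd t _) (fun t => by
        have hm : HasDerivAt (fun t : ℝ => s * t) s t := by
          simpa using (hasDerivAt_id t).const_mul s
        have e1 : HasDerivAt (fun t => (G (s * t) (p, A x)).1)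
            (s • (G (s * t) (p, A x)).2) t := (hd1 (s * t) (p, A x)).scomp t hm
        have e2 : HasDerivAt (fun t => s • (G (s * t) (p, A x)).2)
            (s • s • (-Γ (G (s * t) (p, A x)).1 (G (s * t) (p, A x)).2
              (G (s * t) (p, A x)).2)) t :=
          ((hd2 (s * t) (p, A x)).scomp t hm).const_smul s
        refine (e1.prodMk e2).congr_deriv ?_
        simp only [spray, map_smul, _root_.smul_apply, smul_neg])
      (by simp [h0])
    exact congrFun hu t
  have hΦc : ∀ (t : ℝ) (x : E), (G t (p, A x)).1 = Φ (t • x) := by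
    intro t x
    simp only [hΦ]
    rw [hhom t 1 x, mul_one]
  have hΦ0 : Φ 0 = p := by
    have := hΦc 0 0
    rw [zero_smul, h0] at this
    exact this.symm
  -- the velocity
  have hT : ∀ (t : ℝ) (x : E), (G t (p, A x)).2 = fderiv ℝ Φ (t • x) x := by
    intro t x
    have e1 : HasDerivAt (fun t : ℝ => t • x) x t := by
      simpa using (hasDerivAt_id t).smul_const x
    have e2 : HasDerivAt (fun t : ℝ => Φ (t • x)) (fderiv ℝ Φ (t • x) x) t :=
      HasFDerivAt.comp_hasDerivAt (l := Φ) (f := fun t : ℝ => t • x) t (hΦd _) e1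
    have e3 := hd1 t (p, A x)
    simp only [hΦc] at e3
    exact e3.unique e2
  -- Jacobi fields
  set D : ℝ → E → E → V × V := fun t x w => fderiv ℝ (G t) (p, A x) (0, A w) with hD
  have hDd : ∀ t x w, HasDerivAt (fun t => D t x w) (fderiv ℝ (spray Γ) (G t (p, A x))
      (D t x w)) t := by
    intro t x w
    exact Pool.Agent.V11199.HP.hasDerivAt_fderiv (X := fun q : ℝ × (V × V) => spray Γ q.2)
      (hsp.comp contDiff_snd) hs hd t (p, A x) (0, A w)
  have hD0 : ∀ x w, D 0 x w = (0, A w) := by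
    intro x w
    simp only [hD]
    have : G 0 = id := funext h0
    rw [this, fderiv_id]
    rfl
  have hjac : ∀ x w, Jac Γ (fun t => (G t (p, A x)).1) (fun t => (G t (p, A x)).2)
      (fun t => (D t x w).1) (fun t => (D t x w).2) := by
    intro x w
    refine ⟨fun t => hd1 t _, fun t => hd2 t _, fun t => ?_, fun t => ?_⟩
    · have := (hDd t x w).fst
      rw [fderiv_spray h.sΓ] at this
      exact this
    · have := (hDd t x w).snd
      rw [fderiv_spray h.sΓ] at this
      exact this
  -- derivative in `x`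
  have hDx : ∀ t x w, HasDerivAt (fun s : ℝ => G t (p, A (x + s • w))) (D t x w) 0 := by
    intro t x w
    have e1 : HasDerivAt (fun s : ℝ => (p, A (x + s • w))) ((0 : V), A w) 0 := by
      have e2 : HasDerivAt (fun s : ℝ => x + s • w) w 0 := by
        simpa using ((hasDerivAt_id (0 : ℝ)).smul_const w).const_add x
      exact (hasDerivAt_const _ p).prodMk (A.hasFDerivAt.comp_hasDerivAt 0 e2)
    have e3 : HasFDerivAt (G t) (fderiv ℝ (G t) (p, A x)) (p, A (x + (0 : ℝ) • w)) := by
      rw [zero_smul, add_zero]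
      exact ((hGt t).differentiable (by simp) _).hasFDerivAt
    exact HasFDerivAt.comp_hasDerivAt (l := G t) (f := fun s : ℝ => (p, A (x + s • w))) 0 e3 e1
  have hj : ∀ t x w, (D t x w).1 = t • fderiv ℝ Φ (t • x) w := by
    intro t x w
    have e1 : HasDerivAt (fun s : ℝ => (G t (p, A (x + s • w))).1) (D t x w).1 0 :=
      (hDx t x w).fst
    simp only [hΦc] at e1
    have e2 : HasDerivAt (fun s : ℝ => t • (x + s • w)) (t • w) 0 := by
      have e2 : HasDerivAt (fun s : ℝ => x + s • w) w 0 := by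
        simpa using ((hasDerivAt_id (0 : ℝ)).smul_const w).const_add x
      exact e2.const_smul t
    have e3 : HasFDerivAt Φ (fderiv ℝ Φ (t • x)) (t • (x + (0 : ℝ) • w)) := by
      rw [zero_smul, add_zero]
      exact hΦd _
    have e4 := HasFDerivAt.comp_hasDerivAt (l := Φ) (f := fun s : ℝ => t • (x + s • w)) 0 e3 e2
    have e5 := e1.unique e4
    rw [e5, map_smul]
  -- conservation of energy
  have hen : ∀ t x, g (G t (p, A x)).1 (G t (p, A x)).2 (G t (p, A x)).2 = ‖x‖ ^ 2 := by
    intro t x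
    have e1 : ∀ t, HasDerivAt (fun t => g (G t (p, A x)).1 (G t (p, A x)).2 (G t (p, A x)).2)
        0 t := by
      intro t
      refine (h.product (hd1 t _) (hd2 t _) (hd2 t _)).congr_deriv ?_
      simp
    have e2 := is_const_of_deriv_eq_zero
      (f := fun t => g (G t (p, A x)).1 (G t (p, A x)).2 (G t (p, A x)).2)
      (fun t => (e1 t).differentiableAt) (fun t => (e1 t).deriv) t 0
    simp only [h0, hA, real_inner_self_eq_norm_sq] at e2
    exact e2
  have hcovT : ∀ t x w, g (G t (p, A x)).1 (G t (p, A x)).2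
      (cov Γ (fun t => (G t (p, A x)).1) (fun t => (G t (p, A x)).2)
        (fun t => (D t x w).1) (fun t => (D t x w).2) t) = ⟪x, w⟫_ℝ := by
    intro t x w
    have e1 := h.product (c := fun s : ℝ => (G t (p, A (x + s • w))).1)
      (X := fun s : ℝ => (G t (p, A (x + s • w))).2)
      (Y := fun s : ℝ => (G t (p, A (x + s • w))).2) (hDx t x w).fst (hDx t x w).snd
      (hDx t x w).snd
    simp only [hen, zero_smul, add_zero] at e1
    have e2 : HasDerivAt (fun s : ℝ => ‖x + s • w‖ ^ 2) (2 * ⟪x, w⟫_ℝ) 0 := by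
      have e2 : HasDerivAt (fun s : ℝ => x + s • w) w 0 := by
        simpa using ((hasDerivAt_id (0 : ℝ)).smul_const w).const_add x
      have := e2.norm_sq
      simpa using this
    have e3 := e1.unique e2
    rw [h.symm _ _ (G t (p, A x)).2] at e3
    simp only [cov]
    rw [h.tors _ (G t (p, A x)).2 (D t x w).1]
    linarith
  have hrad : ∀ t x w, g (G t (p, A x)).1 (G t (p, A x)).2 (D t x w).1 = t * ⟪x, w⟫_ℝ := by
    intro t x w
    have e1 : ∀ t, HasDerivAt (fun t => g (G t (p, A x)).1 (G t (p, A x)).2 (D t x w).1 -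
        t * ⟪x, w⟫_ℝ) 0 t := by
      intro t
      have e2 := (hjac x w).deriv_T h t
      have e3 := hcovT t x w
      have e4 : HasDerivAt (fun t : ℝ => t * ⟪x, w⟫_ℝ) ⟪x, w⟫_ℝ t := by
        simpa using (hasDerivAt_id t).mul_const ⟪x, w⟫_ℝ
      refine (e2.sub e4).congr_deriv ?_
      rw [e3, sub_self]
    have e2 := is_const_of_deriv_eq_zero
      (f := fun t => g (G t (p, A x)).1 (G t (p, A x)).2 (D t x w).1 - t * ⟪x, w⟫_ℝ)
      (fun t => (e1 t).differentiableAt) (fun t => (e1 t).deriv) t 0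
    simp only [hD0, map_zero, zero_mul, sub_zero] at e2
    linarith
  refine ⟨Φ, hΦs, hΦ0, ?_, ?_⟩
  · intro x w
    have e1 := hrad 1 x w
    rw [hΦc, hT, hj, one_smul, one_smul, one_mul] at e1
    exact e1
  · intro x w
    set f : E → ℝ := fun y => g (Φ y) (fderiv ℝ Φ y w) (fderiv ℝ Φ y w) with hf
    have hDΦ : ContDiff ℝ ∞ (fderiv ℝ Φ) := hΦs.fderiv_right (m := ∞) (by simp)
    have hfs : ContDiff ℝ ∞ f := ((h.sg.comp hΦs).clm_apply
      (hDΦ.clm_apply contDiff_const)).clm_apply (hDΦ.clm_apply contDiff_const)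
    have e1 : HasDerivAt (fun t : ℝ => f (t • x)) (fderiv ℝ f x x) 1 := by
      have e1 : HasDerivAt (fun t : ℝ => t • x) x 1 := by
        simpa using (hasDerivAt_id (1 : ℝ)).smul_const x
      have e2 : HasFDerivAt f (fderiv ℝ f x) ((1 : ℝ) • x) := by
        rw [one_smul]
        exact (hfs.differentiable (by simp) x).hasFDerivAt
      exact HasFDerivAt.comp_hasDerivAt (l := f) (f := fun t : ℝ => t • x) 1 e2 e1
    have e2 := (hjac x w).deriv_A h 1
    have e3 : HasDerivAt (fun t : ℝ => g (G t (p, A x)).1 (D t x w).1 (D t x w).1 / t ^ 2) _ 1 :=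
      e2.div (hasDerivAt_pow 2 (1 : ℝ)) (by norm_num)
    have e4 : (fun t : ℝ => g (G t (p, A x)).1 (D t x w).1 (D t x w).1 / t ^ 2) =ᶠ[𝓝 1]
        fun t : ℝ => f (t • x) := by
      filter_upwards [lt_mem_nhds (zero_lt_one' ℝ)] with t ht
      rw [hΦc, hj]
      simp only [hf, map_smul, _root_.smul_apply, smul_eq_mul]
      field_simp
    have e5 := (e3.congr_of_eventuallyEq e4.symm).unique e1
    rw [← e5]
    have e6 := (hjac x w).comparison h (by simp only [hD0])
    simp only [one_pow, Nat.cast_ofNat, Nat.add_one_sub_one, mul_one, div_one]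
    linarith

end Pool.Agent.N520.Had
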