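import Mathlib
import Pool.Agent.N520.HDefs
import Pool.Agent.N520.HGeo
import Pool.Agent.N520.HAlg

/-!
# The Levi-Civita connection
-/

set_option autoImplicit false
set_option maxSynthPendingDepth 3

open Set Function Topology Filter Metric
open scoped ContDiff InnerProductSpace

namespace Pool.Agent.N520.Had

variable {W : Type} [NormedAddCommGroup W] [NormedSpace ℝ W]

theorem complete_of_geodesicallyComplete {g : W → LinearMap.BilinForm ℝ W}
    {Γ : W → W →L[ℝ] W →L[ℝ] W} (hΓ : ∀ x u v, Γ x u v = christoffel g x u v)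
    (hc : IsGeodesicallyComplete g) (z : W × W) :
    ∃ c : ℝ → W × W, c 0 = z ∧ ∀ t, HasDerivAt c (spray Γ (c t)) t := by
  obtain ⟨γ, ⟨hγ, hgeo⟩, h0, h1⟩ := hc z.1 z.2
  refine ⟨fun t => (γ t, deriv γ t), Prod.ext h0 h1, fun t => ?_⟩
  have e1 : HasDerivAt γ (deriv γ t) t := (hγ.differentiable (by simp) t).hasDerivAt
  have h2 : ContDiff ℝ 1 (deriv γ) := by
    have : ContDiff ℝ (1 + 1) γ := by
      have : (1 + 1 : WithTop ℕ∞) = 2 := by norm_num
      rw [this]; exact hγ
    exact (contDiff_succ_iff_deriv.1 this).2.2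
  have e2 : HasDerivAt (deriv γ) (deriv (deriv γ) t) t :=
    (h2.differentiable (by simp) t).hasDerivAt
  have e3 : deriv (deriv γ) t = -Γ (γ t) (deriv γ t) (deriv γ t) := by
    rw [hΓ]
    exact eq_neg_of_add_eq_zero_left (hgeo t)
  rw [e3] at e2
  exact e1.prodMk e2

variable [FiniteDimensional ℝ W]

theorem geo_of_metric {g₀ : W → LinearMap.BilinForm ℝ W} {g : W → W →L[ℝ] W →L[ℝ] ℝ}
    (hgg : ∀ x u v, g₀ x u v = g x u v) (hg : ContDiff ℝ ∞ g)
    (hsymm : ∀ x u v, g x u v = g x v u) (hpos : ∀ x v, v ≠ 0 → 0 < g x v v)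
    (hK : ∀ x u v, sectional g₀ x u v ≤ 0) :
    ∃ Γ : W → W →L[ℝ] W →L[ℝ] W, Geo g Γ ∧ ∀ x u v, Γ x u v = christoffel g₀ x u v := by
  have hnd : ∀ x v, (∀ w, g x v w = 0) → v = 0 := by
    intro x v hv
    by_contra hne
    have h1 := hpos x v hne
    rw [hv] at h1
    exact lt_irrefl _ h1
  have hgd : Differentiable ℝ g := hg.differentiable (by simp)
  have hD : ContDiff ℝ ∞ (fderiv ℝ g) := hg.fderiv_right (m := ∞) (by simp)
  have hDs : ∀ x w u v, fderiv ℝ g x w u v = fderiv ℝ g x w v u := by
    intro x w u v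
    rw [← fderiv_app2 (hgd x), ← fderiv_app2 (hgd x)]
    congr 2
    funext y
    exact hsymm y u v
  have hdir : ∀ x u v w, dir (fun y => g₀ y v w) x u = fderiv ℝ g x u v w := by
    intro x u v w
    unfold dir
    simp only [hgg]
    exact fderiv_app2 (hgd x) u v w
  have hinj : ∀ x u v, g x u = g x v → u = v := by
    intro x u v h
    refine sub_eq_zero.1 (hnd x _ fun w => ?_)
    rw [map_sub, h, sub_self, _root_.zero_apply]
  have hext : ∀ x u v, (∀ w, 2 * g x u w = 2 * g x v w) → u = v := by
    intro x u v h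
    refine hinj x u v ?_
    ext w
    have := h w
    linarith
  -- the Christoffel symbols as the solution of a linear equation
  set C : W → W → W → W := fun x u v => (g x).inverse ((1 / 2 : ℝ) •
    (fderiv ℝ g x u v + fderiv ℝ g x v u - ((fderiv ℝ g x).flip u).flip v)) with hC
  have hkosC : ∀ x u v w, 2 * g x (C x u v) w =
      fderiv ℝ g x u v w + fderiv ℝ g x v u w - fderiv ℝ g x w u v := by
    intro x u v w
    simp only [hC]
    rw [solve_spec (hnd x)]
    simp only [_root_.smul_apply, _root_.sub_apply, _root_.add_apply,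
      ContinuousLinearMap.flip_apply, smul_eq_mul]
    ring
  have hchr : ∀ x u v w, 2 * g x (christoffel g₀ x u v) w =
      fderiv ℝ g x u v w + fderiv ℝ g x v u w - fderiv ℝ g x w u v := by
    intro x u v
    have h := Classical.epsilon_spec (p := fun z => ∀ w, 2 * g₀ x z w =
      dir (fun y => g₀ y v w) x u + dir (fun y => g₀ y u w) x v - dir (fun y => g₀ y u v) x w)
      ⟨C x u v, fun w => by rw [hgg, hdir, hdir, hdir]; exact hkosC x u v w⟩
    intro w
    have h1 := h w
    rw [hgg, hdir, hdir, hdir] at h1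
    exact h1
  have hCc : ∀ x u v, C x u v = christoffel g₀ x u v := fun x u v =>
    hext x _ _ fun w => by rw [hkosC, hchr]
  let L : W → W →ₗ[ℝ] W →ₗ[ℝ] W := fun x => LinearMap.mk₂ ℝ (christoffel g₀ x)
    (fun u₁ u₂ v => hext x _ _ fun w => by
      rw [map_add, _root_.add_apply, mul_add, hchr, hchr, hchr]
      simp only [map_add, _root_.add_apply]
      ring)
    (fun c u v => hext x _ _ fun w => by
      rw [map_smul, _root_.smul_apply, smul_eq_mul, mul_left_comm, hchr, hchr]
      simp only [map_smul, _root_.smul_apply, smul_eq_mul]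
      ring)
    (fun u v₁ v₂ => hext x _ _ fun w => by
      rw [map_add, _root_.add_apply, mul_add, hchr, hchr, hchr]
      simp only [map_add, _root_.add_apply]
      ring)
    (fun c u v => hext x _ _ fun w => by
      rw [map_smul, _root_.smul_apply, smul_eq_mul, mul_left_comm, hchr, hchr]
      simp only [map_smul, _root_.smul_apply, smul_eq_mul]
      ring)
  let Γ : W → W →L[ℝ] W →L[ℝ] W := fun x => LinearMap.toContinuousLinearMap
    ((LinearMap.toContinuousLinearMap : (W →ₗ[ℝ] W) ≃ₗ[ℝ] (W →L[ℝ] W)).toLinearMap ∘ₗ L x)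
  have hΓ : ∀ x u v, Γ x u v = christoffel g₀ x u v := fun x u v => rfl
  have hsΓ : ContDiff ℝ ∞ Γ := by
    rw [contDiff_clm_apply_iff]
    intro u
    rw [contDiff_clm_apply_iff]
    intro v
    simp only [hΓ, ← hCc]
    have h1 : ContDiff ℝ ∞ (fun x => (1 / 2 : ℝ) •
        (fderiv ℝ g x u v + fderiv ℝ g x v u - ((fderiv ℝ g x).flip u).flip v)) := by
      rw [contDiff_clm_apply_iff]
      intro w
      simp only [_root_.smul_apply, _root_.sub_apply, _root_.add_apply,
        ContinuousLinearMap.flip_apply, smul_eq_mul]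
      have h2 : ∀ a b c : W, ContDiff ℝ ∞ (fun x => fderiv ℝ g x a b c) := fun a b c =>
        ((hD.clm_apply contDiff_const).clm_apply contDiff_const).clm_apply contDiff_const
      exact contDiff_const.mul (((h2 u v w).add (h2 v u w)).sub (h2 w u v))
    exact contDiff_solve hg h1 hnd
  have htors : ∀ x u v, Γ x u v = Γ x v u := by
    intro x u v
    rw [hΓ, hΓ]
    refine hext x _ _ fun w => ?_
    rw [hchr, hchr, hDs x w u v]
    ring
  refine ⟨Γ, ⟨hg, hsΓ, hsymm, hpos, htors, ?_, ?_⟩, hΓ⟩
  · intro x w u v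
    have h1 := hchr x w u v
    have h2 := hchr x w v u
    rw [hΓ, hΓ, hsymm x u]
    rw [hDs x w v u] at h2
    rw [hDs x u w v] at h1
    rw [hDs x u w v] at h2
    linarith
  · intro x u v
    have hΓd : DifferentiableAt ℝ Γ x := hsΓ.differentiable (by simp) x
    have hcurv : curvature g₀ x u v v = fderiv ℝ Γ x u v v - fderiv ℝ Γ x v u v +
        Γ x u (Γ x v v) - Γ x v (Γ x u v) := by
      unfold curvature
      rw [← fderiv_app2 hΓd, ← fderiv_app2 hΓd]
      rfl
    have hk := hK x u v
    unfold sectional at hk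
    rw [hcurv] at hk
    simp only [hgg] at hk
    rcases lt_or_ge 0 (g x u u * g x v v - g x u v ^ 2) with hpos' | hneg
    · by_contra hcon
      push Not at hcon
      have := div_pos hcon hpos'
      linarith
    · by_cases hv : v = 0
      · subst hv
        simp
      · have hvv := hpos x v hv
        have hz : g x v v • u - g x u v • v = 0 := by
          by_contra hz
          have h1 := hpos x _ hz
          simp only [map_sub, map_smul, _root_.sub_apply, _root_.smul_apply, smul_eq_mul] at h1
          rw [hsymm x v u] at h1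
          nlinarith
        have hu : u = (g x u v / g x v v) • v := by
          have h1 : g x v v • u = g x u v • v := sub_eq_zero.1 hz
          have h2 : (g x v v)⁻¹ • g x v v • u = (g x v v)⁻¹ • g x u v • v := by rw [h1]
          rw [smul_smul, inv_mul_cancel₀ hvv.ne', one_smul, smul_smul] at h2
          rw [div_eq_inv_mul]
          exact h2
        rw [hu]
        simp only [map_smul, _root_.smul_apply]
        simp

end Pool.Agent.N520.Had
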