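import Mathlib
import Pool.Agent.N520.HFlow
import Pool.Agent.N520.HTwo
import Pool.Agent.N520.HAlg

/-!
# Compatible structures in normal coordinates
-/

set_option autoImplicit false
set_option maxSynthPendingDepth 3

open Set Function Topology Filter Metric
open scoped ContDiff InnerProductSpace

namespace Pool.Agent.N520.Had

section ndata

variable {E : Type} [NormedAddCommGroup E] [InnerProductSpace ℝ E]

/-- A symplectic form `σ` with a compatible almost complex structure `J` on a Euclidean space such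
that the metric `σ(·, J·)` has the properties of the metric of a nonpositively curved manifold in
normal coordinates: the Gauss lemma, and the monotonicity of the metric along rays. -/
structure NData (σ : E → E →L[ℝ] E →L[ℝ] ℝ) (J : E → E →L[ℝ] E) : Prop where
  sσ : ContDiff ℝ ∞ σ
  sJ : ContDiff ℝ ∞ J
  comp : ∀ x, Compat (σ x) (J x)
  closed : ClosedForm σ
  radial : ∀ x w, σ x x (J x w) = ⟪x, w⟫_ℝ
  mono : ∀ x w, 0 ≤ fderiv ℝ (fun y => σ y w (J y w)) x x

variable {σ : E → E →L[ℝ] E →L[ℝ] ℝ} {J : E → E →L[ℝ] E}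

theorem NData.smooth_g (h : NData σ J) (u w : E) : ContDiff ℝ ∞ (fun y => σ y u (J y w)) :=
  (h.sσ.clm_apply contDiff_const).clm_apply (h.sJ.clm_apply contDiff_const)

theorem NData.radial' (h : NData σ J) (t : ℝ) (x w : E) :
    σ (t • x) x (J (t • x) w) = ⟪x, w⟫_ℝ := by
  have hne : ∀ s : ℝ, s ≠ 0 → σ (s • x) x (J (s • x) w) = ⟪x, w⟫_ℝ := by
    intro s hs
    have h1 := h.radial (s • x) w
    rw [map_smul, _root_.smul_apply, inner_smul_left, smul_eq_mul] at h1
    simpa [hs] using h1
  have hc : Continuous (fun s : ℝ => σ (s • x) x (J (s • x) w)) :=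
    (h.smooth_g x w).continuous.comp (continuous_id.smul continuous_const)
  have hd : Dense {s : ℝ | s ≠ 0} := dense_compl_singleton 0
  have heq := Continuous.ext_on hd hc continuous_const (fun s hs => hne s hs)
  exact congrFun heq t

theorem NData.zero (h : NData σ J) (u w : E) : σ 0 u (J 0 w) = ⟪u, w⟫_ℝ := by
  have := h.radial' 0 u w
  simpa using this

theorem NData.monotone (h : NData σ J) (x w : E) :
    MonotoneOn (fun s : ℝ => σ (s • x) w (J (s • x) w)) (Ici 0) := by
  have hG : Differentiable ℝ (fun y => σ y w (J y w)) :=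
    (h.smooth_g w w).differentiable (by simp)
  have hder : ∀ s : ℝ, HasDerivAt (fun s : ℝ => σ (s • x) w (J (s • x) w))
      (fderiv ℝ (fun y => σ y w (J y w)) (s • x) x) s := by
    intro s
    have h1 : HasDerivAt (fun t : ℝ => t • x) x s := by
      simpa using (hasDerivAt_id s).smul_const x
    exact HasFDerivAt.comp_hasDerivAt (l := fun y => σ y w (J y w)) (f := fun t : ℝ => t • x) s
      (hG _).hasFDerivAt h1
  refine monotoneOn_of_deriv_nonneg (convex_Ici 0)
    (fun s _ => (hder s).continuousAt.continuousWithinAt)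
    (fun s _ => (hder s).differentiableAt.differentiableWithinAt) ?_
  intro s hs
  rw [interior_Ici] at hs
  have hs0 : (0 : ℝ) < s := hs
  rw [(hder s).deriv]
  have h2 := h.mono (s • x) w
  rw [map_smul, smul_eq_mul] at h2
  exact nonneg_of_mul_nonneg_right h2 hs0

theorem NData.le_of_le (h : NData σ J) (x w : E) {s : ℝ} (hs : s ∈ Icc (0 : ℝ) 1) :
    σ (s • x) w (J (s • x) w) ≤ σ x w (J x w) := by
  have h1 := h.monotone x w (mem_Ici.2 hs.1) (mem_Ici.2 zero_le_one) hs.2
  simpa using h1

theorem NData.norm_le (h : NData σ J) (x w : E) : ‖w‖ ^ 2 ≤ σ x w (J x w) := by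
  have h1 := h.le_of_le x w (s := 0) ⟨le_rfl, zero_le_one⟩
  rw [zero_smul, h.zero, real_inner_self_eq_norm_sq] at h1
  exact h1

/-- the derivative of `σ` in the radial direction is nonnegative on complex lines -/
theorem NData.radial_nonneg (h : NData σ J) (x v : E) : 0 ≤ fderiv ℝ σ x x v (J x v) := by
  have hσ : Differentiable ℝ σ := h.sσ.differentiable (by simp)
  have hJ : Differentiable ℝ J := h.sJ.differentiable (by simp)
  have key : ∀ w, fderiv ℝ (fun y => σ y w (J y w)) x x =
      fderiv ℝ σ x x w (J x w) + σ x w (fderiv ℝ J x x w) := by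
    intro w
    have h1 : HasFDerivAt (fun y => σ y w) ((fderiv ℝ σ x).flip w) x := by
      simpa using (hσ x).hasFDerivAt.clm_apply (hasFDerivAt_const w x)
    have h2 : HasFDerivAt (fun y => J y w) ((fderiv ℝ J x).flip w) x := by
      simpa using (hJ x).hasFDerivAt.clm_apply (hasFDerivAt_const w x)
    rw [(h1.clm_apply h2).fderiv]
    simp only [_root_.add_apply, ContinuousLinearMap.comp_apply, ContinuousLinearMap.flip_apply]
    ring
  have hsq : fderiv ℝ J x x (J x v) + J x (fderiv ℝ J x x v) = 0 := by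
    have h2 : HasFDerivAt (fun y => J y v) ((fderiv ℝ J x).flip v) x := by
      simpa using (hJ x).hasFDerivAt.clm_apply (hasFDerivAt_const v x)
    have h3 := (hJ x).hasFDerivAt.clm_apply h2
    have h4 : (fun y => J y (J y v)) = fun _ => -v := funext fun y => (h.comp y).sq v
    rw [h4] at h3
    have h5 := h3.unique (hasFDerivAt_const (-v) x)
    have h6 := congrArg (fun L : E →L[ℝ] E => L x) h5
    simp only [_root_.add_apply, ContinuousLinearMap.comp_apply,
      ContinuousLinearMap.flip_apply, _root_.zero_apply] at h6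
    rw [add_comm]
    exact h6
  have h1 := h.mono x v
  have h2 := h.mono x (J x v)
  rw [key] at h1 h2
  have h3 : fderiv ℝ J x x (J x v) = -J x (fderiv ℝ J x x v) := eq_neg_of_add_eq_zero_left hsq
  rw [h3, map_neg, (h.comp x).inv, (h.comp x).sq, map_neg] at h2
  have h4 := alt_skew (fun w => fderiv_alt hσ (fun x => (h.comp x).alt) x x w) (J x v) v
  rw [h4] at h2
  linarith

/-- `d(ι_x σ)` tames `J` -/
theorem NData.tame (h : NData σ J) (x v : E) :
    2 * σ x v (J x v) ≤ dOne (fun y => σ y y) x v (J x v) := by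
  rw [dOne_euler (h.sσ.differentiable (by simp)) (fun x => (h.comp x).alt) h.closed]
  linarith [h.radial_nonneg x v]

theorem NData.lam_bound (h : NData σ J) (x v : E) :
    (σ x x v) ^ 2 ≤ ‖x‖ ^ 2 * σ x v (J x v) := by
  have h1 := (h.comp x).cs' x v
  rw [h.radial, real_inner_self_eq_norm_sq] at h1
  exact h1

theorem NData.lam_bound' (h : NData σ J) (x v : E) {t : ℝ} (ht : t ∈ Icc (0 : ℝ) 1) :
    (σ (t • x) x v) ^ 2 ≤ ‖x‖ ^ 2 * σ x v (J x v) := by
  have h1 := (h.comp (t • x)).cs' x v
  rw [h.radial', real_inner_self_eq_norm_sq] at h1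
  exact h1.trans (mul_le_mul_of_nonneg_left (h.le_of_le x v ht) (sq_nonneg _))

theorem NData.prim_bound [FiniteDimensional ℝ E] (h : NData σ J) (x v : E) :
    (prim σ x v) ^ 2 ≤ ‖x‖ ^ 2 * σ x v (J x v) := by
  have hg : 0 ≤ σ x v (J x v) := (h.comp x).nonneg v
  have hM : 0 ≤ ‖x‖ ^ 2 * σ x v (J x v) := mul_nonneg (sq_nonneg _) hg
  rw [prim_apply h.sσ]
  have h1 : ‖∫ t in (0 : ℝ)..1, t * σ (t • x) x v‖ ≤
      Real.sqrt (‖x‖ ^ 2 * σ x v (J x v)) * |1 - 0| := by
    refine intervalIntegral.norm_integral_le_of_norm_le_const fun t ht => ?_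
    rw [uIoc_of_le zero_le_one] at ht
    have h2 := h.lam_bound' x v ⟨ht.1.le, ht.2⟩
    rw [norm_mul, Real.norm_of_nonneg ht.1.le]
    have h3 : ‖σ (t • x) x v‖ ≤ Real.sqrt (‖x‖ ^ 2 * σ x v (J x v)) := Real.abs_le_sqrt h2
    calc t * ‖σ (t • x) x v‖ ≤ 1 * Real.sqrt (‖x‖ ^ 2 * σ x v (J x v)) :=
          mul_le_mul ht.2 h3 (norm_nonneg _) zero_le_one
      _ = _ := one_mul _
  rw [sub_zero, abs_one, mul_one, Real.norm_eq_abs] at h1
  calc (∫ t in (0 : ℝ)..1, t * σ (t • x) x v) ^ 2
      = |∫ t in (0 : ℝ)..1, t * σ (t • x) x v| ^ 2 := (sq_abs _).symm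
    _ ≤ (Real.sqrt (‖x‖ ^ 2 * σ x v (J x v))) ^ 2 := by gcongr
    _ = _ := Real.sq_sqrt hM

/-- rescaling -/
theorem NData.scale (h : NData σ J) (δ : ℝ) :
    NData (fun x => σ (δ • x)) (fun x => J (δ • x)) := by
  have hs : ContDiff ℝ ∞ (fun x : E => δ • x) := contDiff_const.smul contDiff_id
  have hd : ∀ x : E, HasFDerivAt (fun x : E => δ • x) (δ • ContinuousLinearMap.id ℝ E) x :=
    fun x => (hasFDerivAt_id x).const_smul δ
  refine ⟨h.sσ.comp hs, h.sJ.comp hs, fun x => h.comp _, ?_, ?_, ?_⟩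
  · intro x u v w
    have h1 : fderiv ℝ (fun x => σ (δ • x)) x =
        (fderiv ℝ σ (δ • x)).comp (δ • ContinuousLinearMap.id ℝ E) :=
      (HasFDerivAt.comp (g := σ) (f := fun x : E => δ • x) x
        ((h.sσ.differentiable (by simp)) _).hasFDerivAt (hd x)).fderiv
    rw [h1]
    simp only [ContinuousLinearMap.comp_apply, _root_.smul_apply, ContinuousLinearMap.id_apply,
      map_smul, smul_eq_mul]
    rw [← mul_add, ← mul_add, h.closed, mul_zero]
  · intro x w
    exact h.radial' δ x w
  · intro x w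
    have h1 : fderiv ℝ (fun x => σ (δ • x) w (J (δ • x) w)) x =
        (fderiv ℝ (fun y => σ y w (J y w)) (δ • x)).comp (δ • ContinuousLinearMap.id ℝ E) :=
      (HasFDerivAt.comp (g := fun y => σ y w (J y w)) (f := fun x : E => δ • x) x
        (((h.smooth_g w w).differentiable (by simp)) _).hasFDerivAt (hd x)).fderiv
    rw [h1]
    simp only [ContinuousLinearMap.comp_apply, _root_.smul_apply, ContinuousLinearMap.id_apply]
    exact h.mono (δ • x) w

end ndata

end Pool.Agent.N520.Had
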