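import Mathlib
import Pool.Agent.N520.HNorm

/-!
# A Liouville form which is linear near the origin
-/

set_option autoImplicit false
set_option maxSynthPendingDepth 3

open Set Function Topology Filter Metric
open scoped ContDiff InnerProductSpace

namespace Pool.Agent.N520.Had

section good

variable {E : Type} [NormedAddCommGroup E] [InnerProductSpace ℝ E] [FiniteDimensional ℝ E]
variable {σ : E → E →L[ℝ] E →L[ℝ] ℝ} {J : E → E →L[ℝ] E}

/-- the interpolation between the linear and the radial Liouville form -/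
noncomputable def lam (χ : E → ℝ) (σ : E → E →L[ℝ] E →L[ℝ] ℝ) (p : ℝ × E) : E →L[ℝ] ℝ :=
  χ p.2 • σ 0 p.2 + (1 - χ p.2) • σ (p.1 • p.2) p.2

theorem contDiff_lam {χ : E → ℝ} (hχ : ContDiff ℝ ∞ χ) (hσ : ContDiff ℝ ∞ σ) :
    ContDiff ℝ ∞ (lam χ σ) := by
  have h1 : ContDiff ℝ ∞ (fun p : ℝ × E => χ p.2) := hχ.comp contDiff_snd
  have h2 : ContDiff ℝ ∞ (fun p : ℝ × E => σ (p.1 • p.2)) :=
    hσ.comp (contDiff_fst.smul contDiff_snd)
  exact (h1.smul ((contDiff_const (c := σ 0)).clm_apply contDiff_snd)).add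
    ((contDiff_const.sub h1).smul (h2.clm_apply contDiff_snd))

theorem contDiff_lam' {χ : E → ℝ} (hχ : ContDiff ℝ ∞ χ) (hσ : ContDiff ℝ ∞ σ) (δ : ℝ) :
    ContDiff ℝ ∞ (fun y => lam χ σ (δ, y)) :=
  (contDiff_lam hχ hσ).comp (contDiff_const.prodMk contDiff_id)

theorem dOne_lam {χ : E → ℝ} (hχ : ContDiff ℝ ∞ χ) (hσ : ContDiff ℝ ∞ σ) (δ : ℝ) (x u v : E) :
    dOne (fun y => lam χ σ (δ, y)) x u v =
      fderiv ℝ (lam χ σ) (δ, x) (0, u) v - fderiv ℝ (lam χ σ) (δ, x) (0, v) u := by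
  have h6 : HasFDerivAt (fun z : E => (δ, z)) (ContinuousLinearMap.inr ℝ ℝ E) x :=
    hasFDerivAt_prodMk_right δ x
  have h5 : HasFDerivAt (fun z => lam χ σ (δ, z))
      ((fderiv ℝ (lam χ σ) (δ, x)).comp (ContinuousLinearMap.inr ℝ ℝ E)) x :=
    HasFDerivAt.comp (g := lam χ σ) (f := fun z : E => (δ, z)) x
      (((contDiff_lam hχ hσ).differentiable (by simp)) _).hasFDerivAt h6
  rw [dOne_apply, h5.fderiv]
  rfl

theorem continuous_dOne_lam {χ : E → ℝ} (hχ : ContDiff ℝ ∞ χ) (hσ : ContDiff ℝ ∞ σ) :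
    Continuous (fun p : ℝ × E => dOne (fun y => lam χ σ (p.1, y)) p.2) := by
  have hD : Continuous (fderiv ℝ (lam χ σ)) :=
    (contDiff_lam hχ hσ).continuous_fderiv (by simp)
  rw [continuous_clm_apply]
  intro u
  rw [continuous_clm_apply]
  intro v
  simp only [dOne_lam hχ hσ]
  exact ((hD.clm_apply continuous_const).clm_apply continuous_const).sub
    ((hD.clm_apply continuous_const).clm_apply continuous_const)

omit [FiniteDimensional ℝ E] in
theorem dOne_congr {α β : E → E →L[ℝ] ℝ} {x : E} (h : α =ᶠ[𝓝 x] β) : dOne α x = dOne β x := by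
  unfold dOne
  rw [h.fderiv_eq]

omit [FiniteDimensional ℝ E] in
theorem dOne_linear {B : E →L[ℝ] E →L[ℝ] ℝ} (hB : ∀ v, B v v = 0) (x : E) :
    dOne (fun y => B y) x = (2 : ℝ) • B := by
  ext u v
  rw [dOne_apply]
  have : fderiv ℝ (fun y => B y) x = B := B.fderiv
  rw [this, _root_.smul_apply, _root_.smul_apply, alt_skew hB v u, smul_eq_mul]
  ring

theorem exists_good (h : NData σ J) : ∃ δ : ℝ, 0 < δ ∧ ∃ α : E → E →L[ℝ] ℝ,
    ContDiff ℝ ∞ α ∧
    (∀ x v, (α x v) ^ 2 ≤ ‖x‖ ^ 2 * σ (δ • x) v (J (δ • x) v)) ∧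
    (∀ x v, σ (δ • x) v (J (δ • x) v) ≤ dOne α x v (J (δ • x) v)) ∧
    (∀ x, ‖x‖ < 1 → α x = σ 0 x) ∧
    (∀ x, x ≠ 0 → 0 < ⟪x, (dOne α x).inverse (α x)⟫_ℝ) := by
  have hprop : ProperSpace E := FiniteDimensional.proper_real E
  have hcs : CompleteSpace E := FiniteDimensional.complete ℝ E
  let f : ContDiffBump (0 : E) := ⟨1, 2, one_pos, one_lt_two⟩
  let χ : E → ℝ := fun x => f x
  have hχ : ContDiff ℝ ∞ χ := f.contDiff
  have hχ0 : ∀ x, 0 ≤ χ x := fun x => f.nonneg
  have hχ1 : ∀ x, χ x ≤ 1 := fun x => f.le_one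
  have hχone : ∀ x : E, ‖x‖ ≤ 1 → χ x = 1 := fun x hx =>
    f.one_of_mem_closedBall (by rw [mem_closedBall_zero_iff]; exact hx)
  have hχzero : ∀ x : E, 2 ≤ ‖x‖ → χ x = 0 := fun x hx =>
    f.zero_of_le_dist (by rw [dist_zero_right]; exact hx)
  have hl := contDiff_lam hχ h.sσ
  have hl' := contDiff_lam' hχ h.sσ
  have hΩc := continuous_dOne_lam hχ h.sσ
  have halt0 : ∀ v, σ 0 v v = 0 := (h.comp 0).alt
  have hσc : Continuous σ := h.sσ.continuous
  have hJc : Continuous J := h.sJ.continuous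
  have hlam0 : ∀ y, lam χ σ (0, y) = σ 0 y := by
    intro y
    simp only [lam, zero_smul, ← add_smul, add_sub_cancel, one_smul]
  have hΩ0 : ∀ x, dOne (fun y => lam χ σ (0, y)) x = (2 : ℝ) • σ 0 := by
    intro x
    have : (fun y => lam χ σ (0, y)) = fun y => σ 0 y := funext hlam0
    rw [this, dOne_linear halt0]
  have hnd0 : ∀ v, (∀ w, ((2 : ℝ) • σ 0) v w = 0) → v = 0 := by
    intro v hv
    by_contra hne
    have h1 := (h.comp 0).pos v hne
    have h2 := hv (J 0 v)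
    rw [_root_.smul_apply, _root_.smul_apply, smul_eq_mul] at h2
    linarith
  -- taming on the ball of radius 3
  have hT : ∀ᶠ δ : ℝ in 𝓝 0, ∀ q ∈ closedBall (0 : E) 3 ×ˢ sphere (0 : E) 1,
      σ (δ • q.1) q.2 (J (δ • q.1) q.2) <
        dOne (fun y => lam χ σ (δ, y)) q.1 q.2 (J (δ • q.1) q.2) := by
    refine ((isCompact_closedBall _ _).prod (isCompact_sphere _ _)
      ).eventually_forall_of_forall_eventually ?_
    rintro ⟨x, v⟩ ⟨hx, hv⟩
    rw [mem_sphere_zero_iff_norm] at hv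
    have c1 : Continuous (fun z : ℝ × E × E => J (z.1 • z.2.1) z.2.2) :=
      (hJc.comp (continuous_fst.smul (continuous_fst.comp continuous_snd))).clm_apply
        (continuous_snd.comp continuous_snd)
    have c2 : Continuous (fun z : ℝ × E × E => σ (z.1 • z.2.1) z.2.2 (J (z.1 • z.2.1) z.2.2)) :=
      ((hσc.comp (continuous_fst.smul (continuous_fst.comp continuous_snd))).clm_apply
        (continuous_snd.comp continuous_snd)).clm_apply c1
    have c3 : Continuous (fun z : ℝ × E × E =>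
        dOne (fun y => lam χ σ (z.1, y)) z.2.1 z.2.2 (J (z.1 • z.2.1) z.2.2)) :=
      ((hΩc.comp (continuous_fst.prodMk (continuous_fst.comp continuous_snd))).clm_apply
        (continuous_snd.comp continuous_snd)).clm_apply c1
    refine (isOpen_lt c2 c3).mem_nhds ?_
    change σ ((0 : ℝ) • x) v (J ((0 : ℝ) • x) v) <
      dOne (fun y => lam χ σ (0, y)) x v (J ((0 : ℝ) • x) v)
    rw [hΩ0, zero_smul, _root_.smul_apply, _root_.smul_apply, smul_eq_mul, h.zero,
      real_inner_self_eq_norm_sq, hv]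
    norm_num
  -- the Liouville field points outwards on the annulus
  have hL : ∀ᶠ δ : ℝ in 𝓝 0, ∀ x ∈ closedBall (0 : E) 3 \ ball (0 : E) 1,
      0 < ⟪x, (dOne (fun y => lam χ σ (δ, y)) x).inverse (lam χ σ (δ, x))⟫_ℝ := by
    refine ((isCompact_closedBall _ _).diff isOpen_ball).eventually_forall_of_forall_eventually ?_
    rintro x ⟨hx, hx1⟩
    rw [mem_ball_zero_iff, not_lt] at hx1
    obtain ⟨e, he⟩ := exists_equiv_of_nondeg ((2 : ℝ) • σ 0) hnd0
    have hinv : ContinuousAt (ContinuousLinearMap.inverse : (E →L[ℝ] E →L[ℝ] ℝ) → _)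
        (dOne (fun y => lam χ σ (0, y)) x) := by
      rw [hΩ0, ← he]
      exact (contDiffAt_map_inverse (n := 0) e).continuousAt
    have c1 : ContinuousAt (fun z : ℝ × E => (dOne (fun y => lam χ σ (z.1, y)) z.2).inverse)
        (0, x) :=
      ContinuousAt.comp (g := ContinuousLinearMap.inverse)
        (f := fun z : ℝ × E => dOne (fun y => lam χ σ (z.1, y)) z.2) (x := ((0 : ℝ), x)) hinv
        hΩc.continuousAt
    have c2 : ContinuousAt (fun z : ℝ × E => (dOne (fun y => lam χ σ (z.1, y)) z.2).inverse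
        (lam χ σ (z.1, z.2))) (0, x) := c1.clm_apply hl.continuous.continuousAt
    have c3 : ContinuousAt (fun z : ℝ × E => ⟪z.2, (dOne (fun y => lam χ σ (z.1, y)) z.2).inverse
        (lam χ σ (z.1, z.2))⟫_ℝ) (0, x) := continuousAt_snd.inner c2
    refine c3.eventually (lt_mem_nhds ?_)
    change 0 < ⟪x, (dOne (fun y => lam χ σ (0, y)) x).inverse (lam χ σ (0, x))⟫_ℝ
    have h1 : (dOne (fun y => lam χ σ (0, y)) x).inverse (lam χ σ (0, x)) =
        (2⁻¹ : ℝ) • x := by
      rw [hΩ0, hlam0]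
      refine solve_unique hnd0 ?_
      rw [map_smul, _root_.smul_apply, smul_smul]
      norm_num
    rw [h1, inner_smul_right, real_inner_self_eq_norm_sq]
    positivity
  obtain ⟨δ, ⟨hTδ, hLδ⟩, hδ⟩ := (((hT.and hL).filter_mono nhdsWithin_le_nhds).and
    (self_mem_nhdsWithin (a := (0 : ℝ)) (s := Ioi 0))).exists
  have hδ0 : 0 < δ := hδ
  set α : E → E →L[ℝ] ℝ := fun y => lam χ σ (δ, y) with hα
  have hs := h.scale δ
  -- near points of norm > 2
  have hfar : ∀ x : E, 2 < ‖x‖ → α =ᶠ[𝓝 x] fun y => σ (δ • y) y := by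
    intro x hx
    filter_upwards [(isOpen_lt continuous_const continuous_norm).mem_nhds hx] with y hy
    have hy' : 2 < ‖y‖ := hy
    simp only [hα, lam, hχzero y hy'.le, zero_smul, zero_add, sub_zero, one_smul]
  have hnear : ∀ x : E, ‖x‖ ≤ 1 → α x = σ 0 x := by
    intro x hx
    simp only [hα, lam, hχone x hx, one_smul, sub_self, zero_smul, add_zero]
  have htame : ∀ x v, σ (δ • x) v (J (δ • x) v) ≤ dOne α x v (J (δ • x) v) := by
    intro x v
    rcases le_or_gt ‖x‖ 3 with hx | hx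
    · by_cases hv : v = 0
      · simp [hv]
      · have hvn : 0 < ‖v‖ := norm_pos_iff.2 hv
        have h1 := (hTδ (x, ‖v‖⁻¹ • v) ⟨by rw [mem_closedBall_zero_iff]; exact hx, by
          rw [mem_sphere_zero_iff_norm, norm_smul, norm_inv, norm_norm,
            inv_mul_cancel₀ hvn.ne']⟩).le
        simp only [map_smul, _root_.smul_apply, smul_eq_mul] at h1
        have h2 : 0 < ‖v‖⁻¹ * ‖v‖⁻¹ := by positivity
        have h3 : (‖v‖⁻¹ * ‖v‖⁻¹) * σ (δ • x) v (J (δ • x) v) ≤
            (‖v‖⁻¹ * ‖v‖⁻¹) * dOne α x v (J (δ • x) v) := by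
          calc _ = ‖v‖⁻¹ * (‖v‖⁻¹ * σ (δ • x) v (J (δ • x) v)) := by ring
            _ ≤ ‖v‖⁻¹ * (‖v‖⁻¹ * dOne α x v (J (δ • x) v)) := h1
            _ = _ := by ring
        exact le_of_mul_le_mul_left h3 h2
    · rw [dOne_congr (hfar x (by linarith))]
      have h1 : 2 * σ (δ • x) v (J (δ • x) v) ≤ dOne (fun y => σ (δ • y) y) x v (J (δ • x) v) :=
        hs.tame x v
      have h2 : 0 ≤ σ (δ • x) v (J (δ • x) v) := (hs.comp x).nonneg v
      linarith
  have hnd : ∀ x v, (∀ w, dOne α x v w = 0) → v = 0 := by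
    intro x v hv
    by_contra hne
    have h1 := (h.comp (δ • x)).pos v hne
    have h2 := htame x v
    rw [hv] at h2
    linarith
  refine ⟨δ, hδ0, α, hl' δ, ?_, htame, fun x hx => hnear x hx.le, ?_⟩
  · intro x v
    have e : α x v = χ x * σ 0 x v + (1 - χ x) * σ (δ • x) x v := by
      simp only [hα, lam, _root_.add_apply, _root_.smul_apply, smul_eq_mul]
    have h1 : (σ 0 x v) ^ 2 ≤ ‖x‖ ^ 2 * σ (δ • x) v (J (δ • x) v) := by
      have := hs.lam_bound' x v (t := 0) ⟨le_rfl, zero_le_one⟩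
      simpa using this
    have h2 : (σ (δ • x) x v) ^ 2 ≤ ‖x‖ ^ 2 * σ (δ • x) v (J (δ • x) v) := hs.lam_bound x v
    rw [e]
    have h3 : (χ x * σ 0 x v + (1 - χ x) * σ (δ • x) x v) ^ 2 ≤
        χ x * (σ 0 x v) ^ 2 + (1 - χ x) * (σ (δ • x) x v) ^ 2 := by
      have h4 : χ x * (σ 0 x v) ^ 2 + (1 - χ x) * (σ (δ • x) x v) ^ 2 -
          (χ x * σ 0 x v + (1 - χ x) * σ (δ • x) x v) ^ 2 =
          χ x * (1 - χ x) * (σ 0 x v - σ (δ • x) x v) ^ 2 := by ring
      have h5 : 0 ≤ χ x * (1 - χ x) * (σ 0 x v - σ (δ • x) x v) ^ 2 :=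
        mul_nonneg (mul_nonneg (hχ0 x) (by linarith [hχ1 x])) (sq_nonneg _)
      linarith
    nlinarith [mul_le_mul_of_nonneg_left h1 (hχ0 x),
      mul_le_mul_of_nonneg_left h2 (show 0 ≤ 1 - χ x by linarith [hχ1 x])]
  · intro x hx
    have hxn : 0 < ‖x‖ := norm_pos_iff.2 hx
    rcases lt_or_ge ‖x‖ 1 with hx1 | hx1
    · have h1 : α =ᶠ[𝓝 x] fun y => σ 0 y := by
        filter_upwards [(isOpen_lt continuous_norm continuous_const).mem_nhds hx1] with y hy
        exact hnear y (le_of_lt hy)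
      have h2 : (dOne α x).inverse (α x) = (2⁻¹ : ℝ) • x := by
        rw [dOne_congr h1, dOne_linear halt0, hnear x hx1.le]
        refine solve_unique hnd0 ?_
        rw [map_smul, _root_.smul_apply, smul_smul]
        norm_num
      rw [h2, inner_smul_right, real_inner_self_eq_norm_sq]
      positivity
    · rcases le_or_gt ‖x‖ 3 with hx3 | hx3
      · exact hLδ x ⟨by rw [mem_closedBall_zero_iff]; exact hx3, by
          rw [mem_ball_zero_iff, not_lt]; exact hx1⟩
      · set Z := (dOne α x).inverse (α x) with hZ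
        have hZs : dOne α x Z = α x := solve_spec (hnd x) (α x)
        have hαx : α x = σ (δ • x) x := (hfar x (by linarith)).self_of_nhds
        have h1 : ⟪x, Z⟫_ℝ = dOne α x Z (J (δ • x) Z) := by
          rw [hZs, hαx]
          exact (h.radial' δ x Z).symm
        have hZ0 : Z ≠ 0 := by
          intro h0
          rw [h0, map_zero] at hZs
          have h2 := h.radial' δ x x
          rw [← hαx, ← hZs, _root_.zero_apply, real_inner_self_eq_norm_sq] at h2
          have : 0 < ‖x‖ ^ 2 := by positivity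
          linarith
        rw [h1]
        exact lt_of_lt_of_le ((h.comp (δ • x)).pos Z hZ0) (htame x Z)

end good

end Pool.Agent.N520.Had
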