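import Mathlib

/-!
# Global inversion of smooth maps equal to the identity off a compact set
-/

set_option autoImplicit false

open Set Filter Topology Metric Function
open scoped ContDiff

namespace Pool.Agent.N520

section Inv

variable {E : Type*} [NormedAddCommGroup E] [NormedSpace ℝ E] [FiniteDimensional ℝ E]

/-- an injective endomorphism of a finite dimensional space is an equivalence -/
theorem exists_equiv_of_injective (L : E →L[ℝ] E) (h : Injective L) :
    ∃ e : E ≃L[ℝ] E, (e : E →L[ℝ] E) = L := by
  have h' : Injective (L : E →ₗ[ℝ] E) := h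
  refine ⟨(LinearEquiv.ofInjectiveEndo (L : E →ₗ[ℝ] E) h').toContinuousLinearEquiv, ?_⟩
  ext x
  rfl

/-- a smooth bijection with injective derivatives has a smooth inverse -/
theorem exists_smooth_inverse (T : E → E) (hT : ContDiff ℝ ∞ T) (hb : Bijective T)
    (hD : ∀ x, Injective (fderiv ℝ T x)) :
    ∃ S : E → E, ContDiff ℝ ∞ S ∧ (∀ x, S (T x) = x) ∧ ∀ x, T (S x) = x := by
  have : CompleteSpace E := FiniteDimensional.complete ℝ E
  choose e he using fun x => exists_equiv_of_injective (fderiv ℝ T x) (hD x)
  have h1 : ∀ x, HasStrictFDerivAt T (e x : E →L[ℝ] E) x := fun x => by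
    rw [he x]
    exact (hT.contDiffAt).hasStrictFDerivAt (by simp)
  have hopen : IsOpenMap T := isOpenMap_of_hasStrictFDerivAt_equiv h1
  let H : E ≃ₜ E := (Equiv.ofBijective T hb).toHomeomorphOfContinuousOpen hT.continuous hopen
  have hH : (H : E → E) = T := rfl
  refine ⟨H.symm, ?_, fun x => ?_, fun x => ?_⟩
  · refine H.contDiff_symm (f₀' := e) (fun a => ?_) hT
    exact (h1 a).hasFDerivAt
  · exact H.symm_apply_apply x
  · exact H.apply_symm_apply x

/-- a smooth map with injective derivatives which is the identity off a compact set is bijective -/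
theorem bijective_of_injective_fderiv (a : E → E) (ha : ContDiff ℝ ∞ a) (K : Set E)
    (hK : IsCompact K) (haK : ∀ x ∉ K, a x = x) (hD : ∀ x, Injective (fderiv ℝ a x)) :
    Bijective a := by
  have : CompleteSpace E := FiniteDimensional.complete ℝ E
  have : ProperSpace E := FiniteDimensional.proper ℝ E
  cases subsingleton_or_nontrivial E with
  | inl hs => exact ⟨fun x y _ => Subsingleton.elim x y, fun y => ⟨y, Subsingleton.elim _ _⟩⟩
  | inr hn =>
  choose e he using fun x => exists_equiv_of_injective (fderiv ℝ a x) (hD x)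
  have h1 : ∀ x, HasStrictFDerivAt a (e x : E →L[ℝ] E) x := fun x => by
    rw [he x]
    exact (ha.contDiffAt).hasStrictFDerivAt (by simp)
  have hloc : IsLocalHomeomorph a := by
    intro x
    exact ⟨(h1 x).toOpenPartialHomeomorph a, (h1 x).mem_toOpenPartialHomeomorph_source, rfl⟩
  have hprop : IsProperMap a := by
    rw [isProperMap_iff_tendsto_cocompact]
    refine ⟨ha.continuous, ?_⟩
    refine Tendsto.congr' ?_ tendsto_id
    filter_upwards [hK.compl_mem_cocompact] with x hx
    exact (haK x hx).symm
  have hfib : ∀ y, (a ⁻¹' {y}).Finite := fun y => by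
    refine (hprop.isCompact_preimage isCompact_singleton).finite
      (IsDiscrete.of_openPartialHomeomorph a subset_rfl ?_)
    intro x _
    exact ⟨(h1 x).toOpenPartialHomeomorph a, (h1 x).mem_toOpenPartialHomeomorph_source, rfl⟩
  have hcov : IsCoveringMap a := by
    rw [isCoveringMap_iff_isCoveringMapOn_univ]
    refine hprop.isClosedMap.isCoveringMapOn_of_isLocalHomeomorphOn (fun y _ => hfib y) ?_
    exact fun x _ => hloc x
  -- a point with one preimage
  obtain ⟨y, hy⟩ : ∃ y, y ∉ K ∪ a '' K := by
    by_contra! hcon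
    have h2 : IsCompact (K ∪ a '' K) := hK.union (hK.image ha.continuous)
    have h3 : (univ : Set E) = K ∪ a '' K := by
      symm
      exact eq_univ_of_forall hcon
    have h4 : NoncompactSpace E := NormedSpace.noncompactSpace ℝ E
    exact noncompact_univ E (h3 ▸ h2)
  have hyf : ∀ x, a x = y → x = y := by
    intro x hx
    by_cases hxK : x ∈ K
    · exact absurd (Or.inr ⟨x, hxK, hx⟩) hy
    · rw [← hx, haK x hxK]
  have hay : a y = y := haK y (fun h => hy (Or.inl h))
  have key : ∀ z, ∃ γ : Path.Homotopic.Quotient z y, True := fun z =>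
    ⟨.mk (PathConnectedSpace.somePath z y), trivial⟩
  constructor
  · intro p q hpq
    obtain ⟨γ, -⟩ := key (a p)
    have hb := (hcov.monodromy_bijective γ).injective
    have := @hb ⟨p, rfl⟩ ⟨q, hpq.symm⟩ (by
      apply Subtype.ext
      rw [hyf _ (hcov.monodromy γ ⟨p, rfl⟩).2, hyf _ (hcov.monodromy γ ⟨q, hpq.symm⟩).2])
    exact congrArg Subtype.val this
  · intro z
    obtain ⟨γ, -⟩ := key z
    obtain ⟨w, -⟩ := (hcov.monodromy_bijective γ).surjective ⟨y, hay⟩
    exact ⟨w.1, w.2⟩

end Inv

end Pool.Agent.N520
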