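import Mathlib
import Pool.Agent.N520.HGood
import Pool.Agent.N520.Inv

/-!
# The Moser isotopy and the Liouville flow
-/

set_option autoImplicit false
set_option maxSynthPendingDepth 3

open Set Function Topology Filter Metric
open scoped ContDiff InnerProductSpace

namespace Pool.Agent.N520.Had

section moser

variable {E : Type} [NormedAddCommGroup E] [InnerProductSpace ℝ E] [FiniteDimensional ℝ E]
variable {σ : E → E →L[ℝ] E →L[ℝ] ℝ} {J : E → E →L[ℝ] E}

omit [FiniteDimensional ℝ E] in
theorem closed_comb {σ₁ σ₂ : E → E →L[ℝ] E →L[ℝ] ℝ} (h1 : Differentiable ℝ σ₁)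
    (h2 : Differentiable ℝ σ₂) (c1 : ClosedForm σ₁) (c2 : ClosedForm σ₂) (a b : ℝ) :
    ClosedForm (fun y => a • σ₁ y + b • σ₂ y) := by
  intro x u v w
  have e : fderiv ℝ (fun y => a • σ₁ y + b • σ₂ y) x =
      a • fderiv ℝ σ₁ x + b • fderiv ℝ σ₂ x :=
    (((h1 x).hasFDerivAt.const_smul a).add ((h2 x).hasFDerivAt.const_smul b)).fderiv
  rw [e]
  simp only [_root_.add_apply, _root_.smul_apply, smul_eq_mul]
  linear_combination a * c1 x u v w + b * c2 x u v w

omit [FiniteDimensional ℝ E] in
theorem dOne_comb {α β : E → E →L[ℝ] ℝ} {x : E} (h1 : DifferentiableAt ℝ α x)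
    (h2 : DifferentiableAt ℝ β x) (a b : ℝ) (u v : E) :
    dOne (fun y => a • α y + b • β y) x u v = a * dOne α x u v + b * dOne β x u v := by
  have e : fderiv ℝ (fun y => a • α y + b • β y) x =
      a • fderiv ℝ α x + b • fderiv ℝ β x :=
    ((h1.hasFDerivAt.const_smul a).add (h2.hasFDerivAt.const_smul b)).fderiv
  simp only [dOne_apply]
  rw [e]
  simp only [_root_.add_apply, _root_.smul_apply, smul_eq_mul]
  ring

/-- Moser's isotopy from `σ` to `dα` -/
theorem moser (h : NData σ J) {α : E → E →L[ℝ] ℝ} (hα : ContDiff ℝ ∞ α)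
    (hb : ∀ x v, (α x v) ^ 2 ≤ ‖x‖ ^ 2 * σ x v (J x v))
    (ht : ∀ x v, σ x v (J x v) ≤ dOne α x v (J x v)) :
    ∃ F G : E → E, ContDiff ℝ ∞ F ∧ ContDiff ℝ ∞ G ∧ (∀ x, G (F x) = x) ∧ (∀ x, F (G x) = x) ∧
      ∀ x u v, dOne α (F x) (fderiv ℝ F x u) (fderiv ℝ F x v) = σ x u v := by
  set s : ℝ → ℝ := fun t => Real.sin t ^ 2 with hs
  set s' : ℝ → ℝ := fun t => 2 * Real.sin t * Real.cos t with hs'
  have hsd : ∀ t, HasDerivAt s (s' t) t := by
    intro t
    have := (Real.hasDerivAt_sin t).pow 2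
    refine this.congr_deriv ?_
    simp [hs']
  have hs01 : ∀ t, s t ∈ Icc (0 : ℝ) 1 := fun t => ⟨sq_nonneg _, by
    simp only [hs]; nlinarith [Real.sin_sq_add_cos_sq t, sq_nonneg (Real.cos t)]⟩
  have hs'2 : ∀ t, |s' t| ≤ 2 := by
    intro t
    simp only [hs']
    rw [abs_mul, abs_mul, abs_two]
    have h1 := Real.abs_sin_le_one t
    have h2 := Real.abs_cos_le_one t
    have h3 : |Real.sin t| * |Real.cos t| ≤ 1 * 1 :=
      mul_le_mul h1 h2 (abs_nonneg _) zero_le_one
    nlinarith
  have hss : ContDiff ℝ ∞ s := Real.contDiff_sin.pow 2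
  have hss' : ContDiff ℝ ∞ s' := (contDiff_const.mul Real.contDiff_sin).mul Real.contDiff_cos
  have hdα := contDiff_dOne hα
  have hp := contDiff_prim h.sσ
  set S : ℝ × E → E →L[ℝ] E →L[ℝ] ℝ := fun p => (1 - s p.1) • σ p.2 + s p.1 • dOne α p.2 with hS
  have hSs : ContDiff ℝ ∞ S :=
    ((contDiff_const.sub (hss.comp contDiff_fst)).smul (h.sσ.comp contDiff_snd)).add
      ((hss.comp contDiff_fst).smul (hdα.comp contDiff_snd))
  have hSt : ∀ p v, σ p.2 v (J p.2 v) ≤ S p v (J p.2 v) := by
    intro p v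
    have h1 := hs01 p.1
    simp only [hS, _root_.add_apply, _root_.smul_apply, smul_eq_mul]
    nlinarith [mul_le_mul_of_nonneg_left (ht p.2 v) h1.1]
  have hSnd : ∀ p v, (∀ w, S p v w = 0) → v = 0 := by
    intro p v hv
    by_contra hne
    have h1 := (h.comp p.2).pos v hne
    have h2 := hSt p v
    rw [hv] at h2
    linarith
  have hSalt : ∀ p v, S p v v = 0 := by
    intro p v
    simp only [hS, _root_.add_apply, _root_.smul_apply, smul_eq_mul, (h.comp p.2).alt, dOne_self]
    ring
  set γ : ℝ × E → E →L[ℝ] ℝ := fun p => prim σ p.2 - α p.2 with hγ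
  have hγs : ContDiff ℝ ∞ γ := (hp.comp contDiff_snd).sub (hα.comp contDiff_snd)
  set Y : ℝ × E → E := fun p => (S p).inverse (γ p) with hY
  have hYs : ContDiff ℝ ∞ Y := contDiff_solve hSs hγs hSnd
  have hYe : ∀ p, S p (Y p) = γ p := fun p => solve_spec (hSnd p) (γ p)
  have hYb : ∀ p, ‖Y p‖ ≤ 2 * ‖p.2‖ := by
    intro p
    have h1 : σ p.2 (Y p) (J p.2 (Y p)) ≤ 4 * ‖p.2‖ ^ 2 := by
      refine (h.comp p.2).bound (by positivity) (hSt p) (fun v => ?_) (hYe p)
      have h2 := h.prim_bound p.2 v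
      have h3 := hb p.2 v
      simp only [hγ, _root_.sub_apply]
      nlinarith [sq_nonneg (prim σ p.2 v + α p.2 v)]
    have h2 := h.norm_le p.2 (Y p)
    have h3 : ‖Y p‖ ^ 2 ≤ (2 * ‖p.2‖) ^ 2 := by nlinarith
    exact (sq_le_sq₀ (norm_nonneg _) (by positivity)).1 h3
  set X : ℝ × E → E := fun p => s' p.1 • Y p with hX
  have hXs : ContDiff ℝ ∞ X := (hss'.comp contDiff_fst).smul hYs
  obtain ⟨F, G, hF, hG, hF0, hFd, hGF, hFG⟩ := exists_isotopy_linear hXs (fun T =>
    ⟨4, by norm_num, fun t _ x => by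
      have h1 := hYb (t, x)
      have h2 := hs'2 t
      simp only [hX]
      rw [norm_smul, Real.norm_eq_abs]
      have h3 : |s' t| * ‖Y (t, x)‖ ≤ 2 * (2 * ‖x‖) :=
        mul_le_mul h2 h1 (norm_nonneg _) (by norm_num)
      linarith⟩)
  have hcl : ∀ t, ClosedForm (fun y => S (t, y)) := fun t =>
    closed_comb (h.sσ.differentiable (by simp)) (hdα.differentiable (by simp)) h.closed
      (closed_dOne hα) (1 - s t) (s t)
  have key := pull_const hSs hSalt hcl hXs hF hFd (by
    intro t y a b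
    have e1 : HasDerivAt (fun r : ℝ => S (r, y) a b)
        (-s' t * σ y a b + s' t * dOne α y a b) t := by
      have h1 := (((hsd t).const_sub 1).mul_const (σ y a b)).add
        ((hsd t).mul_const (dOne α y a b))
      exact h1
    have e2 : (fun z => S (t, z) (X (t, z))) =
        fun z => s' t • prim σ z + (-s' t) • α z := by
      funext z
      have h1 : S (t, z) (X (t, z)) = s' t • S (t, z) (Y (t, z)) := by
        simp only [hX, map_smul]
      rw [h1, hYe]
      simp only [hγ, smul_sub, neg_smul]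
      exact sub_eq_add_neg _ _
    rw [e1.deriv, e2, dOne_comb ((hp.differentiable (by simp)) y)
      ((hα.differentiable (by simp)) y), dOne_prim h.sσ (fun x => (h.comp x).alt) h.closed]
    ring) (Real.pi / 2)
  have hs0 : s 0 = 0 := by simp [hs]
  have hs1 : s (Real.pi / 2) = 1 := by simp [hs]
  have hFid : F 0 = id := funext hF0
  refine ⟨F (Real.pi / 2), G (Real.pi / 2), ?_, ?_, hGF _, hFG _, ?_⟩
  · exact hF.comp (contDiff_const.prodMk contDiff_id)
  · exact hG.comp (contDiff_const.prodMk contDiff_id)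
  · intro x u v
    have h1 := key x u v
    simp only [hS, hs0, hs1, hFid, sub_zero, sub_self, one_smul, zero_smul, zero_add, add_zero,
      fderiv_id, id_eq, ContinuousLinearMap.id_apply] at h1
    exact h1

/-- the Liouville flow identifies `(E, dα)` with a linear symplectic space -/
theorem liouville (h : NData σ J) {α : E → E →L[ℝ] ℝ} (hα : ContDiff ℝ ∞ α)
    (hb : ∀ x v, (α x v) ^ 2 ≤ ‖x‖ ^ 2 * σ x v (J x v))
    (ht : ∀ x v, σ x v (J x v) ≤ dOne α x v (J x v))
    (hnear : ∀ x, ‖x‖ < 1 → α x = σ 0 x)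
    (hout : ∀ x, x ≠ 0 → 0 < ⟪x, (dOne α x).inverse (α x)⟫_ℝ) :
    ∃ F : E → E, ContDiff ℝ ∞ F ∧ Bijective F ∧
      ∀ x u v, dOne α (F x) (fderiv ℝ F x u) (fderiv ℝ F x v) = 2 * σ 0 u v := by
  have hprop : ProperSpace E := FiniteDimensional.proper_real E
  have hcs : CompleteSpace E := FiniteDimensional.complete ℝ E
  have hdα := contDiff_dOne hα
  have hnd : ∀ x v, (∀ w, dOne α x v w = 0) → v = 0 := by
    intro x v hv
    by_contra hne
    have h1 := (h.comp x).pos v hne
    have h2 := ht x v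
    rw [hv] at h2
    linarith
  set Z : E → E := fun x => (dOne α x).inverse (α x) with hZ
  have hZs : ContDiff ℝ ∞ Z := contDiff_solve hdα hα hnd
  have hZ1 : ContDiff ℝ 1 Z := hZs.of_le (by exact_mod_cast le_top)
  have hZe : ∀ x, dOne α x (Z x) = α x := fun x => solve_spec (hnd x) (α x)
  have hZb : ∀ x, ‖Z x‖ ≤ ‖x‖ := by
    intro x
    have h1 : σ x (Z x) (J x (Z x)) ≤ ‖x‖ ^ 2 :=
      (h.comp x).bound (by positivity) (ht x) (hb x) (hZe x)
    have h2 := h.norm_le x (Z x)
    exact (sq_le_sq₀ (norm_nonneg _) (norm_nonneg _)).1 (h2.trans h1)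
  have halt0 : ∀ v, σ 0 v v = 0 := (h.comp 0).alt
  have hdnear : ∀ x, ‖x‖ < 1 → dOne α x = (2 : ℝ) • σ 0 := by
    intro x hx
    have h1 : α =ᶠ[𝓝 x] fun y => σ 0 y := by
      filter_upwards [(isOpen_lt continuous_norm continuous_const).mem_nhds hx] with y hy
      exact hnear y hy
    rw [dOne_congr h1, dOne_linear halt0]
  have hZnear : ∀ x, ‖x‖ < 1 → Z x = (2⁻¹ : ℝ) • x := by
    intro x hx
    refine solve_unique (hnd x) ?_
    rw [hdnear x hx, hnear x hx, map_smul, _root_.smul_apply, smul_smul]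
    norm_num
  obtain ⟨φ, hφs, hφ0, hφd⟩ := exists_flow_linear hZs one_pos
    (fun x => by linarith [hZb x])
  have hadd : ∀ s t x, φ (s + t) x = φ s (φ t x) := fun s t x => flow_add hZ1 hφ0 hφd s t x
  have hinv : ∀ s x, φ (-s) (φ s x) = x := by
    intro s x
    rw [← hadd, neg_add_cancel, hφ0]
  have hinv' : ∀ s x, φ s (φ (-s) x) = x := by
    intro s x
    rw [← hadd, add_neg_cancel, hφ0]
  -- the flow expands `dα`
  have hexp : ∀ t x u v, Real.exp (-t) *
      dOne α (φ t x) (fderiv ℝ (φ t) x u) (fderiv ℝ (φ t) x v) = dOne α x u v := by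
    intro t x u v
    have hS : ContDiff ℝ ∞ (fun p : ℝ × E => Real.exp (-p.1) • dOne α p.2) :=
      (Real.contDiff_exp.comp contDiff_fst.neg).smul (hdα.comp contDiff_snd)
    have key := pull_const (σ := fun p : ℝ × E => Real.exp (-p.1) • dOne α p.2) hS
      (fun p v => by
        simp only [_root_.smul_apply, dOne_self, smul_eq_mul, mul_zero])
      (fun t => by
        have h1 := closed_comb (hdα.differentiable (by simp)) (hdα.differentiable (by simp))
          (closed_dOne hα) (closed_dOne hα) (Real.exp (-t)) 0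
        have h2 : (fun y => Real.exp (-t) • dOne α y + (0 : ℝ) • dOne α y) =
            fun y => Real.exp (-t) • dOne α y := by
          funext y; simp
        rw [h2] at h1
        exact h1)
      (X := fun p => Z p.2) (hZs.comp contDiff_snd) hφs hφd
      (fun t y a b => by
        have e1 : HasDerivAt (fun r : ℝ => (Real.exp (-r) • dOne α y) a b)
            (-Real.exp (-t) * dOne α y a b) t := by
          have h1 := ((Real.hasDerivAt_exp (-t)).comp t (hasDerivAt_neg t)).mul_const
            (dOne α y a b)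
          refine h1.congr_deriv ?_
          ring
        have e2 : (fun z => (Real.exp (-t) • dOne α z) (Z z)) =
            fun z => Real.exp (-t) • α z + (0 : ℝ) • α z := by
          funext z
          rw [_root_.smul_apply, hZe]
          simp
        rw [e1.deriv]
        simp only
        rw [e2, dOne_comb ((hα.differentiable (by simp)) y)
          ((hα.differentiable (by simp)) y)]
        ring) t x u v
    have hφid : φ 0 = id := funext hφ0
    simp only [_root_.smul_apply, smul_eq_mul, hφid, fderiv_id, id_eq, neg_zero, Real.exp_zero,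
      one_mul, ContinuousLinearMap.id_apply] at key
    exact key
  -- the flow near the origin
  have hlin : ∀ x s, ‖x‖ < 1 → ‖Real.exp (s / 2) • x‖ < 1 → φ s x = Real.exp (s / 2) • x := by
    intro x s hx hsx
    have hcd : ∀ t, HasDerivAt (fun t : ℝ => Real.exp (t / 2) • x)
        ((2⁻¹ : ℝ) • Real.exp (t / 2) • x) t := by
      intro t
      have h1 := ((Real.hasDerivAt_exp (t / 2)).comp t ((hasDerivAt_id t).div_const 2)).smul_const x
      refine h1.congr_deriv ?_
      rw [smul_smul]
      congr 1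
      ring
    -- an open interval
    obtain ⟨b, hb0, hbs, hbb⟩ : ∃ b : ℝ, 0 < b ∧ s < b ∧ ∀ t < b, ‖Real.exp (t / 2) • x‖ < 1 := by
      have hcont : Continuous (fun t : ℝ => ‖Real.exp (t / 2) • x‖) := by fun_prop
      have h0 : ‖Real.exp (max 0 s / 2) • x‖ < 1 := by
        rcases max_cases 0 s with h | h
        · rw [h.1]; simpa using hx
        · rw [h.1]; exact hsx
      have hev := (hcont.tendsto (max 0 s)).eventually (gt_mem_nhds h0)
      obtain ⟨ε, hε, hball⟩ := Metric.eventually_nhds_iff.1 hev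
      refine ⟨max 0 s + ε / 2, by linarith [le_max_left 0 s], by linarith [le_max_right 0 s], ?_⟩
      intro t ht
      have h1 := hball (y := max 0 s + ε / 2) (by
        rw [Real.dist_eq]; rw [add_sub_cancel_left, abs_of_pos (by linarith)]; linarith)
      refine lt_of_le_of_lt ?_ h1
      rw [norm_smul, norm_smul, Real.norm_of_nonneg (Real.exp_pos _).le,
        Real.norm_of_nonneg (Real.exp_pos _).le]
      refine mul_le_mul_of_nonneg_right (Real.exp_le_exp.2 (by linarith)) (norm_nonneg _)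
    have h1 := curve_unique hZ1 (c₁ := fun t => φ t x) (c₂ := fun t => Real.exp (t / 2) • x)
      (a := -|s| - 1) (b := b) ⟨by linarith [abs_nonneg s], hb0⟩ (fun t _ => hφd t x)
      (fun t ht => by
        rw [hZnear _ (hbb t ht.2)]
        exact hcd t) (by simp [hφ0])
    exact h1 ⟨by linarith [neg_abs_le s], hbs⟩
  -- independence of the time
  have hind : ∀ x S T, ‖Real.exp (-S / 2) • x‖ < 1 → ‖Real.exp (-T / 2) • x‖ < 1 →
      φ S (Real.exp (-S / 2) • x) = φ T (Real.exp (-T / 2) • x) := by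
    intro x S T hS hT
    have h1 : φ (T - S) (Real.exp (-T / 2) • x) = Real.exp (-S / 2) • x := by
      have e : Real.exp ((T - S) / 2) • Real.exp (-T / 2) • x = Real.exp (-S / 2) • x := by
        rw [smul_smul, ← Real.exp_add]
        congr 2
        ring
      rw [hlin _ _ hT (by rw [e]; exact hS), e]
    rw [← h1, ← hadd]
    congr 1
    ring
  set sF : E → ℝ := fun x => Real.log (1 + ‖x‖ ^ 2) with hsF
  have hpos1 : ∀ x : E, 0 < 1 + ‖x‖ ^ 2 := fun x => by positivity
  have hsFs : ContDiff ℝ ∞ sF :=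
    (contDiff_const.add (contDiff_norm_sq ℝ)).log (fun x => (hpos1 x).ne')
  have hsFn : ∀ x S, sF x ≤ S → ‖Real.exp (-S / 2) • x‖ < 1 := by
    intro x S hS
    rw [norm_smul, Real.norm_of_nonneg (Real.exp_pos _).le]
    have h1 : Real.exp (-S / 2) ^ 2 * (1 + ‖x‖ ^ 2) ≤ 1 := by
      have h2 : Real.exp (-S / 2) ^ 2 = Real.exp (-S) := by
        rw [← Real.exp_nat_mul]; congr 1; push_cast; ring
      rw [h2]
      have h3 : 1 + ‖x‖ ^ 2 = Real.exp (sF x) := (Real.exp_log (hpos1 x)).symm
      rw [h3, ← Real.exp_add]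
      exact Real.exp_le_one_iff.2 (by linarith)
    have h4 : (Real.exp (-S / 2) * ‖x‖) ^ 2 < 1 := by
      have := Real.exp_pos (-S / 2)
      nlinarith [mul_pos this this]
    have h5 : 0 ≤ Real.exp (-S / 2) * ‖x‖ := by positivity
    nlinarith
  set Ψ : E → E := fun x => φ (sF x) (Real.exp (-sF x / 2) • x) with hΨ
  have hΨs : ContDiff ℝ ∞ Ψ := by
    have h1 : ContDiff ℝ ∞ (fun x => Real.exp (-sF x / 2) • x) :=
      (Real.contDiff_exp.comp (hsFs.neg.div_const 2)).smul contDiff_id
    exact hφs.comp (hsFs.prodMk h1)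
  have hΨe : ∀ x S, sF x ≤ S → Ψ x = φ S (Real.exp (-S / 2) • x) := fun x S hS =>
    hind x (sF x) S (hsFn x _ le_rfl) (hsFn x S hS)
  refine ⟨Ψ, hΨs, ⟨?_, ?_⟩, ?_⟩
  · intro x y hxy
    have h1 : φ (max (sF x) (sF y)) (Real.exp (-max (sF x) (sF y) / 2) • x) =
        φ (max (sF x) (sF y)) (Real.exp (-max (sF x) (sF y) / 2) • y) := by
      rw [← hΨe x _ (le_max_left _ _), ← hΨe y _ (le_max_right _ _)]
      exact hxy
    have h2 := congrArg (φ (-max (sF x) (sF y))) h1
    rw [hinv, hinv] at h2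
    exact smul_right_injective E (Real.exp_pos _).ne' h2
  · intro y
    -- the backward flow enters the unit ball
    obtain ⟨s, hs⟩ : ∃ s : ℝ, ‖φ (-s) y‖ < 1 := by
      by_contra hcon
      push Not at hcon
      have hN : ∀ s, HasDerivAt (fun s => ‖φ (-s) y‖ ^ 2)
          (-(2 * ⟪φ (-s) y, Z (φ (-s) y)⟫_ℝ)) s := by
        intro s
        have h1 : HasDerivAt (fun s => φ (-s) y) (-Z (φ (-s) y)) s := by
          have := (hφd (-s) y).scomp s (hasDerivAt_neg s)
          simp only [neg_smul, one_smul] at this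
          exact this
        have h2 := h1.norm_sq
        refine h2.congr_deriv ?_
        rw [inner_neg_right]
        ring
      have hZnn : ∀ x, 0 ≤ ⟪x, Z x⟫_ℝ := by
        intro x
        by_cases hx : x = 0
        · simp [hx]
        · exact (hout x hx).le
      have hmono : ∀ s, 0 ≤ s → ‖φ (-s) y‖ ^ 2 ≤ ‖y‖ ^ 2 := by
        intro s hs
        have h1 : Antitone (fun s => ‖φ (-s) y‖ ^ 2) :=
          antitone_of_deriv_nonpos (fun s => (hN s).differentiableAt) (fun s => by
            rw [(hN s).deriv]; linarith [hZnn (φ (-s) y)])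
        have h2 := h1 hs
        simpa [hφ0] using h2
      have hKc : IsCompact (closedBall (0 : E) ‖y‖ \ ball (0 : E) 1) :=
        (isCompact_closedBall _ _).diff isOpen_ball
      have hyK : y ∈ closedBall (0 : E) ‖y‖ \ ball (0 : E) 1 := by
        refine ⟨by rw [mem_closedBall_zero_iff], ?_⟩
        rw [mem_ball_zero_iff, not_lt]
        have := hcon 0
        simpa [hφ0] using this
      obtain ⟨z, hz, hzmin⟩ := hKc.exists_isMinOn ⟨y, hyK⟩
        (f := fun x => ⟪x, Z x⟫_ℝ) (continuous_id.inner hZs.continuous).continuousOn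
      have hz0 : z ≠ 0 := by
        rintro rfl
        exact hz.2 (by simp)
      have hc : 0 < ⟪z, Z z⟫_ℝ := hout z hz0
      set c := ⟪z, Z z⟫_ℝ with hcdef
      have hdec : ∀ s, 0 ≤ s → ‖φ (-s) y‖ ^ 2 + 2 * c * s ≤ ‖y‖ ^ 2 := by
        intro s hs
        have h1 : AntitoneOn (fun s => ‖φ (-s) y‖ ^ 2 + 2 * c * s) (Ici 0) := by
          refine antitoneOn_of_deriv_nonpos (convex_Ici 0) ?_ ?_ ?_
          · intro s _
            exact ((hN s).continuousAt.add
              (continuous_const.mul continuous_id).continuousAt).continuousWithinAt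
          · intro s _
            exact ((hN s).differentiableAt.add
              (differentiableAt_id.const_mul (2 * c))).differentiableWithinAt
          · intro s hs
            rw [interior_Ici] at hs
            have hs0 : (0 : ℝ) < s := hs
            have h2 : HasDerivAt (fun s => ‖φ (-s) y‖ ^ 2 + 2 * c * s)
                (-(2 * ⟪φ (-s) y, Z (φ (-s) y)⟫_ℝ) + 2 * c * 1) s :=
              (hN s).add ((hasDerivAt_id s).const_mul (2 * c))
            rw [h2.deriv]
            have h3 : φ (-s) y ∈ closedBall (0 : E) ‖y‖ \ ball (0 : E) 1 := by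
              refine ⟨?_, ?_⟩
              · rw [mem_closedBall_zero_iff]
                exact (sq_le_sq₀ (norm_nonneg _) (norm_nonneg _)).1 (hmono s hs0.le)
              · rw [mem_ball_zero_iff, not_lt]; exact hcon s
            have h4 : c ≤ ⟪φ (-s) y, Z (φ (-s) y)⟫_ℝ := hzmin h3
            linarith
        have h2 := h1 (mem_Ici.2 le_rfl) (mem_Ici.2 hs) hs
        simpa [hφ0] using h2
      have h1 := hdec (‖y‖ ^ 2 / (2 * c)) (by positivity)
      have h2 : 2 * c * (‖y‖ ^ 2 / (2 * c)) = ‖y‖ ^ 2 := by field_simp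
      rw [h2] at h1
      have h3 := hcon (‖y‖ ^ 2 / (2 * c))
      nlinarith [norm_nonneg (φ (-(‖y‖ ^ 2 / (2 * c))) y)]
    refine ⟨Real.exp (s / 2) • φ (-s) y, ?_⟩
    have e : Real.exp (-s / 2) • Real.exp (s / 2) • φ (-s) y = φ (-s) y := by
      rw [smul_smul, ← Real.exp_add]
      have : -s / 2 + s / 2 = 0 := by ring
      rw [this, Real.exp_zero, one_smul]
    change φ (sF _) (Real.exp (-sF _ / 2) • _) = y
    rw [hind _ _ s (hsFn _ _ le_rfl) (by rw [e]; exact hs), e, hinv']
  · intro x u v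
    set S : ℝ := sF x + 1 with hS
    have hev : Ψ =ᶠ[𝓝 x] fun y => φ S (Real.exp (-S / 2) • y) := by
      have h1 : ∀ᶠ y in 𝓝 x, sF y < S :=
        (hsFs.continuous.tendsto x).eventually (gt_mem_nhds (by linarith))
      filter_upwards [h1] with y hy
      exact hΨe y S hy.le
    have hφS : HasFDerivAt (φ S) (fderiv ℝ (φ S) (Real.exp (-S / 2) • x))
        (Real.exp (-S / 2) • x) := by
      have : ContDiff ℝ ∞ (φ S) := hφs.comp (contDiff_const.prodMk contDiff_id)
      exact (this.differentiable (by simp) _).hasFDerivAt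
    have h2 : HasFDerivAt (fun y : E => Real.exp (-S / 2) • y)
        (Real.exp (-S / 2) • ContinuousLinearMap.id ℝ E) x := (hasFDerivAt_id x).const_smul _
    have h3 : fderiv ℝ Ψ x = (fderiv ℝ (φ S) (Real.exp (-S / 2) • x)).comp
        (Real.exp (-S / 2) • ContinuousLinearMap.id ℝ E) := by
      rw [hev.fderiv_eq]
      exact (HasFDerivAt.comp (g := φ S) (f := fun y : E => Real.exp (-S / 2) • y) x hφS
        h2).fderiv
    have hnorm := hsFn x S (by linarith)
    have h4 := hexp S (Real.exp (-S / 2) • x) u v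
    rw [hdnear _ hnorm] at h4
    rw [hev.self_of_nhds, h3]
    simp only [ContinuousLinearMap.comp_apply, _root_.smul_apply, ContinuousLinearMap.id_apply,
      map_smul, smul_eq_mul] at h4 ⊢
    rw [← h4]
    have h5 : Real.exp (-S / 2) * (Real.exp (-S / 2) *
        dOne α (φ S (Real.exp (-S / 2) • x)) (fderiv ℝ (φ S) (Real.exp (-S / 2) • x) u)
          (fderiv ℝ (φ S) (Real.exp (-S / 2) • x) v)) = Real.exp (-S) *
        dOne α (φ S (Real.exp (-S / 2) • x)) (fderiv ℝ (φ S) (Real.exp (-S / 2) • x) u)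
          (fderiv ℝ (φ S) (Real.exp (-S / 2) • x) v) := by
      rw [← mul_assoc, ← Real.exp_add]
      congr 2
      ring
    exact h5

end moser

end Pool.Agent.N520.Had
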