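import Mathlib
import Pool.Agent.N520.HMoser

/-!
# Compatible structures in normal coordinates are standard
-/

set_option autoImplicit false
set_option maxSynthPendingDepth 3

open Set Function Topology Filter Metric
open scoped ContDiff InnerProductSpace

namespace Pool.Agent.N520.Had

variable {E : Type} [NormedAddCommGroup E] [InnerProductSpace ℝ E] [FiniteDimensional ℝ E]
variable {σ : E → E →L[ℝ] E →L[ℝ] ℝ} {J : E → E →L[ℝ] E}

/-- In normal coordinates, `σ` is isomorphic to the constant form `σ 0`. -/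
theorem norm_main (h : NData σ J) : ∃ F G : E → E, ContDiff ℝ ∞ F ∧ ContDiff ℝ ∞ G ∧
    (∀ x, G (F x) = x) ∧ (∀ x, F (G x) = x) ∧
    ∀ x u v, σ (F x) (fderiv ℝ F x u) (fderiv ℝ F x v) = σ 0 u v := by
  obtain ⟨δ, hδ, α, hα, hb, ht, hnear, hout⟩ := exists_good h
  have hs := h.scale δ
  obtain ⟨F₁, G₁, hF₁, hG₁, hGF₁, hFG₁, hpull₁⟩ := moser hs hα hb ht
  obtain ⟨F₂, hF₂, hbij₂, hpull₂⟩ := liouville hs hα hb ht
    (fun x hx => by simp only [smul_zero]; exact hnear x hx) hout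
  have hpull₂' : ∀ x u v, dOne α (F₂ x) (fderiv ℝ F₂ x u) (fderiv ℝ F₂ x v) = 2 * σ 0 u v := by
    intro x u v
    have := hpull₂ x u v
    simp only [smul_zero] at this
    exact this
  have hnd0 : ∀ v, (∀ w, σ 0 v w = 0) → v = 0 := by
    intro v hv
    by_contra hne
    have h1 := (h.comp 0).pos v hne
    rw [hv] at h1
    exact lt_irrefl _ h1
  have hinj₂ : ∀ x, Injective (fderiv ℝ F₂ x) := by
    intro x
    rw [injective_iff_map_eq_zero]
    intro v hv
    refine hnd0 v fun w => ?_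
    have := hpull₂' x v w
    rw [hv, map_zero, _root_.zero_apply] at this
    linarith
  obtain ⟨G₂, hG₂, hGF₂, hFG₂⟩ := exists_smooth_inverse F₂ hF₂ hbij₂ hinj₂
  have h2 : 0 < Real.sqrt 2 := Real.sqrt_pos.2 two_pos
  set c : ℝ := (δ * Real.sqrt 2)⁻¹ with hc
  have hc0 : 0 < c := by positivity
  have hcδ : δ ^ 2 * c ^ 2 * 2 = 1 := by
    rw [hc]
    have : Real.sqrt 2 ^ 2 = 2 := Real.sq_sqrt two_pos.le
    field_simp
    linarith
  refine ⟨fun x => δ • G₁ (F₂ (c • x)), fun y => c⁻¹ • G₂ (F₁ (δ⁻¹ • y)), ?_, ?_, ?_, ?_, ?_⟩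
  · exact contDiff_const.smul (hG₁.comp (hF₂.comp (contDiff_const.smul contDiff_id)))
  · exact contDiff_const.smul (hG₂.comp (hF₁.comp (contDiff_const.smul contDiff_id)))
  · intro x
    beta_reduce
    rw [smul_smul, inv_mul_cancel₀ hδ.ne', one_smul, hFG₁, hGF₂, smul_smul,
      inv_mul_cancel₀ hc0.ne', one_smul]
  · intro y
    beta_reduce
    rw [smul_smul, mul_inv_cancel₀ hc0.ne', one_smul, hFG₂, hGF₁, smul_smul,
      mul_inv_cancel₀ hδ.ne', one_smul]
  · intro x u v
    have d1 : HasFDerivAt (fun y : E => c • y) (c • ContinuousLinearMap.id ℝ E) x :=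
      (hasFDerivAt_id x).const_smul c
    have d2 : HasFDerivAt (fun y : E => F₂ (c • y))
        ((fderiv ℝ F₂ (c • x)).comp (c • ContinuousLinearMap.id ℝ E)) x :=
      HasFDerivAt.comp (g := F₂) (f := fun y : E => c • y) x
        ((hF₂.differentiable (by simp)) _).hasFDerivAt d1
    have d3 : HasFDerivAt (fun y : E => G₁ (F₂ (c • y)))
        ((fderiv ℝ G₁ (F₂ (c • x))).comp
          ((fderiv ℝ F₂ (c • x)).comp (c • ContinuousLinearMap.id ℝ E))) x :=
      HasFDerivAt.comp (g := G₁) (f := fun y : E => F₂ (c • y)) x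
        ((hG₁.differentiable (by simp)) _).hasFDerivAt d2
    have d4 := d3.const_smul δ
    have hdG : ∀ w b, fderiv ℝ F₁ (G₁ w) (fderiv ℝ G₁ w b) = b := by
      intro w b
      have e1 : HasFDerivAt (fun w => F₁ (G₁ w))
          ((fderiv ℝ F₁ (G₁ w)).comp (fderiv ℝ G₁ w)) w :=
        HasFDerivAt.comp (g := F₁) (f := G₁) w ((hF₁.differentiable (by simp)) _).hasFDerivAt
          ((hG₁.differentiable (by simp)) _).hasFDerivAt
      have e2 : (fun w => F₁ (G₁ w)) = id := funext hFG₁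
      rw [e2] at e1
      have e3 := e1.unique (hasFDerivAt_id w)
      exact congrArg (fun L : E →L[ℝ] E => L b) e3
    rw [show fderiv ℝ (fun x => δ • G₁ (F₂ (c • x))) x = _ from d4.fderiv]
    simp only [ContinuousLinearMap.comp_apply, _root_.smul_apply, ContinuousLinearMap.id_apply,
      map_smul, smul_eq_mul]
    have k1 := hpull₁ (G₁ (F₂ (c • x))) (fderiv ℝ G₁ (F₂ (c • x)) (fderiv ℝ F₂ (c • x) u))
      (fderiv ℝ G₁ (F₂ (c • x)) (fderiv ℝ F₂ (c • x) v))
    rw [hdG, hdG, hFG₁, hpull₂'] at k1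
    rw [← k1]
    linear_combination (σ 0 u v) * hcδ

end Pool.Agent.N520.Had
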