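import Mathlib
import Pool.Agent.N520.HDefs
import Pool.Agent.N520.HLevi
import Pool.Agent.N520.HExp
import Pool.Agent.N520.HCover
import Pool.Agent.N520.HBasis
import Pool.Agent.N520.HPartTwo

/-!
# The symplectic Hadamard theorem
-/

set_option autoImplicit false
set_option maxSynthPendingDepth 3

open Set Function Topology Filter Metric
open scoped ContDiff InnerProductSpace

namespace Pool.Agent.N520.Had

/-- the Euclidean version of `ℝ^{2n}` -/
abbrev Eu (n : ℕ) : Type := EuclideanSpace ℝ (Fin n ⊕ Fin n)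

theorem exists_kappa (n : ℕ) : ∃ κ : Eu n ≃L[ℝ] V n,
    ∀ u v, ⟪u, v⟫_ℝ = ∑ i, ((κ u).1 i * (κ v).1 i + (κ u).2 i * (κ v).2 i) := by
  let e₁ : Eu n ≃ₗ[ℝ] (Fin n ⊕ Fin n → ℝ) := WithLp.linearEquiv 2 ℝ (Fin n ⊕ Fin n → ℝ)
  let e₂ : (Fin n ⊕ Fin n → ℝ) ≃ₗ[ℝ] V n := LinearEquiv.sumArrowLequivProdArrow _ _ ℝ ℝ
  refine ⟨(e₁.trans e₂).toContinuousLinearEquiv, fun u v => ?_⟩
  rw [PiLp.inner_apply, Fintype.sum_sum_type, ← Finset.sum_add_distrib]
  refine Finset.sum_congr rfl fun i _ => ?_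
  simp only [RCLike.inner_apply, conj_trivial]
  change v (Sum.inl i) * u (Sum.inl i) + v (Sum.inr i) * u (Sum.inr i) =
    u (Sum.inl i) * v (Sum.inl i) + u (Sum.inr i) * v (Sum.inr i)
  ring

/-- the metric of a compatible pair -/
noncomputable def gmet {W : Type} [NormedAddCommGroup W] [NormedSpace ℝ W]
    (σ : W → W →L[ℝ] W →L[ℝ] ℝ) (J : W → W →L[ℝ] W) (x : W) :
    W →L[ℝ] W →L[ℝ] ℝ := ((σ x).flip.comp (J x)).flip

theorem contDiff_gmet {W : Type} [NormedAddCommGroup W] [NormedSpace ℝ W]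
    [FiniteDimensional ℝ W] {σ : W → W →L[ℝ] W →L[ℝ] ℝ} {J : W → W →L[ℝ] W}
    (hσ : ContDiff ℝ ∞ σ) (hJ : ContDiff ℝ ∞ J) : ContDiff ℝ ∞ (gmet σ J) := by
  rw [contDiff_clm_apply_iff]
  intro u
  rw [contDiff_clm_apply_iff]
  intro v
  exact (hσ.clm_apply contDiff_const).clm_apply (hJ.clm_apply contDiff_const)

theorem main {W : Type} [NormedAddCommGroup W] [NormedSpace ℝ W] [FiniteDimensional ℝ W]
    (n : ℕ) (hdim : Module.finrank ℝ W = 2 * n)
    {σ : W → W →L[ℝ] W →L[ℝ] ℝ} {J : W → W →L[ℝ] W} (hσs : ContDiff ℝ ∞ σ)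
    (hσc : ClosedForm σ) (hJs : ContDiff ℝ ∞ J) (hcomp : ∀ x, Compat (σ x) (J x))
    {Γ : W → W →L[ℝ] W →L[ℝ] W} (hΓ : Geo (gmet σ J) Γ)
    (hcomplete : ∀ z : W × W, ∃ c : ℝ → W × W, c 0 = z ∧ ∀ t, HasDerivAt c (spray Γ (c t)) t) :
    ∃ F : V n → W, ∃ G : W → V n, ContDiff ℝ ∞ F ∧ ContDiff ℝ ∞ G ∧ (∀ x, G (F x) = x) ∧
      (∀ y, F (G y) = y) ∧ ∀ x u v, σ (F x) (fderiv ℝ F x u) (fderiv ℝ F x v) = omega u v := by
  have hcW : CompleteSpace W := FiniteDimensional.complete ℝ W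
  set g : W → W →L[ℝ] W →L[ℝ] ℝ := gmet σ J with hg
  have hgs : ContDiff ℝ ∞ g := contDiff_gmet hσs hJs
  -- a unitary frame at the base point
  obtain ⟨T, hT1, hT2⟩ := exists_unitary (hcomp 0) n hdim
  obtain ⟨κ, hκ⟩ := exists_kappa n
  let A : Eu n →L[ℝ] W := (κ.trans T : Eu n ≃L[ℝ] W)
  have hA : ∀ u v, g 0 (A u) (A v) = ⟪u, v⟫_ℝ := by
    intro u v
    rw [hκ]
    exact hT2 (κ u) (κ v)
  obtain ⟨Φ, hΦs, hΦ0, hrad, hmono⟩ := exists_exp hΓ hcomplete 0 A hA
  have hpull := contDiff_pull hgs hΦs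
  have hlow : ∀ x w, ‖w‖ ^ 2 ≤ g (Φ x) (fderiv ℝ Φ x w) (fderiv ℝ Φ x w) :=
    lower_bound hpull hrad hmono
  have hdimE : Module.finrank ℝ (Eu n) = Module.finrank ℝ W :=
    (κ.trans T).toLinearEquiv.finrank_eq
  obtain ⟨ℓ, hℓs, hℓΦ, hΦℓ⟩ := expanding_diffeo hdimE hgs.continuous hΦs hlow
  have hcE : CompleteSpace (Eu n) := FiniteDimensional.complete ℝ (Eu n)
  -- invertibility of the derivative
  have hequiv : ∀ x, ∃ e : Eu n ≃L[ℝ] W, (e : Eu n →L[ℝ] W) = fderiv ℝ Φ x := by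
    intro x
    have hinj : Function.Injective (fderiv ℝ Φ x : Eu n →ₗ[ℝ] W) := by
      rw [← LinearMap.ker_eq_bot, LinearMap.ker_eq_bot']
      intro w hw
      have hw' : fderiv ℝ Φ x w = 0 := hw
      have h1 := hlow x w
      rw [hw', map_zero] at h1
      have h2 : ‖w‖ = 0 := by
        have := norm_nonneg w
        nlinarith
      exact norm_eq_zero.1 h2
    exact ⟨(LinearEquiv.ofInjectiveOfFinrankEq _ hinj hdimE).toContinuousLinearEquiv, by
      ext v; rfl⟩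
  choose e he using hequiv
  have hD : ContDiff ℝ ∞ (fderiv ℝ Φ) := hΦs.fderiv_right (m := ∞) (by simp)
  set M : Eu n → W →L[ℝ] Eu n := fun x => (fderiv ℝ Φ x).inverse with hM
  have hMs : ContDiff ℝ ∞ M := by
    rw [contDiff_iff_contDiffAt]
    intro x
    have h1 : ContDiffAt ℝ ∞ (ContinuousLinearMap.inverse : (Eu n →L[ℝ] W) → _)
        (fderiv ℝ Φ x) := by
      rw [← he x]
      exact contDiffAt_map_inverse (e x)
    exact ContDiffAt.comp x h1 hD.contDiffAt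
  have hDM : ∀ x w, fderiv ℝ Φ x (M x w) = w := by
    intro x w
    simp only [hM]
    rw [← he x, ContinuousLinearMap.inverse_equiv]
    exact (e x).apply_symm_apply w
  have hDinj : ∀ x u v, fderiv ℝ Φ x u = fderiv ℝ Φ x v → u = v := by
    intro x u v h
    rw [← he x] at h
    exact (e x).injective h
  set J' : Eu n → Eu n →L[ℝ] Eu n := fun x => (M x).comp ((J (Φ x)).comp (fderiv ℝ Φ x)) with hJ'
  have hJ's : ContDiff ℝ ∞ J' := hMs.clm_comp ((hJs.comp hΦs).clm_comp hD)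
  have hDJ : ∀ x w, fderiv ℝ Φ x (J' x w) = J (Φ x) (fderiv ℝ Φ x w) := by
    intro x w
    simp only [hJ', ContinuousLinearMap.comp_apply]
    rw [hDM]
  have hN : NData (pull Φ σ) J' := by
    refine ⟨contDiff_pull hσs hΦs, hJ's, fun x => ⟨?_, ?_, ?_, ?_⟩,
      closed_pull hσs (fun x => (hcomp x).alt) hσc hΦs, ?_, ?_⟩
    · intro v
      exact (hcomp _).alt _
    · intro v
      refine hDinj x _ _ ?_
      rw [hDJ, hDJ, (hcomp _).sq, map_neg]
    · intro u v
      simp only [pull_apply]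
      rw [hDJ, hDJ, (hcomp _).inv]
    · intro v hv
      simp only [pull_apply]
      rw [hDJ]
      refine (hcomp _).pos _ fun h0 => hv (hDinj x v 0 ?_)
      rw [h0, map_zero]
    · intro x w
      simp only [pull_apply]
      rw [hDJ]
      exact hrad x w
    · intro x w
      simp only [pull_apply, hDJ]
      exact hmono x w
  obtain ⟨F, G, hF, hG, hGF, hFG, hpullF⟩ := norm_main hN
  obtain ⟨T', hT'1, -⟩ := exists_unitary (hN.comp 0) n (by rw [hdimE, hdim])
  refine ⟨fun x => Φ (F (T' x)), fun y => T'.symm (G (ℓ y)), ?_, ?_, ?_, ?_, ?_⟩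
  · exact hΦs.comp (hF.comp T'.contDiff)
  · exact T'.symm.contDiff.comp (hG.comp hℓs)
  · intro x
    simp only [hℓΦ, hGF, ContinuousLinearEquiv.symm_apply_apply]
  · intro y
    simp only [ContinuousLinearEquiv.apply_symm_apply, hFG, hΦℓ]
  · intro x u v
    have d1 : HasFDerivAt (fun x : V n => T' x) (T' : V n →L[ℝ] Eu n) x := T'.hasFDerivAt
    have d2 : HasFDerivAt (fun x : V n => F (T' x))
        ((fderiv ℝ F (T' x)).comp (T' : V n →L[ℝ] Eu n)) x :=
      HasFDerivAt.comp (g := F) (f := fun x : V n => T' x) x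
        ((hF.differentiable (by simp)) _).hasFDerivAt d1
    have d3 : HasFDerivAt (fun x : V n => Φ (F (T' x)))
        ((fderiv ℝ Φ (F (T' x))).comp ((fderiv ℝ F (T' x)).comp (T' : V n →L[ℝ] Eu n))) x :=
      HasFDerivAt.comp (g := Φ) (f := fun x : V n => F (T' x)) x
        ((hΦs.differentiable (by simp)) _).hasFDerivAt d2
    rw [d3.fderiv]
    simp only [ContinuousLinearMap.comp_apply, ContinuousLinearEquiv.coe_coe]
    have h1 := hpullF (T' x) (T' u) (T' v)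
    rw [hT'1] at h1
    exact h1

/-- the theorem for fields of bilinear forms -/
theorem main' {W : Type} [NormedAddCommGroup W] [NormedSpace ℝ W] [FiniteDimensional ℝ W]
    (n : ℕ) (hdim : Module.finrank ℝ W = 2 * n)
    {σ : W → LinearMap.BilinForm ℝ W} {J : W → W →ₗ[ℝ] W} (hσ : IsSymplecticForm σ)
    (hJ : IsCompatible σ J) (hc : IsGeodesicallyComplete (metric σ J))
    (hK : ∀ x u v, sectional (metric σ J) x u v ≤ 0) :
    ∃ φ : W ≃ V n, ContDiff ℝ ∞ φ ∧ ContDiff ℝ ∞ φ.symm ∧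
      ∀ x u v, omega (fderiv ℝ φ x u) (fderiv ℝ φ x v) = σ x u v := by
  let S : W → W →L[ℝ] W →L[ℝ] ℝ := fun x => LinearMap.toContinuousBilinearMap (σ x)
  let K : W → W →L[ℝ] W := fun x => LinearMap.toContinuousLinearMap (J x)
  have hS : ∀ x u v, S x u v = σ x u v := fun x u v => rfl
  have hKJ : ∀ x v, K x v = J x v := fun x v => rfl
  have hSs : ContDiff ℝ ∞ S := by
    rw [contDiff_clm_apply_iff]
    intro u
    rw [contDiff_clm_apply_iff]
    intro v
    exact hσ.smooth u v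
  have hKs : ContDiff ℝ ∞ K := by
    rw [contDiff_clm_apply_iff]
    intro v
    exact hJ.almostComplex.smooth v
  have hcomp : ∀ x, Compat (S x) (K x) := fun x =>
    ⟨hσ.alternating x, hJ.almostComplex.square x, hJ.invariant x, hJ.positive x⟩
  have hgg : ∀ x u v, metric σ J x u v = gmet S K x u v := fun x u v => rfl
  have hclosed : ClosedForm S := by
    intro x u v w
    have hSd := hSs.differentiable (by simp) x
    rw [← fderiv_app2 hSd, ← fderiv_app2 hSd, ← fderiv_app2 hSd]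
    exact hσ.closed x u v w
  obtain ⟨Γ, hΓ, hΓe⟩ := geo_of_metric hgg (contDiff_gmet hSs hKs)
    (fun x u v => (hcomp x).symm u v) (fun x v hv => (hcomp x).pos v hv) hK
  obtain ⟨F, G, hF, hG, hGF, hFG, h⟩ := main n hdim hSs hclosed hKs hcomp hΓ
    (complete_of_geodesicallyComplete hΓe hc)
  refine ⟨⟨G, F, hFG, hGF⟩, hG, hF, fun x u v => ?_⟩
  have e : ∀ w, fderiv ℝ F (G x) (fderiv ℝ G x w) = w := by
    intro w
    have e1 : HasFDerivAt (fun y => F (G y)) ((fderiv ℝ F (G x)).comp (fderiv ℝ G x)) x :=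
      HasFDerivAt.comp (g := F) (f := G) x ((hF.differentiable (by simp)) _).hasFDerivAt
        ((hG.differentiable (by simp)) _).hasFDerivAt
    have e2 : (fun y => F (G y)) = id := funext hFG
    rw [e2] at e1
    exact congrArg (fun L : W →L[ℝ] W => L w) (e1.unique (hasFDerivAt_id x))
  have h1 := h (G x) (fderiv ℝ G x u) (fderiv ℝ G x v)
  rw [e, e, hFG] at h1
  exact h1.symm

end Pool.Agent.N520.Had
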