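import Pool.Agent.N520.PiZero

/-!
# Symplectomorphisms with a linear generating function are isotopic to the identity
-/

set_option autoImplicit false

open Set Function Topology Filter
open scoped ContDiff

noncomputable section

namespace Pool.Agent.N520

variable {n : ℕ}

/-- the criterion, in terms of eigenvalues -/
theorem smooth_path_of_no_eigenvalue (φ : SympCt n) (K : Set (V n)) (hK : IsCompact K)
    (hφ : ∀ x ∉ K, φ.1 x = x) (Q : V n →ₗ[ℝ] V n)
    (hQ : ∀ v w, omega (Q v) w + omega v (Q w) = omega v w)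
    (hev : ∀ x, ∀ μ ≤ (-1 : ℝ), ∀ v, Q (fderiv ℝ φ.1 x v - v) = μ • v → v = 0) :
    ∃ Γ : ℝ → SympCt n, ContDiff ℝ ∞ (fun z : ℝ × V n => (Γ z.1).1 z.2) ∧
      (∀ t, ∀ x ∉ K, (Γ t).1 x = x) ∧ Γ 0 = 1 ∧ Γ 1 = φ := by
  obtain ⟨Φ, Ψ, hΦ, hΨ, h1, h2, h3, h4, h5, h6⟩ := linear_generating_path (omegaB n)
    (fun v hv => omega_nondeg v hv) (LinearMap.toContinuousLinearMap Q) hQ
    φ.1 φ.2.1 φ.2.2.2.1 K hK hφ (by
      intro x s hs
      have hlin : ∀ v : V n, v + s • (LinearMap.toContinuousLinearMap Q)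
          (fderiv ℝ φ.1 x v - v) = ((LinearMap.id : V n →ₗ[ℝ] V n) + s • (Q ∘ₗ
            ((fderiv ℝ φ.1 x : V n →ₗ[ℝ] V n) - LinearMap.id)) : V n →ₗ[ℝ] V n) v := fun v => rfl
      simp only [hlin]
      rw [injective_iff_map_eq_zero]
      intro v hv
      rcases hs.1.eq_or_lt with h0 | h0
      · rw [← h0] at hv
        simpa using hv
      · refine hev x (-s⁻¹) ?_ v ?_
        · have := one_le_inv_iff₀.2 ⟨h0, hs.2⟩
          linarith
        · have h7 : v + s • Q (fderiv ℝ φ.1 x v - v) = 0 := hv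
          have h8 : s • Q (fderiv ℝ φ.1 x v - v) = -v := (eq_neg_of_add_eq_zero_right h7)
          have h9 : Q (fderiv ℝ φ.1 x v - v) = s⁻¹ • (s • Q (fderiv ℝ φ.1 x v - v)) := by
            rw [smul_smul, inv_mul_cancel₀ h0.ne', one_smul]
          rw [h9, h8, smul_neg, neg_smul])
  let ε : ℝ → Equiv.Perm (V n) := fun t => ⟨fun x => Φ (t, x), fun x => Ψ (t, x), h1 t, h2 t⟩
  have hε : ∀ t, ε t ∈ SympCt n := fun t =>
    ⟨hΦ.comp (contDiff_prodMk_right t), hΨ.comp (contDiff_prodMk_right t), h3 t, K, hK, h4 t⟩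
  refine ⟨fun t => ⟨ε t, hε t⟩, hΦ, fun t x hx => h4 t x hx, ?_, ?_⟩
  · apply Subtype.ext
    apply Equiv.ext
    intro x
    exact h5 x
  · apply Subtype.ext
    apply Equiv.ext
    intro x
    exact h6 x

end Pool.Agent.N520
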