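import Pool.Agent.N520.SDefs
import Pool.Agent.N520.Cayley

/-!
# Countably many path components
-/

set_option autoImplicit false

open Set Function Topology Filter
open scoped ContDiff

noncomputable section

namespace Pool.Agent.N520

variable {n : ℕ}

/-- the standard form as a continuous bilinear map -/
def omegaB (n : ℕ) : V n →L[ℝ] V n →L[ℝ] ℝ :=
  LinearMap.toContinuousBilinearMap (LinearMap.mk₂ ℝ (fun v w : V n => omega v w)
    (fun a b c => by simp only [omega, Prod.fst_add, Prod.snd_add, Pi.add_apply, ← Finset.sum_add_distrib]; congr 1; ext i; ring)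
    (fun a b c => by simp only [omega, Prod.smul_fst, Prod.smul_snd, Pi.smul_apply, smul_eq_mul, Finset.mul_sum]; congr 1; ext i; ring)
    (fun a b c => by simp only [omega, Prod.fst_add, Prod.snd_add, Pi.add_apply, ← Finset.sum_add_distrib]; congr 1; ext i; ring)
    (fun a b c => by simp only [omega, Prod.smul_fst, Prod.smul_snd, Pi.smul_apply, smul_eq_mul, Finset.mul_sum]; congr 1; ext i; ring))

@[simp] theorem omegaB_apply (v w : V n) : omegaB n v w = omega v w := rfl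

theorem omega_nondeg (v : V n) (h : ∀ w, omega v w = 0) : v = 0 := by
  have h1 : ∀ i, v.1 i = 0 := fun i => by
    have := h (0, Pi.single i 1)
    simpa [omega, Pi.single_apply] using this
  have h2 : ∀ i, v.2 i = 0 := fun i => by
    have := h (Pi.single i 1, 0)
    simpa [omega, Pi.single_apply] using this
  exact Prod.ext (funext h1) (funext h2)

/-- derivatives in the second variable of a smooth map are smooth in both variables -/
theorem contDiff_iteratedFDeriv_right {E F : Type*} [NormedAddCommGroup E] [NormedSpace ℝ E]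
    [NormedAddCommGroup F] [NormedSpace ℝ F] (Φ : ℝ × E → F) (hΦ : ContDiff ℝ ∞ Φ) (m : ℕ) :
    ContDiff ℝ ∞ (fun z : ℝ × E => iteratedFDeriv ℝ m (fun y => Φ (z.1, y)) z.2) := by
  induction m with
  | zero =>
    have : (fun z : ℝ × E => iteratedFDeriv ℝ 0 (fun y => Φ (z.1, y)) z.2) =
        fun z => (continuousMultilinearCurryFin0 ℝ E F).symm (Φ z) := by
      ext z; rfl
    rw [this]
    exact (LinearIsometryEquiv.contDiff _).comp hΦ
  | succ m ih =>
    have : (fun z : ℝ × E => iteratedFDeriv ℝ (m + 1) (fun y => Φ (z.1, y)) z.2) =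
        fun z => (continuousMultilinearCurryLeftEquiv ℝ (fun _ : Fin (m + 1) => E) F).symm
          (fderiv ℝ (iteratedFDeriv ℝ m (fun y => Φ (z.1, y))) z.2) := by
      ext z
      rw [iteratedFDeriv_succ_eq_comp_left]
      rfl
    rw [this]
    have h2 : ContDiff ℝ ∞ (fun w : (ℝ × E) × E => (w.1.1, w.2)) :=
      (contDiff_fst.fst).prodMk contDiff_snd
    have h3 : ContDiff ℝ ∞ (Function.uncurry fun z : ℝ × E =>
        iteratedFDeriv ℝ m (fun y => Φ (z.1, y))) := ih.comp h2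
    have h4 := ContDiff.fderiv (m := ∞) (n := ∞) (f := fun z : ℝ × E =>
      iteratedFDeriv ℝ m (fun y => Φ (z.1, y))) (g := fun z => z.2) h3 contDiff_snd (by simp)
    exact (LinearIsometryEquiv.contDiff (𝕜 := ℝ) (E := E →L[ℝ] (E [×m]→L[ℝ] F))
      (F := E [×(m + 1)]→L[ℝ] F) (continuousMultilinearCurryLeftEquiv ℝ
        (fun _ : Fin (m + 1) => E) F).symm).comp h4

/-- a smooth path with supports in a fixed compact set is continuous -/
theorem joined_of_smooth_path {φ ψ : SympCt n} (K : Set (V n)) (hK : IsCompact K)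
    (Γ : ℝ → SympCt n) (hΓ : ContDiff ℝ ∞ (fun z : ℝ × V n => (Γ z.1).1 z.2))
    (hΓK : ∀ t, ∀ x ∉ K, (Γ t).1 x = x) (h0 : Γ 0 = φ) (h1 : Γ 1 = ψ) : Joined φ ψ := by
  let Γ' : ℝ → SympOn n K := fun t => ⟨Γ t, hΓK t⟩
  have hc : Continuous Γ' := by
    refine continuous_iInf_rng.2 fun m => continuous_induced_rng.2 ?_
    refine ContinuousMap.continuous_of_continuous_uncurry _ ?_
    exact (contDiff_iteratedFDeriv_right (fun z : ℝ × V n => (Γ z.1).1 z.2) hΓ m).continuous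
  have hi : Continuous (fun φ : SympOn n K => φ.1) := by
    rw [continuous_iff_coinduced_le]
    exact le_iSup (fun K : {K : Set (V n) // IsCompact K} => TopologicalSpace.coinduced
      (fun φ : SympOn n K.1 => φ.1) inferInstance) ⟨K, hK⟩
  have hcΓ : Continuous Γ := hi.comp hc
  refine ⟨⟨⟨fun t => Γ t, hcΓ.comp continuous_subtype_val⟩, ?_, ?_⟩⟩
  · simpa using h0
  · simpa using h1

/-- two elements which are `C^1`-close relative to the first one are joined by a smooth path -/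
theorem smooth_path_of_close (φ ψ : SympCt n) (K : Set (V n)) (hK : IsCompact K)
    (hφ : ∀ x ∉ K, φ.1 x = x) (hψ : ∀ x ∉ K, ψ.1 x = x)
    (hclose : ∀ x v, ‖fderiv ℝ ψ.1 x v - fderiv ℝ φ.1 x v‖ ≤ ‖fderiv ℝ φ.1 x v‖ / 2) :
    ∃ Γ : ℝ → SympCt n, ContDiff ℝ ∞ (fun z : ℝ × V n => (Γ z.1).1 z.2) ∧
      (∀ t, ∀ x ∉ K, (Γ t).1 x = x) ∧ Γ 0 = φ ∧ Γ 1 = ψ := by
  set h : SympCt n := ψ * φ⁻¹ with hh
  have hfun : (h.1 : V n → V n) = ψ.1 ∘ φ.1.symm := rfl
  have hφd : ∀ x, HasFDerivAt φ.1 (fderiv ℝ φ.1 x) x := fun x =>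
    (φ.2.1.differentiable (by simp)).differentiableAt.hasFDerivAt
  have hφsd : ∀ x, HasFDerivAt φ.1.symm (fderiv ℝ φ.1.symm x) x := fun x =>
    (φ.2.2.1.differentiable (by simp)).differentiableAt.hasFDerivAt
  have hψd : ∀ x, HasFDerivAt ψ.1 (fderiv ℝ ψ.1 x) x := fun x =>
    (ψ.2.1.differentiable (by simp)).differentiableAt.hasFDerivAt
  have e : ∀ x v, fderiv ℝ φ.1 (φ.1.symm x) (fderiv ℝ φ.1.symm x v) = v := by
    intro x v
    have h5 : HasFDerivAt (φ.1 ∘ φ.1.symm) ((fderiv ℝ φ.1 (φ.1.symm x)).comp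
        (fderiv ℝ φ.1.symm x)) x := (hφd _).comp x (hφsd x)
    have h6 : (φ.1 ∘ φ.1.symm : V n → V n) = id := by ext1 y; simp
    rw [h6] at h5
    have h7 := h5.unique (hasFDerivAt_id x)
    exact congrArg (fun L : V n →L[ℝ] V n => L v) h7
  have hhd : ∀ x v, fderiv ℝ h.1 x v =
      fderiv ℝ ψ.1 (φ.1.symm x) (fderiv ℝ φ.1.symm x v) := by
    intro x v
    have : HasFDerivAt h.1 ((fderiv ℝ ψ.1 (φ.1.symm x)).comp (fderiv ℝ φ.1.symm x)) x := by
      rw [hfun]
      exact (hψd _).comp x (hφsd x)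
    rw [this.fderiv]; rfl
  have hφs : ∀ x ∉ K, φ.1.symm x = x := fun x hx =>
    (Equiv.symm_apply_eq φ.1).2 (hφ x hx).symm
  have hhK : ∀ x ∉ K, h.1 x = x := fun x hx => by
    rw [hfun, comp_apply, hφs x hx, hψ x hx]
  obtain ⟨Φ, Ψ, hΦ, hΨ, h1, h2, h3, h4, h5, h6⟩ := linear_generating_path (omegaB n)
    (fun v hv => omega_nondeg v hv) ((1 / 2 : ℝ) • ContinuousLinearMap.id ℝ (V n))
    (fun v w => by
      simp only [smul_apply, ContinuousLinearMap.coe_id', id_eq, map_smul, smul_eq_mul]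
      ring)
    h.1 h.2.1 h.2.2.2.1 K hK hhK (by
      intro x s hs
      have hb : ∀ v, ‖fderiv ℝ h.1 x v - v‖ ≤ ‖v‖ / 2 := by
        intro v
        have h7 := hclose (φ.1.symm x) (fderiv ℝ φ.1.symm x v)
        rw [e, ← hhd] at h7
        exact h7
      have hlin : ∀ v : V n, v + s • ((1 / 2 : ℝ) • ContinuousLinearMap.id ℝ (V n))
          (fderiv ℝ h.1 x v - v) = (ContinuousLinearMap.id ℝ (V n) + (s / 2) •
            (fderiv ℝ h.1 x - ContinuousLinearMap.id ℝ (V n))) v := by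
        intro v
        simp only [smul_apply, ContinuousLinearMap.coe_id', id_eq, add_apply, sub_apply, smul_smul]
        rw [mul_one_div]
      simp only [hlin]
      rw [injective_iff_map_eq_zero]
      intro v hv
      have h8 : v = -((s / 2) • (fderiv ℝ h.1 x v - v)) := by
        simp only [add_apply, ContinuousLinearMap.coe_id', id_eq, smul_apply, sub_apply] at hv
        exact eq_neg_of_add_eq_zero_left hv
      have h9 : ‖v‖ ≤ (1 / 2) * (‖v‖ / 2) := by
        calc ‖v‖ = ‖-((s / 2) • (fderiv ℝ h.1 x v - v))‖ := by rw [← h8]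
          _ = (s / 2) * ‖fderiv ℝ h.1 x v - v‖ := by
            rw [norm_neg, norm_smul, Real.norm_of_nonneg (by linarith [hs.1])]
          _ ≤ (1 / 2) * (‖v‖ / 2) := by
            refine mul_le_mul (by linarith [hs.2]) (hb v) (norm_nonneg _) (by norm_num)
      have h10 : ‖v‖ ≤ 0 := by nlinarith [norm_nonneg v]
      simpa using h10)
  -- the path of symplectomorphisms
  let ε : ℝ → Equiv.Perm (V n) := fun t => ⟨fun x => Φ (t, x), fun x => Ψ (t, x), h1 t, h2 t⟩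
  have hε : ∀ t, ε t ∈ SympCt n := fun t =>
    ⟨hΦ.comp (contDiff_prodMk_right t), hΨ.comp (contDiff_prodMk_right t), h3 t, K, hK, h4 t⟩
  refine ⟨fun t => ⟨ε t, hε t⟩ * φ, ?_, ?_, ?_, ?_⟩
  · exact hΦ.comp (contDiff_fst.prodMk (φ.2.1.comp contDiff_snd))
  · intro t x hx
    change Φ (t, φ.1 x) = x
    rw [hφ x hx, h4 t x hx]
  · apply Subtype.ext
    apply Equiv.ext
    intro x
    change Φ (0, φ.1 x) = φ.1 x
    rw [h5]
  · apply Subtype.ext
    apply Equiv.ext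
    intro x
    change Φ (1, φ.1 x) = ψ.1 x
    rw [h6]
    change ψ.1 (φ.1.symm (φ.1 x)) = ψ.1 x
    rw [Equiv.symm_apply_apply]

theorem fderiv_eq_id_of_notMem {f : V n → V n} {K : Set (V n)} (hK : IsClosed K)
    (hf : ∀ x ∉ K, f x = x) {x : V n} (hx : x ∉ K) :
    fderiv ℝ f x = ContinuousLinearMap.id ℝ (V n) := by
  have : f =ᶠ[𝓝 x] id := by
    filter_upwards [hK.isOpen_compl.mem_nhds hx] with y hy
    exact hf y hy
  rw [this.fderiv_eq, fderiv_id]

/-- the derivative of an element is uniformly bounded from below -/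
theorem exists_lower_bound (φ : SympCt n) (K : Set (V n)) (hK : IsCompact K)
    (hφ : ∀ x ∉ K, φ.1 x = x) : ∃ C : ℝ, 0 < C ∧ ∀ x v, ‖v‖ ≤ C * ‖fderiv ℝ φ.1 x v‖ := by
  have hφs : ∀ x ∉ K, φ.1.symm x = x := fun x hx =>
    (Equiv.symm_apply_eq φ.1).2 (hφ x hx).symm
  have hcont : Continuous (fun z => fderiv ℝ φ.1.symm z) :=
    φ.2.2.1.continuous_fderiv (by simp)
  obtain ⟨C, hC⟩ := hK.exists_bound_of_continuousOn hcont.continuousOn
  refine ⟨max C 1, by positivity, fun x v => ?_⟩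
  have e : fderiv ℝ φ.1.symm (φ.1 x) (fderiv ℝ φ.1 x v) = v := by
    have h5 : HasFDerivAt (φ.1.symm ∘ φ.1) ((fderiv ℝ φ.1.symm (φ.1 x)).comp
        (fderiv ℝ φ.1 x)) x :=
      (φ.2.2.1.differentiable (by simp)).differentiableAt.hasFDerivAt.comp x
        (φ.2.1.differentiable (by simp)).differentiableAt.hasFDerivAt
    have h6 : (φ.1.symm ∘ φ.1 : V n → V n) = id := by ext1 y; simp
    rw [h6] at h5
    have h7 := h5.unique (hasFDerivAt_id x)
    exact congrArg (fun L : V n →L[ℝ] V n => L v) h7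
  have hb : ∀ z, ‖fderiv ℝ φ.1.symm z‖ ≤ max C 1 := by
    intro z
    by_cases hz : z ∈ K
    · exact (hC z hz).trans (le_max_left _ _)
    · rw [fderiv_eq_id_of_notMem hK.isClosed hφs hz]
      exact ContinuousLinearMap.norm_id_le.trans (le_max_right _ _)
  calc ‖v‖ = ‖fderiv ℝ φ.1.symm (φ.1 x) (fderiv ℝ φ.1 x v)‖ := by rw [e]
    _ ≤ ‖fderiv ℝ φ.1.symm (φ.1 x)‖ * ‖fderiv ℝ φ.1 x v‖ := ContinuousLinearMap.le_opNorm _ _
    _ ≤ max C 1 * ‖fderiv ℝ φ.1 x v‖ := by gcongr; exact hb _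

/-- there is a countable set of elements to one of which every element is joined by a smooth path
with supports in a fixed compact set -/
theorem exists_countable_dense_smooth (n : ℕ) : ∃ S : Set (SympCt n), S.Countable ∧
    ∀ ψ : SympCt n, ∃ φ ∈ S, ∃ K : Set (V n), IsCompact K ∧ ∃ Γ : ℝ → SympCt n,
      ContDiff ℝ ∞ (fun z : ℝ × V n => (Γ z.1).1 z.2) ∧
      (∀ t, ∀ x ∉ K, (Γ t).1 x = x) ∧ Γ 0 = φ ∧ Γ 1 = ψ := by
  let B : ℕ → Set (V n) := fun j => Metric.closedBall 0 j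
  have hBc : ∀ j, IsCompact (B j) := fun j => isCompact_closedBall 0 _
  let G : ℕ → Type := fun j => {φ : SympCt n // ∀ x ∉ B j, φ.1 x = x}
  have hcover : ∀ ψ : SympCt n, ∃ j, ∀ x ∉ B j, ψ.1 x = x := by
    intro ψ
    obtain ⟨K, hK, hψ⟩ := ψ.2.2.2.2
    obtain ⟨R, hR⟩ := hK.isBounded.subset_closedBall 0
    obtain ⟨j, hj⟩ := exists_nat_ge R
    refine ⟨j, fun x hx => hψ x fun hxK => hx ?_⟩
    exact Metric.closedBall_subset_closedBall hj (hR hxK)
  have main : ∀ j, ∃ T : Set (G j), T.Countable ∧ ∀ ψ : G j, ∃ φ ∈ T, ∃ Γ : ℝ → SympCt n,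
      ContDiff ℝ ∞ (fun z : ℝ × V n => (Γ z.1).1 z.2) ∧
      (∀ t, ∀ x ∉ B j, (Γ t).1 x = x) ∧ Γ 0 = φ.1 ∧ Γ 1 = ψ.1 := by
    intro j
    have : CompactSpace (B j) := isCompact_iff_compactSpace.1 (hBc j)
    let D : G j → C(B j, V n →L[ℝ] V n) := fun φ =>
      ⟨fun x => fderiv ℝ φ.1.1 x, (φ.1.2.1.continuous_fderiv (by simp)).comp
        continuous_subtype_val⟩
    choose C hC0 hC using fun φ : G j => exists_lower_bound φ.1 (B j) (hBc j) φ.2
    obtain ⟨T, hT, hTU⟩ := TopologicalSpace.isOpen_iUnion_countable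
      (fun φ : G j => Metric.ball (D φ) (1 / (2 * C φ))) (fun φ => Metric.isOpen_ball)
    refine ⟨T, hT, fun ψ => ?_⟩
    have hmem : D ψ ∈ ⋃ φ : G j, Metric.ball (D φ) (1 / (2 * C φ)) :=
      mem_iUnion.2 ⟨ψ, Metric.mem_ball_self (by have := hC0 ψ; positivity)⟩
    rw [← hTU] at hmem
    simp only [mem_iUnion] at hmem
    obtain ⟨φ, hφT, hφ⟩ := hmem
    refine ⟨φ, hφT, ?_⟩
    refine smooth_path_of_close φ.1 ψ.1 (B j) (hBc j) φ.2 ψ.2 fun x v => ?_
    by_cases hx : x ∈ B j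
    · have h1 : ‖fderiv ℝ ψ.1.1 x - fderiv ℝ φ.1.1 x‖ ≤ 1 / (2 * C φ) := by
        have h2 := (ContinuousMap.dist_apply_le_dist (f := D ψ) (g := D φ) ⟨x, hx⟩).trans
          (Metric.mem_ball.1 hφ).le
        rwa [dist_eq_norm] at h2
      have h3 := hC φ x v
      have h4 := hC0 φ
      calc ‖fderiv ℝ ψ.1.1 x v - fderiv ℝ φ.1.1 x v‖
          = ‖(fderiv ℝ ψ.1.1 x - fderiv ℝ φ.1.1 x) v‖ := rfl
        _ ≤ ‖fderiv ℝ ψ.1.1 x - fderiv ℝ φ.1.1 x‖ * ‖v‖ := ContinuousLinearMap.le_opNorm _ _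
        _ ≤ 1 / (2 * C φ) * (C φ * ‖fderiv ℝ φ.1.1 x v‖) := by gcongr
        _ = ‖fderiv ℝ φ.1.1 x v‖ / 2 := by field_simp
    · rw [fderiv_eq_id_of_notMem (hBc j).isClosed ψ.2 hx,
        fderiv_eq_id_of_notMem (hBc j).isClosed φ.2 hx, sub_self, norm_zero]
      positivity
  choose T hT hTm using main
  refine ⟨⋃ j, Subtype.val '' (T j), countable_iUnion fun j => (hT j).image _, fun ψ => ?_⟩
  obtain ⟨j, hj⟩ := hcover ψ
  obtain ⟨φ, hφ, Γ, h1, h2, h3, h4⟩ := hTm j ⟨ψ, hj⟩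
  exact ⟨φ.1, mem_iUnion.2 ⟨j, φ, hφ, rfl⟩, B j, hBc j, Γ, h1, h2, h3, h4⟩

theorem countable_zerothHomotopy (n : ℕ) : Countable (ZerothHomotopy (SympCt n)) := by
  obtain ⟨S, hS, h⟩ := exists_countable_dense_smooth n
  have : Countable S := hS.to_subtype
  refine Function.Surjective.countable (f := fun φ : S => (Quotient.mk _ φ.1 :
    ZerothHomotopy (SympCt n))) ?_
  intro q
  obtain ⟨ψ, rfl⟩ := Quotient.exists_rep q
  obtain ⟨φ, hφ, K, hK, Γ, h1, h2, h3, h4⟩ := h ψ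
  exact ⟨⟨φ, hφ⟩, Quotient.sound (joined_of_smooth_path K hK Γ h1 h2 h3 h4)⟩

end Pool.Agent.N520
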